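import Pool.Agent.Lib.MP_cfcc59_co.ADS.Defs
import Pool.Agent.Lib.MP_848d44_nt.LSP

/-!
# MP_cfcc59_co, project ADS, module LSArith: the arithmetic large sieve
-/

set_option autoImplicit false

namespace Pool.Agent.ADS

open Finset

noncomputable section

/-- the exponential function -/
def LSArith_e (α : ℝ) (n : ℕ) : ℂ := Complex.exp (2 * Real.pi * Complex.I * (n * (α : ℝ)))

theorem LSArith_e_add (α β : ℝ) (n : ℕ) :
    LSArith_e (α + β) n = LSArith_e α n * LSArith_e β n := by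
  unfold LSArith_e
  rw [← Complex.exp_add]
  congr 1
  push_cast
  ring

theorem LSArith_e_nat (k n : ℕ) : LSArith_e k n = 1 := by
  unfold LSArith_e
  have h := Complex.exp_int_mul_two_pi_mul_I ((n * k : ℕ) : ℤ)
  rw [← h]
  congr 1
  push_cast
  ring

theorem LSArith_norm_e (α : ℝ) (n : ℕ) : ‖LSArith_e α n‖ = 1 := by
  unfold LSArith_e
  rw [show (2 * (Real.pi : ℂ) * Complex.I * (n * ((α : ℝ) : ℂ))) =
    (((2 * Real.pi * (n * α) : ℝ)) : ℂ) * Complex.I by push_cast; ring]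
  exact Complex.norm_exp_ofReal_mul_I _

/-- the primitive root of unity -/
def LSArith_z (p : ℕ) : ℂ := Complex.exp (2 * Real.pi * Complex.I / p)

theorem LSArith_e_div (p b n : ℕ) :
    LSArith_e ((b : ℝ) / p) n = (LSArith_z p ^ n) ^ b := by
  unfold LSArith_e LSArith_z
  rw [← pow_mul, ← Complex.exp_nat_mul]
  congr 1
  push_cast
  ring

theorem LSArith_norm_z (p : ℕ) : ‖LSArith_z p‖ = 1 := by
  have h := LSArith_norm_e ((1 : ℕ) / p) 1
  rw [LSArith_e_div, pow_one, pow_one] at h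
  exact h

/-- Parseval -/
theorem LSArith_parseval {p : ℕ} (hp : 0 < p) (Z : ℕ → ℂ) :
    ∑ b ∈ range p, ‖∑ a ∈ range p, Z a * LSArith_e ((b : ℝ) / p) a‖ ^ 2 =
      p * ∑ a ∈ range p, ‖Z a‖ ^ 2 := by
  have hz : IsPrimitiveRoot (LSArith_z p) p := Complex.isPrimitiveRoot_exp p hp.ne'
  have hz0 : LSArith_z p ≠ 0 := Complex.exp_ne_zero _
  have hconj : (starRingEnd ℂ) (LSArith_z p) = (LSArith_z p)⁻¹ := by
    rw [Complex.inv_def, Complex.normSq_eq_norm_sq, LSArith_norm_z]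
    simp
  have key : ((∑ b ∈ range p, ‖∑ a ∈ range p, Z a * LSArith_e ((b : ℝ) / p) a‖ ^ 2 : ℝ) : ℂ) =
      ((p * ∑ a ∈ range p, ‖Z a‖ ^ 2 : ℝ) : ℂ) := by
    push_cast
    have h1 : ∀ b ∈ range p, ((‖∑ a ∈ range p, Z a * LSArith_e ((b : ℝ) / p) a‖ : ℂ)) ^ 2 =
        ∑ a ∈ range p, ∑ a' ∈ range p, (Z a * (starRingEnd ℂ) (Z a')) *
          (LSArith_z p ^ a * (LSArith_z p ^ a')⁻¹) ^ b := by
      intro b _
      rw [← Complex.mul_conj', map_sum, sum_mul_sum]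
      refine sum_congr rfl fun a _ => sum_congr rfl fun a' _ => ?_
      rw [map_mul, LSArith_e_div, LSArith_e_div, map_pow, map_pow, hconj, inv_pow, mul_pow]
      ring
    rw [sum_congr rfl h1, sum_comm, mul_sum]
    refine sum_congr rfl fun a ha => ?_
    rw [sum_comm, sum_eq_single_of_mem a ha]
    · rw [mul_inv_cancel₀ (pow_ne_zero a hz0)]
      simp only [one_pow, mul_one, sum_const, card_range, nsmul_eq_mul]
      rw [Complex.mul_conj']
    · intro a' ha' hne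
      rw [← mul_sum]
      have hu : LSArith_z p ^ a * (LSArith_z p ^ a')⁻¹ ≠ 1 := by
        intro h
        rw [mul_inv_eq_one₀ (pow_ne_zero a' hz0)] at h
        exact hne (hz.pow_inj (mem_range.1 ha) (mem_range.1 ha') h).symm
      have hp1 : (LSArith_z p ^ a * (LSArith_z p ^ a')⁻¹) ^ p = 1 := by
        rw [mul_pow, inv_pow, ← pow_mul, ← pow_mul, mul_comm a p, mul_comm a' p, pow_mul, pow_mul,
          hz.pow_eq_one, one_pow, one_pow, inv_one, mul_one]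
      rw [geom_sum_eq hu, hp1, sub_self, zero_div, mul_zero]
  exact_mod_cast key

/-- the exponential sum -/
def LSArith_S (A : Finset ℕ) (c : ℕ → ℂ) (α : ℝ) : ℂ := ∑ n ∈ A, c n * LSArith_e α n

theorem LSArith_S_zero (A : Finset ℕ) (c : ℕ → ℂ) : LSArith_S A c 0 = ∑ n ∈ A, c n := by
  unfold LSArith_S
  refine sum_congr rfl fun n _ => ?_
  have h := LSArith_e_nat 0 n
  rw [Nat.cast_zero] at h
  rw [h, mul_one]

theorem LSArith_S_add_nat (A : Finset ℕ) (c : ℕ → ℂ) (α : ℝ) (k : ℕ) :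
    LSArith_S A c (α + k) = LSArith_S A c α := by
  unfold LSArith_S
  refine sum_congr rfl fun n _ => ?_
  rw [LSArith_e_add, LSArith_e_nat, mul_one]

theorem LSArith_S_add (A : Finset ℕ) (c : ℕ → ℂ) (α β : ℝ) :
    LSArith_S A c (α + β) = LSArith_S A (fun n => c n * LSArith_e α n) β := by
  unfold LSArith_S
  refine sum_congr rfl fun n _ => ?_
  rw [LSArith_e_add, mul_assoc]

/-- the reduced residues -/
def LSArith_T (q : ℕ) : Finset ℕ := (range q).filter (fun b => b.Coprime q)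

theorem LSArith_mem_T {q b : ℕ} : b ∈ LSArith_T q ↔ b < q ∧ b.Coprime q := by
  rw [LSArith_T, mem_filter, mem_range]

theorem LSArith_e_mod {p : ℕ} (hp : 0 < p) (b n : ℕ) :
    LSArith_e ((b : ℝ) / p) n = LSArith_e ((b : ℝ) / p) (n % p) := by
  have hz : IsPrimitiveRoot (LSArith_z p) p := Complex.isPrimitiveRoot_exp p hp.ne'
  rw [LSArith_e_div, LSArith_e_div]
  congr 1
  conv_lhs => rw [← Nat.div_add_mod n p, pow_add, pow_mul, hz.pow_eq_one, one_pow, one_mul]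

/-- one prime modulus -/
theorem LSArith_prime {p : ℕ} (hp : p.Prime) (hp3 : 3 ≤ p) (A : Finset ℕ) {a1 a2 : ℕ}
    (hne : ¬ a1 ≡ a2 [MOD p]) (hA : ∀ n ∈ A, ¬ n ≡ a1 [MOD p] ∧ ¬ n ≡ a2 [MOD p]) (c : ℕ → ℂ) :
    2 / ((p : ℝ) - 2) * ‖∑ n ∈ A, c n‖ ^ 2 ≤
      ∑ b ∈ LSArith_T p, ‖LSArith_S A c ((b : ℝ) / p)‖ ^ 2 := by
  have hp0 : 0 < p := hp.pos
  set Z : ℕ → ℂ := fun a => ∑ n ∈ A with n % p = a, c n with hZ
  have hmaps : ∀ n ∈ A, n % p ∈ range p := fun n _ => mem_range.2 (Nat.mod_lt _ hp0)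
  have hS : ∀ b : ℕ, LSArith_S A c ((b : ℝ) / p) =
      ∑ a ∈ range p, Z a * LSArith_e ((b : ℝ) / p) a := by
    intro b
    unfold LSArith_S
    rw [← sum_fiberwise_of_maps_to hmaps]
    refine sum_congr rfl fun a _ => ?_
    rw [hZ, sum_mul]
    refine sum_congr rfl fun n hn => ?_
    rw [LSArith_e_mod hp0, (mem_filter.1 hn).2]
  have hsum : ∑ n ∈ A, c n = ∑ a ∈ range p, Z a := (sum_fiberwise_of_maps_to hmaps _).symm
  have hpar := LSArith_parseval hp0 Z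
  have hT : LSArith_T p = (range p).erase 0 := by
    ext b
    rw [LSArith_mem_T, mem_erase, mem_range]
    constructor
    · rintro ⟨h1, h2⟩
      refine ⟨?_, h1⟩
      rintro rfl
      rw [Nat.coprime_zero_left] at h2
      omega
    · rintro ⟨h1, h2⟩
      exact ⟨h2, (Nat.Coprime.symm ((Nat.Prime.coprime_iff_not_dvd hp).2
        (fun h => absurd (Nat.le_of_dvd (Nat.pos_of_ne_zero h1) h) (by omega))))⟩
  have hpR : (3 : ℝ) ≤ p := by exact_mod_cast hp3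
  set R : Finset ℕ := (range p) \ {a1 % p, a2 % p} with hR
  have hcard : #R = p - 2 := by
    rw [hR, card_sdiff_of_subset, card_range, card_pair]
    · intro h
      exact hne h
    · intro x hx
      rw [mem_insert, mem_singleton] at hx
      rw [mem_range]
      rcases hx with rfl | rfl <;> exact Nat.mod_lt _ hp0
  have hZ0 : ∀ a ∈ range p, a ∉ R → Z a = 0 := by
    intro a ha haR
    rw [hZ]
    refine sum_eq_zero fun n hn => ?_
    exfalso
    rw [mem_filter] at hn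
    have h1 : a = a1 % p ∨ a = a2 % p := by
      by_contra h
      push Not at h
      apply haR
      rw [hR, mem_sdiff, mem_insert, mem_singleton]
      exact ⟨ha, fun h' => h'.elim h.1 h.2⟩
    rcases h1 with h1 | h1
    · exact (hA n hn.1).1 (by rw [Nat.ModEq, hn.2, h1])
    · exact (hA n hn.1).2 (by rw [Nat.ModEq, hn.2, h1])
  have hsumR : ∑ a ∈ range p, Z a = ∑ a ∈ R, Z a :=
    (sum_subset sdiff_subset hZ0).symm
  have hCS : ‖∑ n ∈ A, c n‖ ^ 2 ≤ ((p : ℝ) - 2) * ∑ a ∈ range p, ‖Z a‖ ^ 2 := by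
    rw [hsum, hsumR]
    calc ‖∑ a ∈ R, Z a‖ ^ 2 ≤ (∑ a ∈ R, ‖Z a‖) ^ 2 := by
          gcongr
          exact norm_sum_le _ _
      _ ≤ #R * ∑ a ∈ R, ‖Z a‖ ^ 2 := sq_sum_le_card_mul_sum_sq
      _ = ((p : ℝ) - 2) * ∑ a ∈ R, ‖Z a‖ ^ 2 := by
          rw [hcard, Nat.cast_sub (by omega)]
          norm_num
      _ ≤ ((p : ℝ) - 2) * ∑ a ∈ range p, ‖Z a‖ ^ 2 := by
          apply mul_le_mul_of_nonneg_left _ (by linarith)
          exact sum_le_sum_of_subset_of_nonneg sdiff_subset (fun _ _ _ => by positivity)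
  have h0 : ∑ b ∈ range p, ‖LSArith_S A c ((b : ℝ) / p)‖ ^ 2 =
      ∑ b ∈ LSArith_T p, ‖LSArith_S A c ((b : ℝ) / p)‖ ^ 2 + ‖∑ n ∈ A, c n‖ ^ 2 := by
    rw [hT, ← sum_erase_add _ _ (mem_range.2 hp0)]
    congr 2
    rw [Nat.cast_zero, zero_div, LSArith_S_zero]
  have h1 : ∑ b ∈ range p, ‖LSArith_S A c ((b : ℝ) / p)‖ ^ 2 = p * ∑ a ∈ range p, ‖Z a‖ ^ 2 := by
    rw [← hpar]
    exact sum_congr rfl fun b _ => by rw [hS b]
  rw [h1] at h0
  have h2 : ∑ b ∈ LSArith_T p, ‖LSArith_S A c ((b : ℝ) / p)‖ ^ 2 =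
      p * ∑ a ∈ range p, ‖Z a‖ ^ 2 - ‖∑ n ∈ A, c n‖ ^ 2 := by linarith
  rw [h2, div_mul_eq_mul_div, div_le_iff₀ (by linarith)]
  nlinarith

/-- the Chinese remainder theorem for reduced fractions -/
theorem LSArith_crt {p q : ℕ} (hpq : p.Coprime q) (hp : 0 < p) (hq : 0 < q) (F : ℝ → ℝ)
    (h0 : ∀ α, 0 ≤ F α) (hper : ∀ (α : ℝ) (k : ℕ), F (α + k) = F α) :
    ∑ b ∈ LSArith_T p, ∑ b' ∈ LSArith_T q, F ((b : ℝ) / p + (b' : ℝ) / q) ≤
      ∑ b ∈ LSArith_T (p * q), F ((b : ℝ) / (p * q : ℕ)) := by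
  have hN : 0 < p * q := Nat.mul_pos hp hq
  set f : ℕ × ℕ → ℕ := fun x => (x.1 * q + x.2 * p) % (p * q) with hf
  have hpR : (p : ℝ) ≠ 0 := by exact_mod_cast hp.ne'
  have hqR : (q : ℝ) ≠ 0 := by exact_mod_cast hq.ne'
  have hF : ∀ x : ℕ × ℕ, F ((x.1 : ℝ) / p + (x.2 : ℝ) / q) = F ((f x : ℝ) / (p * q : ℕ)) := by
    intro x
    rw [← hper ((f x : ℝ) / (p * q : ℕ)) ((x.1 * q + x.2 * p) / (p * q))]
    congr 1
    have h1 : ((p * q : ℕ) : ℝ) * (((x.1 * q + x.2 * p) / (p * q) : ℕ) : ℝ) + (f x : ℝ) =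
        x.1 * q + x.2 * p := by
      have h2 := Nat.div_add_mod (x.1 * q + x.2 * p) (p * q)
      rw [hf]
      exact_mod_cast h2
    have hpqR : ((p * q : ℕ) : ℝ) ≠ 0 := by exact_mod_cast hN.ne'
    have h3 : (f x : ℝ) / (p * q : ℕ) + (((x.1 * q + x.2 * p) / (p * q) : ℕ) : ℝ) =
        ((x.1 : ℝ) * q + x.2 * p) / (p * q : ℕ) := by
      rw [← h1]
      field_simp
      ring
    rw [h3]
    push_cast
    field_simp
  have hinj : Set.InjOn f (LSArith_T p ×ˢ LSArith_T q : Finset (ℕ × ℕ)) := by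
    rintro ⟨a, b⟩ hx ⟨a', b'⟩ hx' hxx
    rw [mem_coe, mem_product, LSArith_mem_T, LSArith_mem_T] at hx hx'
    simp only at hx hx'
    have h1 : a * q + b * p ≡ a' * q + b' * p [MOD p * q] := hxx
    have h2 : a * q ≡ a' * q [MOD p] := by
      have h3 := Nat.ModEq.of_mul_right q h1
      have h4 : a * q + b * p ≡ a * q [MOD p] := by
        simp
      have h5 : a' * q + b' * p ≡ a' * q [MOD p] := by
        simp
      exact h4.symm.trans (h3.trans h5)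
    have h2' : b * p ≡ b' * p [MOD q] := by
      have h3 := Nat.ModEq.of_mul_left p h1
      have h4 : a * q + b * p ≡ b * p [MOD q] := by
        simp
      have h5 : a' * q + b' * p ≡ b' * p [MOD q] := by
        simp
      exact h4.symm.trans (h3.trans h5)
    have h6 : a ≡ a' [MOD p] := Nat.ModEq.cancel_right_of_coprime (by rwa [Nat.coprime_iff_gcd_eq_one] at hpq) h2
    have h7 : b ≡ b' [MOD q] := Nat.ModEq.cancel_right_of_coprime
      (by rw [Nat.gcd_comm]; rwa [Nat.coprime_iff_gcd_eq_one] at hpq) h2'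
    have h8 := Nat.ModEq.eq_of_lt_of_lt h6 hx.1.1 hx'.1.1
    have h9 := Nat.ModEq.eq_of_lt_of_lt h7 hx.2.1 hx'.2.1
    rw [h8, h9]
  have himg : (LSArith_T p ×ˢ LSArith_T q).image f ⊆ LSArith_T (p * q) := by
    intro y hy
    rw [mem_image] at hy
    obtain ⟨⟨a, b⟩, hx, rfl⟩ := hy
    rw [mem_product, LSArith_mem_T, LSArith_mem_T] at hx
    simp only at hx
    rw [LSArith_mem_T]
    refine ⟨Nat.mod_lt _ hN, ?_⟩
    rw [hf]
    simp only
    have h1 : Nat.Coprime (a * q + b * p) (p * q) := by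
      refine Nat.Coprime.mul_right ?_ ?_
      · rw [Nat.coprime_add_mul_right_left]
        exact Nat.Coprime.mul_left hx.1.2 hpq.symm
      · rw [add_comm, Nat.coprime_add_mul_right_left]
        exact Nat.Coprime.mul_left hx.2.2 hpq
    have h2 := (Nat.mod_modEq (a * q + b * p) (p * q)).gcd_eq
    rw [Nat.Coprime, h2]
    exact h1
  calc ∑ b ∈ LSArith_T p, ∑ b' ∈ LSArith_T q, F ((b : ℝ) / p + (b' : ℝ) / q)
      = ∑ x ∈ LSArith_T p ×ˢ LSArith_T q, F ((f x : ℝ) / (p * q : ℕ)) := by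
        rw [sum_product]
        exact sum_congr rfl fun a _ => sum_congr rfl fun b _ => hF (a, b)
    _ = ∑ b ∈ (LSArith_T p ×ˢ LSArith_T q).image f, F ((b : ℝ) / (p * q : ℕ)) :=
        (sum_image (f := fun b : ℕ => F ((b : ℝ) / (p * q : ℕ))) hinj).symm
    _ ≤ _ := sum_le_sum_of_subset_of_nonneg himg fun _ _ _ => h0 _

/-- the inequality for one modulus -/
theorem LSArith_claim (A : Finset ℕ) (q : ℕ) : Squarefree q →
    (∀ p : ℕ, p.Prime → p ∣ q → 3 ≤ p ∧ ∃ a1 a2 : ℕ, ¬ a1 ≡ a2 [MOD p] ∧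
      ∀ n ∈ A, ¬ n ≡ a1 [MOD p] ∧ ¬ n ≡ a2 [MOD p]) → ∀ c : ℕ → ℂ,
    (∏ p ∈ q.primeFactors, (2 / ((p : ℝ) - 2))) * ‖∑ n ∈ A, c n‖ ^ 2 ≤
      ∑ b ∈ LSArith_T q, ‖LSArith_S A c ((b : ℝ) / q)‖ ^ 2 := by
  induction q using Nat.recOnPosPrimePosCoprime with
  | prime_pow p n hp hn =>
    intro hsq hpr c
    have hn1 : n = 1 := by
      have h := (Nat.squarefree_pow_iff hp.ne_one hn.ne').1 hsq
      exact h.2
    subst hn1
    rw [pow_one] at hpr ⊢
    obtain ⟨h3, a1, a2, h4, h5⟩ := hpr p hp dvd_rfl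
    rw [hp.primeFactors, prod_singleton]
    exact LSArith_prime hp h3 A h4 h5 c
  | zero =>
    intro hsq
    exact absurd hsq not_squarefree_zero
  | one =>
    intro _ _ c
    have hT : LSArith_T 1 = {0} := by
      ext b
      rw [LSArith_mem_T, mem_singleton]
      constructor
      · rintro ⟨h, _⟩
        omega
      · rintro rfl
        exact ⟨by norm_num, by norm_num⟩
    rw [hT, sum_singleton, Nat.primeFactors_one, prod_empty, one_mul, Nat.cast_zero, zero_div,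
      LSArith_S_zero]
  | coprime a b ha hb hab iha ihb =>
    intro hsq hpr c
    have hsa : Squarefree a := hsq.squarefree_of_dvd (dvd_mul_right a b)
    have hsb : Squarefree b := hsq.squarefree_of_dvd (dvd_mul_left b a)
    have h1 := iha hsa (fun p hp hpa => hpr p hp (hpa.mul_right b))
    have h2 := ihb hsb (fun p hp hpb => hpr p hp (hpb.mul_left a))
    have hprod : ∏ p ∈ (a * b).primeFactors, (2 / ((p : ℝ) - 2)) =
        (∏ p ∈ b.primeFactors, (2 / ((p : ℝ) - 2))) * ∏ p ∈ a.primeFactors, (2 / ((p : ℝ) - 2)) := by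
      rw [hab.primeFactors_mul, prod_union hab.disjoint_primeFactors, mul_comm]
    have hb0 : 0 ≤ ∏ p ∈ b.primeFactors, (2 / ((p : ℝ) - 2)) := by
      refine prod_nonneg fun p hp => ?_
      have h3 := (hpr p (Nat.prime_of_mem_primeFactors hp)
        ((Nat.dvd_of_mem_primeFactors hp).mul_left a)).1
      have h4 : (3 : ℝ) ≤ p := by exact_mod_cast h3
      exact div_nonneg (by norm_num) (by linarith)
    calc (∏ p ∈ (a * b).primeFactors, (2 / ((p : ℝ) - 2))) * ‖∑ n ∈ A, c n‖ ^ 2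
        = (∏ p ∈ b.primeFactors, (2 / ((p : ℝ) - 2))) *
            ((∏ p ∈ a.primeFactors, (2 / ((p : ℝ) - 2))) * ‖∑ n ∈ A, c n‖ ^ 2) := by
          rw [hprod]
          ring
      _ ≤ (∏ p ∈ b.primeFactors, (2 / ((p : ℝ) - 2))) *
            ∑ x ∈ LSArith_T a, ‖LSArith_S A c ((x : ℝ) / a)‖ ^ 2 :=
          mul_le_mul_of_nonneg_left (h1 c) hb0
      _ = ∑ x ∈ LSArith_T a, (∏ p ∈ b.primeFactors, (2 / ((p : ℝ) - 2))) *
            ‖∑ n ∈ A, c n * LSArith_e ((x : ℝ) / a) n‖ ^ 2 := by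
          rw [mul_sum]
          rfl
      _ ≤ ∑ x ∈ LSArith_T a, ∑ y ∈ LSArith_T b,
            ‖LSArith_S A (fun n => c n * LSArith_e ((x : ℝ) / a) n) ((y : ℝ) / b)‖ ^ 2 :=
          sum_le_sum fun x _ => h2 _
      _ = ∑ x ∈ LSArith_T a, ∑ y ∈ LSArith_T b,
            ‖LSArith_S A c ((x : ℝ) / a + (y : ℝ) / b)‖ ^ 2 := by
          simp only [LSArith_S_add]
      _ ≤ ∑ x ∈ LSArith_T (a * b), ‖LSArith_S A c ((x : ℝ) / (a * b : ℕ))‖ ^ 2 :=
          LSArith_crt hab (by omega) (by omega) (fun α => ‖LSArith_S A c α‖ ^ 2)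
            (fun _ => by positivity) (fun α k => by simp only [LSArith_S_add_nat])

/-- the large sieve for the reduced fractions of denominator at least two -/
theorem LSArith_points {Q : ℕ} (hQ : 1 ≤ Q) (M : ℕ) (A : Finset ℕ) (hA : A ⊆ Icc 1 M) :
    ∑ q ∈ Icc 2 Q, ∑ b ∈ LSArith_T q, ‖LSArith_S A (fun _ => 1) ((b : ℝ) / q)‖ ^ 2 ≤
      ((Q : ℝ) ^ 2 + 2 * Real.pi * M) * #A := by
  classical
  have hQR : (1 : ℝ) ≤ Q := by exact_mod_cast hQ
  set X : Finset (Σ _ : ℕ, ℕ) := (Icc 2 Q).sigma LSArith_T with hX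
  have hmem : ∀ x ∈ X, 2 ≤ x.1 ∧ x.1 ≤ Q ∧ x.2 < x.1 ∧ x.2.Coprime x.1 ∧ 1 ≤ x.2 := by
    intro x hx
    rw [hX, mem_sigma, mem_Icc, LSArith_mem_T] at hx
    refine ⟨hx.1.1, hx.1.2, hx.2.1, hx.2.2, ?_⟩
    rcases Nat.eq_zero_or_pos x.2 with h | h
    · have h1 := hx.2.2
      rw [h, Nat.coprime_zero_left] at h1
      omega
    · exact h
  have hgap : ∀ x ∈ X, ∀ y ∈ X, (x.2 : ℝ) / x.1 ≠ (y.2 : ℝ) / y.1 →
      1 / (Q : ℝ) ^ 2 ≤ |(x.2 : ℝ) / x.1 - (y.2 : ℝ) / y.1| := by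
    intro x hx y hy hne
    obtain ⟨h1, h2, -⟩ := hmem x hx
    obtain ⟨h1', h2', -⟩ := hmem y hy
    have hx0 : (0 : ℝ) < x.1 := by exact_mod_cast (by omega : 0 < x.1)
    have hy0 : (0 : ℝ) < y.1 := by exact_mod_cast (by omega : 0 < y.1)
    have e1 : (x.2 : ℝ) / x.1 - (y.2 : ℝ) / y.1 =
        (((x.2 : ℤ) * y.1 - y.2 * x.1 : ℤ) : ℝ) / (x.1 * y.1) := by
      push_cast
      field_simp
    have hne0 : ((x.2 : ℤ) * y.1 - y.2 * x.1 : ℤ) ≠ 0 := by
      intro h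
      rw [h, Int.cast_zero, zero_div] at e1
      exact hne (sub_eq_zero.1 e1)
    have habs : (1 : ℝ) ≤ |(((x.2 : ℤ) * y.1 - y.2 * x.1 : ℤ) : ℝ)| := by
      rw [← Int.cast_abs]
      exact_mod_cast Int.one_le_abs hne0
    rw [e1, abs_div, abs_of_pos (mul_pos hx0 hy0), div_le_div_iff₀ (by positivity) (by positivity)]
    have hxQ : (x.1 : ℝ) ≤ Q := by exact_mod_cast h2
    have hyQ : (y.1 : ℝ) ≤ Q := by exact_mod_cast h2'
    calc 1 * ((x.1 : ℝ) * y.1) ≤ 1 * ((Q : ℝ) * Q) := by gcongr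
      _ = 1 * (Q : ℝ) ^ 2 := by ring
      _ ≤ _ := by gcongr
  have hinj : Set.InjOn (fun x : Σ _ : ℕ, ℕ => (x.2 : ℝ) / x.1) X := by
    intro x hx y hy hxy
    simp only at hxy
    obtain ⟨h1, h2, h3, h4, h5⟩ := hmem x hx
    obtain ⟨h1', h2', h3', h4', h5'⟩ := hmem y hy
    have hx0 : (x.1 : ℝ) ≠ 0 := by exact_mod_cast (by omega : x.1 ≠ 0)
    have hy0 : (y.1 : ℝ) ≠ 0 := by exact_mod_cast (by omega : y.1 ≠ 0)
    rw [div_eq_div_iff hx0 hy0] at hxy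
    have h6 : x.2 * y.1 = y.2 * x.1 := by exact_mod_cast hxy
    have h7 : x.1 ∣ y.1 := h4.symm.dvd_of_dvd_mul_left ⟨y.2, by rw [h6, mul_comm]⟩
    have h8 : y.1 ∣ x.1 := h4'.symm.dvd_of_dvd_mul_left ⟨x.2, by rw [← h6, mul_comm]⟩
    have h9 : x.1 = y.1 := Nat.dvd_antisymm h7 h8
    rw [h9] at h6
    have h10 : x.2 = y.2 := Nat.eq_of_mul_eq_mul_right (by omega) h6
    exact Sigma.ext h9 (heq_of_eq h10)
  have hmain := Pool.Agent.M848.ls_points M (fun n => if n ∈ A then (1 : ℂ) else 0)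
    (1 / (Q : ℝ) ^ 2) (by positivity) (X.image fun x : Σ _ : ℕ, ℕ => (x.2 : ℝ) / x.1) (by
      intro α hα
      rw [mem_image] at hα
      obtain ⟨x, hx, rfl⟩ := hα
      obtain ⟨h1, h2, h3, h4, h5⟩ := hmem x hx
      have hx0 : (0 : ℝ) < x.1 := by exact_mod_cast (by omega : 0 < x.1)
      have hxQ : (x.1 : ℝ) ≤ Q := by exact_mod_cast h2
      have hd : 1 / (Q : ℝ) ^ 2 / 2 ≤ 1 / x.1 := by
        rw [div_div, div_le_div_iff₀ (by positivity) hx0]
        nlinarith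
      constructor
      · refine hd.trans ?_
        gcongr
        exact_mod_cast h5
      · have h6 : (x.2 : ℝ) / x.1 ≤ 1 - 1 / x.1 := by
          rw [div_le_iff₀ hx0, sub_mul, one_mul, div_mul_cancel₀ _ hx0.ne']
          have h7 : x.2 + 1 ≤ x.1 := h3
          have h8 : (x.2 : ℝ) + 1 ≤ x.1 := by exact_mod_cast h7
          linarith
        linarith) (by
      intro α hα β hβ hne
      rw [mem_image] at hα hβ
      obtain ⟨x, hx, rfl⟩ := hα
      obtain ⟨y, hy, rfl⟩ := hβ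
      exact hgap x hx y hy hne)
  have hS : ∀ α : ℝ, ∑ n ∈ Icc 1 M, (if n ∈ A then (1 : ℂ) else 0) *
      Complex.exp (2 * Real.pi * Complex.I * (n * (α : ℝ))) = LSArith_S A (fun _ => 1) α := by
    intro α
    unfold LSArith_S LSArith_e
    rw [← sum_subset hA]
    · exact sum_congr rfl fun n hn => by rw [if_pos hn]
    · intro n _ hn
      rw [if_neg hn, zero_mul]
  have hnorm : ∑ n ∈ Icc 1 M, ‖(if n ∈ A then (1 : ℂ) else 0)‖ ^ 2 = #A := by
    rw [← sum_subset hA]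
    · rw [card_eq_sum_ones, Nat.cast_sum]
      exact sum_congr rfl fun n hn => by rw [if_pos hn]; simp
    · intro n _ hn
      rw [if_neg hn]
      simp
  rw [hnorm, sum_image hinj] at hmain
  simp only [hS] at hmain
  rw [hX, sum_sigma] at hmain
  simpa only [one_div, inv_inv] using hmain

theorem ls_arith {M Q E : ℕ} (hE : 2 ∣ E) (A : Finset ℕ) (hA : A ⊆ Icc 1 M) (c d : ℕ → ℕ)
    (hc : ∀ p : ℕ, p.Prime → p ≤ Q → ¬ p ∣ E → ¬ c p ≡ d p [MOD p] ∧
      ∀ n ∈ A, ¬ n ≡ c p [MOD p] ∧ ¬ n ≡ d p [MOD p]) :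
    (#A : ℝ) * ∑ q ∈ Icc 1 Q with Squarefree q ∧ q.Coprime E,
      ∏ p ∈ q.primeFactors, (2 / ((p : ℝ) - 2)) ≤ Q ^ 2 + 8 * M := by
  classical
  rcases Nat.eq_zero_or_pos Q with hQ | hQ
  · subst hQ
    simp
  rcases Nat.eq_zero_or_pos #A with hA0 | hA0
  · rw [hA0]
    simp only [Nat.cast_zero, zero_mul]
    positivity
  have hAR : (0 : ℝ) < #A := by exact_mod_cast hA0
  have hAM : (#A : ℝ) ≤ M := by
    have h := card_le_card hA
    rw [Nat.card_Icc, Nat.add_sub_cancel] at h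
    exact_mod_cast h
  have hone : ‖∑ n ∈ A, (1 : ℂ)‖ = #A := by simp
  have hq : ∀ q ∈ Icc 1 Q, Squarefree q ∧ q.Coprime E →
      (∏ p ∈ q.primeFactors, (2 / ((p : ℝ) - 2))) * (#A : ℝ) ^ 2 ≤
        ∑ b ∈ LSArith_T q, ‖LSArith_S A (fun _ => 1) ((b : ℝ) / q)‖ ^ 2 := by
    rintro q hq ⟨hsq, hco⟩
    rw [mem_Icc] at hq
    have h := LSArith_claim A q hsq (by
      intro p hp hpq
      have hpE : ¬ p ∣ E := by
        intro h
        exact hp.one_lt.ne' (Nat.dvd_one.1 (hco ▸ Nat.dvd_gcd hpq h))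
      have hp2 : p ≠ 2 := by
        rintro rfl
        exact hpE hE
      have hp3 : 3 ≤ p := by
        have := hp.two_le
        omega
      obtain ⟨h1, h2⟩ := hc p hp ((Nat.le_of_dvd (by omega) hpq).trans hq.2) hpE
      exact ⟨hp3, c p, d p, h1, h2⟩) (fun _ => 1)
    rw [hone] at h
    exact h
  have hsum : (#A : ℝ) ^ 2 * ∑ q ∈ Icc 1 Q with Squarefree q ∧ q.Coprime E,
      ∏ p ∈ q.primeFactors, (2 / ((p : ℝ) - 2)) ≤
      ∑ q ∈ Icc 1 Q, ∑ b ∈ LSArith_T q, ‖LSArith_S A (fun _ => 1) ((b : ℝ) / q)‖ ^ 2 := by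
    rw [mul_sum]
    refine le_trans (sum_le_sum fun q hq' => ?_) (sum_le_sum_of_subset_of_nonneg
      (filter_subset _ _) fun _ _ _ => sum_nonneg fun _ _ => by positivity)
    rw [mem_filter] at hq'
    rw [mul_comm]
    exact hq q hq'.1 hq'.2
  have hsplit : ∑ q ∈ Icc 1 Q, ∑ b ∈ LSArith_T q,
      ‖LSArith_S A (fun _ => 1) ((b : ℝ) / q)‖ ^ 2 =
      (#A : ℝ) ^ 2 + ∑ q ∈ Icc 2 Q, ∑ b ∈ LSArith_T q,
        ‖LSArith_S A (fun _ => 1) ((b : ℝ) / q)‖ ^ 2 := by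
    have hT : LSArith_T 1 = {0} := by
      ext b
      rw [LSArith_mem_T, mem_singleton]
      constructor
      · rintro ⟨h, _⟩
        omega
      · rintro rfl
        exact ⟨by norm_num, by norm_num⟩
    have h1 : Icc 1 Q = insert 1 (Icc 2 Q) := by
      ext x
      rw [mem_insert, mem_Icc, mem_Icc]
      omega
    rw [h1, sum_insert (by simp), hT, sum_singleton, Nat.cast_zero, zero_div, LSArith_S_zero, hone]
  rw [hsplit] at hsum
  have hpts := LSArith_points hQ M A hA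
  have hpi : Real.pi ≤ 3.15 := Real.pi_lt_d2.le
  have hfin : (#A : ℝ) * ((#A : ℝ) * ∑ q ∈ Icc 1 Q with Squarefree q ∧ q.Coprime E,
      ∏ p ∈ q.primeFactors, (2 / ((p : ℝ) - 2))) ≤ #A * ((Q : ℝ) ^ 2 + 8 * M) := by
    have hM : (0 : ℝ) ≤ M := Nat.cast_nonneg M
    calc (#A : ℝ) * ((#A : ℝ) * ∑ q ∈ Icc 1 Q with Squarefree q ∧ q.Coprime E,
          ∏ p ∈ q.primeFactors, (2 / ((p : ℝ) - 2)))
        = (#A : ℝ) ^ 2 * ∑ q ∈ Icc 1 Q with Squarefree q ∧ q.Coprime E,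
          ∏ p ∈ q.primeFactors, (2 / ((p : ℝ) - 2)) := by ring
      _ ≤ (#A : ℝ) ^ 2 + ((Q : ℝ) ^ 2 + 2 * Real.pi * M) * #A := by linarith
      _ = #A * (#A + ((Q : ℝ) ^ 2 + 2 * Real.pi * M)) := by ring
      _ ≤ #A * ((Q : ℝ) ^ 2 + 8 * M) := by
          apply mul_le_mul_of_nonneg_left _ hAR.le
          nlinarith
  exact le_of_mul_le_mul_left hfin hAR

end

end Pool.Agent.ADS
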