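import Pool.Agent.Lib.MP_cfcc59_co.ADS.Defs

/-!
# MP_cfcc59_co, project ADS, module CaseA
-/

namespace Pool.Agent.ADS

open Finset

/-- numbers up to `N` in one residue class -/
lemma caseA_class {N M : ℕ} (_hM : 0 < M) (s : Finset ℕ) (hs : ∀ n ∈ s, n ≤ N)
    (hmod : ∀ a ∈ s, ∀ b ∈ s, a ≡ b [MOD M]) : (#s : ℝ) ≤ N / M + 1 := by
  have h1 : #s ≤ #(range (N / M + 1)) := by
    refine card_le_card_of_injOn (fun n => n / M) ?_ ?_
    · intro n hn
      have := Nat.div_le_div_right (c := M) (hs n (mem_coe.1 hn))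
      exact mem_coe.2 (mem_range.2 (Nat.lt_succ_of_le this))
    · intro a ha b hb hab
      have h2 : a % M = b % M := hmod a (mem_coe.1 ha) b (mem_coe.1 hb)
      have h3 : a / M = b / M := hab
      rw [← Nat.div_add_mod a M, ← Nat.div_add_mod b M, h2, h3]
  rw [card_range] at h1
  have h4 : ((N / M : ℕ) : ℝ) ≤ N / M := Nat.cast_div_le
  have h5 : (#s : ℝ) ≤ ((N / M + 1 : ℕ) : ℝ) := by exact_mod_cast h1
  push_cast at h5
  linarith

open Classical in
/-- the numbers attached to one pair `(u, v)` -/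
noncomputable def caseA_set (N l u v : ℕ) : Finset ℕ :=
  (Icc 2 N).filter fun n => (l * u + 1).Prime ∧ (l * v + 1).Prime ∧ l * u + 1 ∣ n - 1 ∧
    l * v + 1 ∣ n + 1 ∧ (((l * u + 1 : ℕ) : ℝ) * ((l * v + 1 : ℕ) : ℝ) ≤ N * Real.sqrt l)

lemma caseA_card {N l u v : ℕ} (hl2 : 3 ≤ l) (hu : 1 ≤ u) (hv : 1 ≤ v) :
    (#(caseA_set N l u v) : ℝ) ≤ 2 * N * Real.sqrt l / ((l * u) * (l * v)) := by
  have hl0 : (0 : ℝ) < l := by exact_mod_cast (by omega : 0 < l)
  have hu0 : (0 : ℝ) < u := by exact_mod_cast (by omega : 0 < u)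
  have hv0 : (0 : ℝ) < v := by exact_mod_cast (by omega : 0 < v)
  have hs1 : 1 ≤ Real.sqrt l := by
    rw [Real.one_le_sqrt]
    exact_mod_cast (by omega : 1 ≤ l)
  rcases (caseA_set N l u v).eq_empty_or_nonempty with he | ⟨n0, hn0⟩
  · rw [he]
    simp only [card_empty, Nat.cast_zero]
    positivity
  · set w := l * u + 1 with hw
    set r := l * v + 1 with hr
    have hmem : ∀ n ∈ caseA_set N l u v, (2 ≤ n ∧ n ≤ N) ∧ w.Prime ∧ r.Prime ∧ w ∣ n - 1 ∧
        r ∣ n + 1 ∧ ((w : ℝ) * (r : ℝ) ≤ N * Real.sqrt l) := by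
      intro n hn
      have := mem_filter.1 hn
      exact ⟨mem_Icc.1 this.1, this.2⟩
    obtain ⟨h02, hwp, hrp, h0w, h0r, hle⟩ := hmem n0 hn0
    have hl1 : l ≤ l * u := Nat.le_mul_of_pos_right l hu
    have hw3 : 3 < w := by omega
    have hne : w ≠ r := by
      intro h
      rw [← h] at h0r
      have h2 : w ∣ (n0 + 1) - (n0 - 1) := Nat.dvd_sub h0r h0w
      have h3 : (n0 + 1) - (n0 - 1) = 2 := by omega
      rw [h3] at h2
      have := Nat.le_of_dvd (by norm_num) h2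
      omega
    have hcop : Nat.Coprime w r := (Nat.coprime_primes hwp hrp).2 hne
    have hw0 : (0 : ℝ) < w := by exact_mod_cast hwp.pos
    have hr0 : (0 : ℝ) < r := by exact_mod_cast hrp.pos
    have h1 := caseA_class (N := N) (M := w * r) (Nat.mul_pos hwp.pos hrp.pos)
      (caseA_set N l u v) (fun n hn => (hmem n hn).1.2) (by
        intro a ha b hb
        obtain ⟨ha2, -, -, haw, har, -⟩ := hmem a ha
        obtain ⟨hb2, -, -, hbw, hbr, -⟩ := hmem b hb
        refine (Nat.modEq_and_modEq_iff_modEq_mul hcop).1 ⟨?_, ?_⟩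
        · have h2 : a - 1 ≡ b - 1 [MOD w] :=
            ((Nat.modEq_zero_iff_dvd.2 haw).trans (Nat.modEq_zero_iff_dvd.2 hbw).symm)
          have h3 := h2.add_right 1
          rwa [show a - 1 + 1 = a by omega, show b - 1 + 1 = b by omega] at h3
        · have h2 : a + 1 ≡ b + 1 [MOD r] :=
            ((Nat.modEq_zero_iff_dvd.2 har).trans (Nat.modEq_zero_iff_dvd.2 hbr).symm)
          exact Nat.ModEq.add_right_cancel' 1 h2)
    push_cast at h1
    have hwr : (0 : ℝ) < w * r := by positivity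
    have h2 : (1 : ℝ) ≤ N * Real.sqrt l / (w * r) := by
      rw [le_div_iff₀ hwr, one_mul]
      exact hle
    have h3 : (N : ℝ) / (w * r) ≤ N * Real.sqrt l / (w * r) := by
      apply div_le_div_of_nonneg_right _ hwr.le
      have : (0 : ℝ) ≤ N := Nat.cast_nonneg N
      nlinarith
    have h4 : ((l : ℝ) * u) * (l * v) ≤ w * r := by
      have e1 : (w : ℝ) = l * u + 1 := by rw [hw]; push_cast; ring
      have e2 : (r : ℝ) = l * v + 1 := by rw [hr]; push_cast; ring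
      rw [e1, e2]
      have : 0 < (l : ℝ) * u := by positivity
      have : 0 < (l : ℝ) * v := by positivity
      nlinarith
    have h5 : 2 * N * Real.sqrt l / (w * r) ≤ 2 * N * Real.sqrt l / ((l * u) * (l * v)) :=
      div_le_div_of_nonneg_left (by positivity) (by positivity) h4
    have h6 : 2 * N * Real.sqrt l / (w * r) =
        N * Real.sqrt l / (w * r) + N * Real.sqrt l / (w * r) := by ring
    linarith

open Classical in
theorem case_a {N l : ℕ} (hN : 2 ≤ N) (hl : l.Prime) (hl2 : 3 ≤ l) :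
    (#{n ∈ Icc 2 N | ∃ w r : ℕ, w.Prime ∧ r.Prime ∧ l ∣ w - 1 ∧ l ∣ r - 1 ∧ w ∣ n - 1 ∧
        r ∣ n + 1 ∧ (w * r : ℝ) ≤ N * Real.sqrt l} : ℝ) ≤
      2 * N * (1 + Real.log N) ^ 2 / (l * Real.sqrt l) := by
  have hl0 : (0 : ℝ) < l := by exact_mod_cast hl.pos
  have hs0 : 0 < Real.sqrt l := Real.sqrt_pos.2 hl0
  have hsub : {n ∈ Icc 2 N | ∃ w r : ℕ, w.Prime ∧ r.Prime ∧ l ∣ w - 1 ∧ l ∣ r - 1 ∧ w ∣ n - 1 ∧
        r ∣ n + 1 ∧ (w * r : ℝ) ≤ N * Real.sqrt l} ⊆
      (Icc 1 N).biUnion fun u => (Icc 1 N).biUnion fun v => caseA_set N l u v := by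
    intro n hn
    obtain ⟨hn2, w, r, hwp, hrp, hlw, hlr, hwn, hrn, hle⟩ := mem_filter.1 hn
    have hnI := mem_Icc.1 hn2
    obtain ⟨u, hu⟩ := hlw
    obtain ⟨v, hv⟩ := hlr
    have hw2 := hwp.two_le
    have hr2 := hrp.two_le
    have ew : w = l * u + 1 := by omega
    have er : r = l * v + 1 := by omega
    have hu1 : 1 ≤ u := by
      rcases Nat.eq_zero_or_pos u with h | h
      · rw [h] at hu; omega
      · exact h
    have hv1 : 1 ≤ v := by
      rcases Nat.eq_zero_or_pos v with h | h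
      · rw [h] at hv; omega
      · exact h
    have hwle : w ≤ n - 1 := Nat.le_of_dvd (by omega) hwn
    have hrle : r ≤ n + 1 := Nat.le_of_dvd (by omega) hrn
    have hu2 : u ≤ l * u := Nat.le_mul_of_pos_left u hl.pos
    have hv2 : v ≤ l * v := Nat.le_mul_of_pos_left v hl.pos
    refine mem_biUnion.2 ⟨u, mem_Icc.2 ⟨hu1, by omega⟩, mem_biUnion.2 ⟨v,
      mem_Icc.2 ⟨hv1, by omega⟩, mem_filter.2 ⟨hn2, ?_⟩⟩⟩
    rw [← ew, ← er]
    exact ⟨hwp, hrp, hwn, hrn, hle⟩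
  have h1 : (#{n ∈ Icc 2 N | ∃ w r : ℕ, w.Prime ∧ r.Prime ∧ l ∣ w - 1 ∧ l ∣ r - 1 ∧ w ∣ n - 1 ∧
        r ∣ n + 1 ∧ (w * r : ℝ) ≤ N * Real.sqrt l} : ℝ) ≤
      ∑ u ∈ Icc 1 N, ∑ v ∈ Icc 1 N, (#(caseA_set N l u v) : ℝ) := by
    have h2 := (card_le_card hsub).trans card_biUnion_le
    have h3 : (#{n ∈ Icc 2 N | ∃ w r : ℕ, w.Prime ∧ r.Prime ∧ l ∣ w - 1 ∧ l ∣ r - 1 ∧
        w ∣ n - 1 ∧ r ∣ n + 1 ∧ (w * r : ℝ) ≤ N * Real.sqrt l}) ≤
        ∑ u ∈ Icc 1 N, ∑ v ∈ Icc 1 N, #(caseA_set N l u v) :=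
      h2.trans (sum_le_sum fun u _ => card_biUnion_le)
    exact_mod_cast h3
  refine h1.trans ?_
  have hharm : ∑ u ∈ Icc 1 N, (1 : ℝ) / u ≤ 1 + Real.log N := by
    have h4 := harmonic_le_one_add_log N
    rw [harmonic_eq_sum_Icc] at h4
    push_cast at h4
    simpa [one_div] using h4
  have hharm0 : 0 ≤ ∑ u ∈ Icc 1 N, (1 : ℝ) / u := sum_nonneg fun u _ => by positivity
  calc ∑ u ∈ Icc 1 N, ∑ v ∈ Icc 1 N, (#(caseA_set N l u v) : ℝ)
      ≤ ∑ u ∈ Icc 1 N, ∑ v ∈ Icc 1 N, 2 * N * Real.sqrt l / ((l * u) * (l * v)) := by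
        refine sum_le_sum fun u hu => sum_le_sum fun v hv => ?_
        exact caseA_card hl2 (mem_Icc.1 hu).1 (mem_Icc.1 hv).1
    _ = (2 * N * Real.sqrt l / (l * l)) * ((∑ u ∈ Icc 1 N, (1 : ℝ) / u) *
          ∑ v ∈ Icc 1 N, (1 : ℝ) / v) := by
        rw [sum_mul_sum, mul_sum]
        refine sum_congr rfl fun u hu => ?_
        rw [mul_sum]
        refine sum_congr rfl fun v hv => ?_
        have hu0 : (u : ℝ) ≠ 0 := by
          have := (mem_Icc.1 hu).1
          exact_mod_cast (by omega : u ≠ 0)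
        have hv0 : (v : ℝ) ≠ 0 := by
          have := (mem_Icc.1 hv).1
          exact_mod_cast (by omega : v ≠ 0)
        field_simp
    _ ≤ (2 * N * Real.sqrt l / (l * l)) * ((1 + Real.log N) * (1 + Real.log N)) := by
        refine mul_le_mul_of_nonneg_left ?_ (by positivity)
        exact mul_le_mul hharm hharm hharm0 (hharm0.trans hharm)
    _ = 2 * N * (1 + Real.log N) ^ 2 / (l * Real.sqrt l) := by
        have h5 : Real.sqrt l * Real.sqrt l = l := Real.mul_self_sqrt hl0.le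
        rw [div_mul_eq_mul_div, div_eq_div_iff (by positivity) (by positivity)]
        linear_combination (2 * N * (1 + Real.log N) ^ 2 * l) * h5

end Pool.Agent.ADS
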