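import Pool.Agent.Lib.MP_cfcc59_co.ADS.Defs

/-!
# MP_cfcc59_co, project ADS: module CaseB
-/

set_option autoImplicit false

namespace Pool.Agent.ADS

open Finset

/-- the harmonic sum -/
private theorem caseB_harm (N : ℕ) : ∑ s ∈ Icc 1 N, (1 / (s : ℝ)) ≤ 1 + Real.log N := by
  have h := harmonic_le_one_add_log N
  have h2 : ((harmonic N : ℚ) : ℝ) = ∑ s ∈ Icc 1 N, (1 / (s : ℝ)) := by
    rw [harmonic_eq_sum_Icc]
    push_cast
    refine Finset.sum_congr rfl fun s _ => ?_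
    rw [one_div]
  rw [← h2]
  exact h

private theorem caseB_pairs (N : ℕ) (Z : ℝ) (hZ : 0 ≤ Z) :
    ((#{p ∈ Icc 1 N ×ˢ Icc 1 N | (p.1 * p.2 : ℝ) < Z} : ℕ) : ℝ) ≤ Z * (1 + Real.log N) := by
  have h1 : (#{p ∈ Icc 1 N ×ˢ Icc 1 N | (p.1 * p.2 : ℝ) < Z} : ℕ) =
      ∑ s ∈ Icc 1 N, #((Icc 1 N).filter fun k : ℕ => ((s : ℝ) * k) < Z) := by
    rw [Finset.card_filter, Finset.sum_product]
    refine Finset.sum_congr rfl fun s _ => ?_
    rw [Finset.card_filter]
  rw [h1]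
  push_cast
  calc ∑ s ∈ Icc 1 N, ((#((Icc 1 N).filter fun k : ℕ => ((s : ℝ) * k) < Z) : ℕ) : ℝ)
      ≤ ∑ s ∈ Icc 1 N, Z * (1 / (s : ℝ)) := by
        refine Finset.sum_le_sum fun s hs => ?_
        have hs1 : 1 ≤ s := (Finset.mem_Icc.1 hs).1
        have hs0 : (0 : ℝ) < s := by exact_mod_cast hs1
        have h2 : #((Icc 1 N).filter fun k : ℕ => ((s : ℝ) * k) < Z) ≤ ⌊Z / s⌋₊ := by
          have h3 : ((Icc 1 N).filter fun k : ℕ => ((s : ℝ) * k) < Z) ⊆ Icc 1 ⌊Z / s⌋₊ := by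
            intro k hk
            rw [Finset.mem_filter, Finset.mem_Icc] at hk
            rw [Finset.mem_Icc]
            refine ⟨hk.1.1, Nat.le_floor ?_⟩
            rw [le_div_iff₀ hs0]
            nlinarith [hk.2]
          have h4 := Finset.card_le_card h3
          simpa using h4
        calc ((#((Icc 1 N).filter fun k : ℕ => ((s : ℝ) * k) < Z) : ℕ) : ℝ) ≤ (⌊Z / s⌋₊ : ℝ) := by
              exact_mod_cast h2
          _ ≤ Z / s := Nat.floor_le (by positivity)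
          _ = Z * (1 / (s : ℝ)) := by ring
    _ = Z * ∑ s ∈ Icc 1 N, (1 / (s : ℝ)) := by rw [Finset.mul_sum]
    _ ≤ Z * (1 + Real.log N) := by
        exact mul_le_mul_of_nonneg_left (caseB_harm N) hZ

private theorem caseB_ap {N M n0 : ℕ} (S : Finset ℕ) (hS : S ⊆ Icc 2 N)
    (h : ∀ n ∈ S, n ≡ n0 [MOD M]) : #S ≤ N / M + 1 := by
  have h1 : Set.InjOn (fun n => n / M) (S : Set ℕ) := by
    intro a ha b hb hab
    have e1 : a % M = b % M := (h a ha).trans (h b hb).symm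
    have e2 : a / M = b / M := hab
    rw [← Nat.div_add_mod a M, ← Nat.div_add_mod b M, e1, e2]
  have h2 : ∀ n ∈ S, (fun n => n / M) n ∈ Finset.range (N / M + 1) := by
    intro n hn
    rw [Finset.mem_range]
    have := (Finset.mem_Icc.1 (hS hn)).2
    exact Nat.lt_succ_of_le (Nat.div_le_div_right this)
  calc #S ≤ #(Finset.range (N / M + 1)) := Finset.card_le_card_of_injOn _ h2 h1
    _ = N / M + 1 := Finset.card_range _

/-- the numbers `n` with cofactors `s` and `t` -/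
private def caseB_C (N l s t : ℕ) : Finset ℕ :=
  {n ∈ Icc 2 N | ((l * s : ℕ) : ℤ) ∣ (n : ℤ) - 1 - s ∧ ((l * t : ℕ) : ℤ) ∣ (n : ℤ) + 1 - t}

private theorem caseB_class {N l s t : ℕ} (hl : 1 ≤ l) (hs : 1 ≤ s) (ht : 1 ≤ t) :
    ((#(caseB_C N l s t) : ℕ) : ℝ) ≤ 2 * N / (l * (s * t)) + 1 := by
  rcases (caseB_C N l s t).eq_empty_or_nonempty with h | ⟨n0, hn0⟩
  · rw [h]
    simp only [Finset.card_empty, Nat.cast_zero]
    positivity
  have hn0' := hn0
  rw [caseB_C, Finset.mem_filter] at hn0'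
  obtain ⟨hI, hds, hdt⟩ := hn0'
  have hI2 := (Finset.mem_Icc.1 hI).1
  -- the gcd divides 2
  have hg : Nat.gcd s t ∣ 2 := by
    have e1 : (s : ℤ) ∣ (n0 : ℤ) - 1 := by
      have h1 : (s : ℤ) ∣ (n0 : ℤ) - 1 - s := (Dvd.intro_left (l : ℤ) (by push_cast; rfl)).trans hds
      have h2 := dvd_add h1 (dvd_refl (s : ℤ))
      simpa using h2
    have e2 : (t : ℤ) ∣ (n0 : ℤ) + 1 := by
      have h1 : (t : ℤ) ∣ (n0 : ℤ) + 1 - t := (Dvd.intro_left (l : ℤ) (by push_cast; rfl)).trans hdt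
      have h2 := dvd_add h1 (dvd_refl (t : ℤ))
      simpa using h2
    have g1 : ((Nat.gcd s t : ℕ) : ℤ) ∣ (n0 : ℤ) - 1 :=
      (Int.natCast_dvd_natCast.2 (Nat.gcd_dvd_left s t)).trans e1
    have g2 : ((Nat.gcd s t : ℕ) : ℤ) ∣ (n0 : ℤ) + 1 :=
      (Int.natCast_dvd_natCast.2 (Nat.gcd_dvd_right s t)).trans e2
    have g3 := dvd_sub g2 g1
    have g4 : ((n0 : ℤ) + 1) - ((n0 : ℤ) - 1) = ((2 : ℕ) : ℤ) := by push_cast; ring
    rw [g4] at g3
    exact Int.natCast_dvd_natCast.1 g3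
  have hg2 : Nat.gcd s t ≤ 2 := Nat.le_of_dvd (by norm_num) hg
  set M := Nat.lcm (l * s) (l * t) with hM
  have hMpos : 0 < M := Nat.lcm_pos (by positivity) (by positivity)
  have hcard : #(caseB_C N l s t) ≤ N / M + 1 := by
    refine caseB_ap (n0 := n0) _ (Finset.filter_subset _ _) ?_
    intro n hn
    rw [caseB_C, Finset.mem_filter] at hn
    obtain ⟨-, hns, hnt⟩ := hn
    have d1 : ((l * s : ℕ) : ℤ) ∣ (n : ℤ) - n0 := by
      have := dvd_sub hns hds
      have e : ((n : ℤ) - 1 - s) - ((n0 : ℤ) - 1 - s) = (n : ℤ) - n0 := by ring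
      rwa [e] at this
    have d2 : ((l * t : ℕ) : ℤ) ∣ (n : ℤ) - n0 := by
      have := dvd_sub hnt hdt
      have e : ((n : ℤ) + 1 - t) - ((n0 : ℤ) + 1 - t) = (n : ℤ) - n0 := by ring
      rwa [e] at this
    have d3 : ((M : ℕ) : ℤ) ∣ (n : ℤ) - n0 := by
      rw [Int.natCast_dvd] at d1 d2 ⊢
      exact Nat.lcm_dvd d1 d2
    have d4 := (Nat.modEq_iff_dvd (n := M) (a := n0) (b := n)).2 d3
    exact d4.symm
  have hMeq : (M : ℝ) * Nat.gcd s t = l * (s * t) := by
    have h1 : M = l * Nat.lcm s t := by rw [hM, Nat.lcm_mul_left]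
    have h2 : Nat.gcd s t * Nat.lcm s t = s * t := Nat.gcd_mul_lcm s t
    rw [h1]
    push_cast
    have h3 : ((Nat.gcd s t : ℕ) : ℝ) * Nat.lcm s t = s * t := by exact_mod_cast h2
    rw [← h3]
    ring
  have hM2 : (l * (s * t) : ℝ) ≤ 2 * M := by
    rw [← hMeq]
    have h1 : ((Nat.gcd s t : ℕ) : ℝ) ≤ 2 := by exact_mod_cast hg2
    nlinarith [(Nat.cast_nonneg M : (0 : ℝ) ≤ M)]
  have hpos : (0 : ℝ) < l * (s * t) := by
    have : (0 : ℝ) < l := by exact_mod_cast hl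
    have : (0 : ℝ) < s := by exact_mod_cast hs
    have : (0 : ℝ) < t := by exact_mod_cast ht
    positivity
  have hMR : (0 : ℝ) < M := by exact_mod_cast hMpos
  calc ((#(caseB_C N l s t) : ℕ) : ℝ) ≤ ((N / M + 1 : ℕ) : ℝ) := by exact_mod_cast hcard
    _ = ((N / M : ℕ) : ℝ) + 1 := by push_cast; ring
    _ ≤ (N : ℝ) / M + 1 := by
        have := Nat.cast_div_le (α := ℝ) (m := N) (n := M)
        linarith
    _ ≤ 2 * N / (l * (s * t)) + 1 := by
        have : (N : ℝ) / M ≤ 2 * N / (l * (s * t)) := by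
          rw [div_le_div_iff₀ hMR hpos]
          nlinarith [(Nat.cast_nonneg N : (0 : ℝ) ≤ N)]
        linarith

private theorem caseB_sum (N : ℕ) :
    ∑ p ∈ Icc 1 N ×ˢ Icc 1 N, (1 / ((p.1 : ℝ) * p.2)) ≤ (1 + Real.log N) ^ 2 := by
  have h1 : ∑ p ∈ Icc 1 N ×ˢ Icc 1 N, (1 / ((p.1 : ℝ) * p.2)) =
      (∑ s ∈ Icc 1 N, (1 / (s : ℝ))) * ∑ k ∈ Icc 1 N, (1 / (k : ℝ)) := by
    rw [Finset.sum_mul_sum, Finset.sum_product]
    refine Finset.sum_congr rfl fun s _ => Finset.sum_congr rfl fun k _ => ?_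
    rw [one_div_mul_one_div]
  rw [h1, sq]
  have h0 : 0 ≤ ∑ s ∈ Icc 1 N, (1 / (s : ℝ)) := Finset.sum_nonneg fun s _ => by positivity
  have h2 := caseB_harm N
  exact mul_le_mul h2 h2 h0 (h0.trans h2)

/-- the sum of the classes over the pairs with `p.1 * p.2 < Z` -/
private theorem caseB_total {N l : ℕ} (hl : 1 ≤ l) {Z c : ℝ} (hZ : 0 ≤ Z) (hc : 0 ≤ c)
    (S T : ℕ × ℕ → ℕ)
    (h1 : ∀ p ∈ Icc 1 N ×ˢ Icc 1 N, 1 ≤ S p ∧ 1 ≤ T p ∧ (p.1 * p.2 : ℝ) * l ≤ c * (S p * T p)) :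
    (#(({p ∈ Icc 1 N ×ˢ Icc 1 N | (p.1 * p.2 : ℝ) < Z}).biUnion
      fun p => caseB_C N l (S p) (T p)) : ℝ) ≤
      Z * (1 + Real.log N) + 2 * c * N * (1 + Real.log N) ^ 2 / (l * l) := by
  have hl0 : (0 : ℝ) < l := by exact_mod_cast hl
  set I := ({p ∈ Icc 1 N ×ˢ Icc 1 N | (p.1 * p.2 : ℝ) < Z} : Finset (ℕ × ℕ)) with hI
  have e1 : (#(I.biUnion fun p => caseB_C N l (S p) (T p)) : ℝ) ≤
      ∑ p ∈ I, ((#(caseB_C N l (S p) (T p)) : ℕ) : ℝ) := by
    exact_mod_cast Finset.card_biUnion_le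
  refine e1.trans ?_
  have e2 : ∀ p ∈ I, ((#(caseB_C N l (S p) (T p)) : ℕ) : ℝ) ≤
      2 * c * N / (l * l) * (1 / ((p.1 : ℝ) * p.2)) + 1 := by
    intro p hp
    have hp' := (Finset.mem_filter.1 hp).1
    obtain ⟨hS, hT, hST⟩ := h1 p hp'
    refine (caseB_class hl hS hT).trans ?_
    have hp1 : (0 : ℝ) < p.1 := by
      have := (Finset.mem_Icc.1 (Finset.mem_product.1 hp').1).1
      exact_mod_cast this
    have hp2 : (0 : ℝ) < p.2 := by
      have := (Finset.mem_Icc.1 (Finset.mem_product.1 hp').2).1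
      exact_mod_cast this
    have hS0 : (0 : ℝ) < S p := by exact_mod_cast hS
    have hT0 : (0 : ℝ) < T p := by exact_mod_cast hT
    have hN0 : (0 : ℝ) ≤ N := Nat.cast_nonneg N
    have e3 : 2 * (N : ℝ) / (l * (S p * T p)) ≤ 2 * c * N / (l * l) * (1 / ((p.1 : ℝ) * p.2)) := by
      rw [div_mul_div_comm, mul_one, div_le_div_iff₀ (by positivity) (by positivity)]
      have : (p.1 * p.2 : ℝ) * l * (2 * N * l) ≤ c * (S p * T p) * (2 * N * l) :=
        mul_le_mul_of_nonneg_right hST (by positivity)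
      nlinarith [this]
    linarith
  refine (Finset.sum_le_sum e2).trans ?_
  rw [Finset.sum_add_distrib, ← Finset.mul_sum, Finset.sum_const, nsmul_eq_mul, mul_one]
  have e4 : ∑ p ∈ I, (1 / ((p.1 : ℝ) * p.2)) ≤ (1 + Real.log N) ^ 2 := by
    refine le_trans ?_ (caseB_sum N)
    exact Finset.sum_le_sum_of_subset_of_nonneg (Finset.filter_subset _ _)
      fun p _ _ => by positivity
  have e5 := caseB_pairs N Z hZ
  have e6 : 2 * c * N / (l * l) * ∑ p ∈ I, (1 / ((p.1 : ℝ) * p.2)) ≤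
      2 * c * N / (l * l) * (1 + Real.log N) ^ 2 :=
    mul_le_mul_of_nonneg_left e4 (by positivity)
  have e7 : 2 * c * N / (l * l) * (1 + Real.log N) ^ 2 =
      2 * c * N * (1 + Real.log N) ^ 2 / ((l : ℝ) * l) := by ring
  rw [← e7]
  linarith

open Classical in
theorem case_b {N l : ℕ} (hN : 2 ≤ N) (hl : l.Prime) (hl2 : 3 ≤ l) :
    (#{n ∈ Icc 2 N | ¬ Fam n ∧ ∃ w r : ℕ, w.Prime ∧ r.Prime ∧ l ∣ w - 1 ∧ l ∣ r - 1 ∧ w ∣ n - 1 ∧
        r ∣ n + 1 ∧ (N * Real.sqrt l : ℝ) < w * r} : ℝ) ≤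
      9 * N * (1 + Real.log N) ^ 2 / (l * Real.sqrt l) := by
  have hl1 : 1 ≤ l := by omega
  have hl0 : (0 : ℝ) < l := by exact_mod_cast hl1
  have hsl : 0 < Real.sqrt l := Real.sqrt_pos.2 hl0
  have hsl1 : 1 ≤ Real.sqrt l := by
    rw [Real.one_le_sqrt]
    exact_mod_cast hl1
  have hN0 : (0 : ℝ) < N := by
    have : 0 < N := by omega
    exact_mod_cast this
  set Z : ℝ := N / (l * Real.sqrt l) with hZ
  have hZ0 : 0 ≤ Z := by positivity
  set U1 := ({p ∈ Icc 1 N ×ˢ Icc 1 N | (p.1 * p.2 : ℝ) < Z}).biUnion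
      fun p => caseB_C N l p.1 (p.1 + 2 + p.2 * l) with hU1
  set U2 := ({p ∈ Icc 1 N ×ˢ Icc 1 N | (p.1 * p.2 : ℝ) < 2 * Z}).biUnion
      fun p => caseB_C N l (p.1 + p.2 * l - 2) p.1 with hU2
  have hsub : ({n ∈ Icc 2 N | ¬ Fam n ∧ ∃ w r : ℕ, w.Prime ∧ r.Prime ∧ l ∣ w - 1 ∧ l ∣ r - 1 ∧
      w ∣ n - 1 ∧ r ∣ n + 1 ∧ (N * Real.sqrt l : ℝ) < w * r} : Finset ℕ) ⊆ U1 ∪ U2 := by
    intro n hn
    rw [Finset.mem_filter] at hn
    obtain ⟨hnI, hnF, w, r, hw, hr, hlw, hlr, hwn, hrn, hwr⟩ := hn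
    obtain ⟨hn2, hnN⟩ := Finset.mem_Icc.1 hnI
    obtain ⟨s, hs⟩ := hwn
    obtain ⟨t, ht⟩ := hrn
    have hw2 := hw.two_le
    have hr2 := hr.two_le
    have hs1 : 1 ≤ s := by
      rcases Nat.eq_zero_or_pos s with h | h
      · subst h
        simp at hs
        omega
      · exact h
    have ht1 : 1 ≤ t := by
      rcases Nat.eq_zero_or_pos t with h | h
      · subst h
        simp at ht
      · exact h
    have hnR : (n : ℝ) ≤ N := by exact_mod_cast hnN
    have hn0 : (0 : ℝ) < n := by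
      have : 0 < n := by omega
      exact_mod_cast this
    have hsw : (w : ℝ) * s = n - 1 := by
      have h1 : w * s + 1 = n := by omega
      have h2 : ((w * s + 1 : ℕ) : ℝ) = n := by rw [h1]
      push_cast at h2
      linarith
    have hrt : (r : ℝ) * t = n + 1 := by
      have h2 : ((r * t : ℕ) : ℝ) = ((n + 1 : ℕ) : ℝ) := by rw [ht]
      push_cast at h2
      linarith
    have hs0 : (0 : ℝ) < s := by exact_mod_cast hs1
    have ht0 : (0 : ℝ) < t := by exact_mod_cast ht1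
    -- the product of the cofactors
    have hst : (s * t : ℝ) * (N * Real.sqrt l) < n ^ 2 := by
      have h1 : (s * t : ℝ) * (N * Real.sqrt l) < (s * t) * (w * r) :=
        mul_lt_mul_of_pos_left hwr (by positivity)
      have h2 : (s * t : ℝ) * (w * r) = (n - 1) * (n + 1) := by
        rw [← hsw, ← hrt]
        ring
      rw [h2] at h1
      nlinarith
    have hstn : (s * t : ℝ) < n := by
      by_contra hcon
      push Not at hcon
      have h1 : (n : ℝ) * (N * Real.sqrt l) ≤ (s * t) * (N * Real.sqrt l) :=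
        mul_le_mul_of_nonneg_right hcon (by positivity)
      have h2 : (n : ℝ) * (n * 1) ≤ n * (N * Real.sqrt l) :=
        mul_le_mul_of_nonneg_left (mul_le_mul hnR hsl1 (by norm_num) hN0.le) hn0.le
      nlinarith
    have hstY : (s * t : ℝ) * l < Z * (l * l) := by
      have h0 : Z * (l * l) = N * l / Real.sqrt l := by
        rw [hZ]
        field_simp
      rw [h0, lt_div_iff₀ hsl]
      have h1 : (n : ℝ) ^ 2 ≤ N * N := by nlinarith
      have h2 : (s * t : ℝ) * Real.sqrt l < N := by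
        have h3 : (s * t : ℝ) * Real.sqrt l * N < N * N := by
          calc (s * t : ℝ) * Real.sqrt l * N = (s * t : ℝ) * (N * Real.sqrt l) := by ring
            _ < n ^ 2 := hst
            _ ≤ N * N := h1
        exact lt_of_mul_lt_mul_right h3 hN0.le
      nlinarith
    -- congruences
    have hls : ((l * s : ℕ) : ℤ) ∣ (n : ℤ) - 1 - s := by
      obtain ⟨w', hw'⟩ := hlw
      have h1 : w = l * w' + 1 := by omega
      refine ⟨w', ?_⟩
      have h2 : (n : ℤ) = w * s + 1 := by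
        have : w * s + 1 = n := by omega
        rw [← this]
        push_cast
        ring
      rw [h2, h1]
      push_cast
      ring
    have hlt : ((l * t : ℕ) : ℤ) ∣ (n : ℤ) + 1 - t := by
      obtain ⟨r', hr'⟩ := hlr
      have h1 : r = l * r' + 1 := by omega
      refine ⟨r', ?_⟩
      have h2 : (n : ℤ) + 1 = r * t := by exact_mod_cast ht
      rw [h2, h1]
      push_cast
      ring
    have hmod : (l : ℤ) ∣ (t : ℤ) - (s + 2) := by
      have h1 : (l : ℤ) ∣ (n : ℤ) - 1 - s := (Dvd.intro (s : ℤ) (by push_cast; rfl)).trans hls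
      have h2 : (l : ℤ) ∣ (n : ℤ) + 1 - t := (Dvd.intro (t : ℤ) (by push_cast; rfl)).trans hlt
      have h3 := dvd_sub h1 h2
      have e : ((n : ℤ) - 1 - s) - ((n : ℤ) + 1 - t) = (t : ℤ) - (s + 2) := by ring
      rwa [e] at h3
    have hmem : n ∈ caseB_C N l s t := by
      rw [caseB_C, Finset.mem_filter]
      exact ⟨hnI, hls, hlt⟩
    have hsN : s ≤ N := by
      have : s ≤ w * s := Nat.le_mul_of_pos_left s (by omega)
      omega
    have htN : t ≤ N := by
      have : 2 * t ≤ r * t := Nat.mul_le_mul_right t hr2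
      omega
    have hne : t ≠ s + 2 := by
      intro h
      apply hnF
      refine ⟨s, w, r, hs1, ?_, hw, hr, by omega, by rw [ht, h]⟩
      have h1 : (s : ℝ) ^ 2 ≤ n := by
        have h2 : (s : ℝ) ≤ t := by
          have : s ≤ t := by omega
          exact_mod_cast this
        nlinarith
      exact_mod_cast h1
    obtain ⟨k, hk⟩ := hmod
    rw [Finset.mem_union]
    rcases lt_or_gt_of_ne hne with hlt' | hgt
    · -- type II
      right
      have hkneg : k < 0 := by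
        by_contra hcon
        push Not at hcon
        have : (0 : ℤ) ≤ l * k := mul_nonneg (by positivity) hcon
        omega
      obtain ⟨k', hk'⟩ : ∃ k' : ℕ, k = -(k' : ℤ) := ⟨k.natAbs, by omega⟩
      have hk1 : 1 ≤ k' := by omega
      have hst' : s + 2 = t + k' * l := by
        have : (t : ℤ) - (s + 2) = -(l * k') := by rw [hk, hk']; ring
        have h4 : ((s + 2 : ℕ) : ℤ) = ((t + k' * l : ℕ) : ℤ) := by
          push_cast
          linarith
        exact_mod_cast h4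
      have hkl : k' ≤ k' * l := Nat.le_mul_of_pos_right k' (by omega)
      have hkl3 : 3 ≤ k' * l := by nlinarith
      have hkl4 : 3 * k' ≤ k' * l := by nlinarith
      have hkN : k' ≤ N := by omega
      rw [hU2, Finset.mem_biUnion]
      refine ⟨(t, k'), ?_, ?_⟩
      · rw [Finset.mem_filter, Finset.mem_product, Finset.mem_Icc, Finset.mem_Icc]
        refine ⟨⟨⟨ht1, htN⟩, hk1, hkN⟩, ?_⟩
        -- t k' < 2 Z
        have h5 : (k' : ℝ) * l ≤ 2 * s := by
          have h6 : k' * l ≤ 2 * s := by omega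
          exact_mod_cast h6
        have h7 : (t * k' : ℝ) * (l * l) < 2 * Z * (l * l) := by
          calc (t * k' : ℝ) * (l * l) = t * l * (k' * l) := by ring
            _ ≤ t * l * (2 * s) := mul_le_mul_of_nonneg_left h5 (by positivity)
            _ = 2 * (s * t * l) := by ring
            _ < 2 * (Z * (l * l)) := by linarith
            _ = _ := by ring
        exact lt_of_mul_lt_mul_right h7 (by positivity)
      · have : t + k' * l - 2 = s := by omega
        show n ∈ caseB_C N l (t + k' * l - 2) t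
        rw [this]
        exact hmem
    · -- type I
      left
      have hkpos : 0 < k := by
        by_contra hcon
        push Not at hcon
        have : (l : ℤ) * k ≤ 0 := mul_nonpos_of_nonneg_of_nonpos (by positivity) hcon
        omega
      obtain ⟨k', hk'⟩ : ∃ k' : ℕ, k = (k' : ℤ) := ⟨k.natAbs, by omega⟩
      have hk1 : 1 ≤ k' := by omega
      have hst' : t = s + 2 + k' * l := by
        have h4 : ((t : ℕ) : ℤ) = ((s + 2 + k' * l : ℕ) : ℤ) := by
          push_cast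
          rw [hk'] at hk
          linarith
        exact_mod_cast h4
      have hkl : k' ≤ k' * l := Nat.le_mul_of_pos_right k' (by omega)
      have hkN : k' ≤ N := by omega
      rw [hU1, Finset.mem_biUnion]
      refine ⟨(s, k'), ?_, ?_⟩
      · rw [Finset.mem_filter, Finset.mem_product, Finset.mem_Icc, Finset.mem_Icc]
        refine ⟨⟨⟨hs1, hsN⟩, hk1, hkN⟩, ?_⟩
        have h5 : (k' : ℝ) * l ≤ t := by
          have h6 : k' * l ≤ t := by omega
          exact_mod_cast h6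
        have h7 : (s * k' : ℝ) * (l * l) < Z * (l * l) := by
          calc (s * k' : ℝ) * (l * l) = s * l * (k' * l) := by ring
            _ ≤ s * l * t := mul_le_mul_of_nonneg_left h5 (by positivity)
            _ = s * t * l := by ring
            _ < Z * (l * l) := hstY
        exact lt_of_mul_lt_mul_right h7 (by positivity)
      · show n ∈ caseB_C N l s (s + 2 + k' * l)
        rw [← hst']
        exact hmem
  have hb1 : (#U1 : ℝ) ≤ Z * (1 + Real.log N) + 2 * 1 * N * (1 + Real.log N) ^ 2 / (l * l) := by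
    refine caseB_total hl1 hZ0 zero_le_one (fun p => p.1) (fun p => p.1 + 2 + p.2 * l) ?_
    intro p hp
    have hp1 := (Finset.mem_Icc.1 (Finset.mem_product.1 hp).1).1
    refine ⟨hp1, by omega, ?_⟩
    push_cast
    nlinarith [(Nat.cast_nonneg p.1 : (0 : ℝ) ≤ p.1)]
  have hb2 : (#U2 : ℝ) ≤
      2 * Z * (1 + Real.log N) + 2 * 2 * N * (1 + Real.log N) ^ 2 / (l * l) := by
    refine caseB_total hl1 (by positivity) (by norm_num) (fun p => p.1 + p.2 * l - 2)
      (fun p => p.1) ?_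
    intro p hp
    have hp1 := (Finset.mem_Icc.1 (Finset.mem_product.1 hp).1).1
    have hp2 := (Finset.mem_Icc.1 (Finset.mem_product.1 hp).2).1
    have h3 : 3 ≤ p.2 * l := by nlinarith
    refine ⟨by omega, hp1, ?_⟩
    have h4 : p.2 * l ≤ 2 * (p.1 + p.2 * l - 2) := by omega
    have h5 : (p.2 * l : ℝ) ≤ 2 * ((p.1 + p.2 * l - 2 : ℕ) : ℝ) := by exact_mod_cast h4
    have h6 : (0 : ℝ) ≤ p.1 := Nat.cast_nonneg _
    calc (p.1 * p.2 : ℝ) * l = p.1 * (p.2 * l) := by ring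
      _ ≤ p.1 * (2 * ((p.1 + p.2 * l - 2 : ℕ) : ℝ)) := mul_le_mul_of_nonneg_left h5 h6
      _ = _ := by ring
  have hcard : (#{n ∈ Icc 2 N | ¬ Fam n ∧ ∃ w r : ℕ, w.Prime ∧ r.Prime ∧ l ∣ w - 1 ∧ l ∣ r - 1 ∧
      w ∣ n - 1 ∧ r ∣ n + 1 ∧ (N * Real.sqrt l : ℝ) < w * r} : ℝ) ≤ #U1 + #U2 := by
    have h1 := Finset.card_le_card hsub
    have h2 := Finset.card_union_le U1 U2
    exact_mod_cast h1.trans h2
  refine hcard.trans ?_
  set Lg : ℝ := 1 + Real.log N with hLg
  have hLg1 : 1 ≤ Lg := by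
    have : 0 ≤ Real.log N := Real.log_nonneg (by exact_mod_cast (by omega : 1 ≤ N))
    linarith
  have h1 : Z * Lg ≤ N * Lg ^ 2 / (l * Real.sqrt l) := by
    rw [hZ, div_mul_eq_mul_div]
    apply div_le_div_of_nonneg_right _ (by positivity)
    have h4 : Lg ≤ Lg ^ 2 := by nlinarith
    exact mul_le_mul_of_nonneg_left h4 hN0.le
  have h2 : N * Lg ^ 2 / ((l : ℝ) * l) ≤ N * Lg ^ 2 / (l * Real.sqrt l) := by
    apply div_le_div_of_nonneg_left (by positivity) (by positivity)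
    have h3 : Real.sqrt l ≤ l := by
      nlinarith [Real.mul_self_sqrt hl0.le]
    nlinarith
  have e1 : 2 * 1 * N * Lg ^ 2 / ((l : ℝ) * l) = 2 * (N * Lg ^ 2 / ((l : ℝ) * l)) := by ring
  have e2 : 2 * 2 * N * Lg ^ 2 / ((l : ℝ) * l) = 4 * (N * Lg ^ 2 / ((l : ℝ) * l)) := by ring
  have e3 : 9 * N * Lg ^ 2 / (l * Real.sqrt l) = 9 * (N * Lg ^ 2 / (l * Real.sqrt l)) := by ring
  rw [e1] at hb1
  rw [e2] at hb2
  rw [e3]
  linarith

end Pool.Agent.ADS
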