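import Pool.Agent.Lib.MP_cfcc59_co.ADS.Defs

/-!
# MP_cfcc59_co, project ADS, module GSum: lower bound for the sieve sum
-/

set_option autoImplicit false

namespace Pool.Agent.ADS

open Finset

/-! ### the product over the primes dividing `E` -/

private theorem gsum_prod_le (S : Finset ℕ) :
    (∀ p ∈ S, 2 ≤ p) → ∏ p ∈ S, ((p : ℝ) / ((p : ℝ) - 1)) ≤ #S + 1 := by
  classical
  induction S using Finset.induction_on_max with
  | empty => intro _; simp
  | insert a s hlt ih =>
    intro h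
    have has : a ∉ s := fun hh => lt_irrefl _ (hlt a hh)
    have ha2 : 2 ≤ a := h a (mem_insert_self _ _)
    have hs : s ⊆ Ico 2 a := by
      intro x hx
      rw [mem_Ico]
      exact ⟨h x (mem_insert_of_mem hx), hlt x hx⟩
    have hc : #s ≤ a - 2 := by
      have := card_le_card hs
      simpa using this
    have hc' : #s + 2 ≤ a := by omega
    have ih' := ih (fun p hp => h p (mem_insert_of_mem hp))
    rw [prod_insert has, card_insert_of_notMem has]
    have hcR : (#s : ℝ) + 2 ≤ a := by exact_mod_cast hc'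
    have ha1 : (0 : ℝ) < (a : ℝ) - 1 := by
      have : (0 : ℝ) ≤ #s := by positivity
      linarith
    have h1 : (a : ℝ) / ((a : ℝ) - 1) * ∏ p ∈ s, ((p : ℝ) / ((p : ℝ) - 1)) ≤
        (a : ℝ) / ((a : ℝ) - 1) * (#s + 1) :=
      mul_le_mul_of_nonneg_left ih' (by positivity)
    refine h1.trans ?_
    rw [div_mul_eq_mul_div, div_le_iff₀ ha1]
    push_cast
    nlinarith [hcR, ha1]

private theorem gsum_omega_le {E : ℕ} (hE : E ≠ 0) :
    (#E.primeFactors : ℝ) ≤ Real.logb 2 E := by
  have h1 : 2 ^ #E.primeFactors ≤ ∏ p ∈ E.primeFactors, p :=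
    Finset.pow_card_le_prod _ _ _ (fun p hp => (Nat.prime_of_mem_primeFactors hp).two_le)
  have h2 : ∏ p ∈ E.primeFactors, p ≤ E :=
    Nat.le_of_dvd (Nat.pos_of_ne_zero hE) (Nat.prod_primeFactors_dvd E)
  have h3 : (2 : ℝ) ^ #E.primeFactors ≤ E := by exact_mod_cast h1.trans h2
  rw [Real.le_logb_iff_rpow_le (by norm_num) (by positivity)]
  rw [Real.rpow_natCast]
  exact h3

/-! ### the sum over integers coprime to `E` -/

private noncomputable def gsT (S : Finset ℕ) (x : ℕ) : ℝ :=
  ∑ m ∈ Icc 1 x with ∀ p ∈ S, ¬ p ∣ m, (1 : ℝ) / m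

private theorem gsT_step (S : Finset ℕ) (x p : ℕ) (hp : p.Prime) : gsT S x ≤ (p : ℝ) / ((p : ℝ) - 1) * gsT (insert p S) x := by
  classical
  have hp1 : (1 : ℝ) < p := by exact_mod_cast hp.one_lt
  have hp0 : (0 : ℝ) < (p : ℝ) - 1 := by linarith
  -- split according to divisibility by `p`
  have hsplit : gsT S x = gsT (insert p S) x +
      ∑ m ∈ Icc 1 x with (∀ q ∈ S, ¬ q ∣ m) ∧ p ∣ m, (1 : ℝ) / m := by
    unfold gsT
    have e1 : (Icc 1 x).filter (fun m => ∀ q ∈ insert p S, ¬ q ∣ m) =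
        ((Icc 1 x).filter (fun m => ∀ q ∈ S, ¬ q ∣ m)).filter (fun m => ¬ p ∣ m) := by
      ext m
      simp only [mem_filter, mem_insert]
      constructor
      · rintro ⟨h1, h2⟩
        exact ⟨⟨h1, fun q hq => h2 q (Or.inr hq)⟩, h2 p (Or.inl rfl)⟩
      · rintro ⟨⟨h1, h2⟩, h3⟩
        refine ⟨h1, fun q hq => ?_⟩
        rcases hq with rfl | hq
        · exact h3
        · exact h2 q hq
    have e2 : (Icc 1 x).filter (fun m => (∀ q ∈ S, ¬ q ∣ m) ∧ p ∣ m) =
        ((Icc 1 x).filter (fun m => ∀ q ∈ S, ¬ q ∣ m)).filter (fun m => p ∣ m) := by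
      rw [filter_filter]
    rw [e1, e2, add_comm]
    exact (sum_filter_add_sum_filter_not _ _ _).symm
  have hsecond : ∑ m ∈ Icc 1 x with (∀ q ∈ S, ¬ q ∣ m) ∧ p ∣ m, (1 : ℝ) / m ≤
      1 / (p : ℝ) * gsT S x := by
    unfold gsT
    rw [mul_sum]
    have hinj : ∑ m ∈ Icc 1 x with (∀ q ∈ S, ¬ q ∣ m) ∧ p ∣ m, (1 : ℝ) / m =
        ∑ k ∈ ((Icc 1 x).filter (fun m => (∀ q ∈ S, ¬ q ∣ m) ∧ p ∣ m)).image (fun m => m / p),
          1 / (p : ℝ) * (1 / (k : ℝ)) := by
      rw [sum_image]
      · refine sum_congr rfl fun m hm => ?_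
        rw [mem_filter] at hm
        obtain ⟨k, rfl⟩ := hm.2.2
        rw [Nat.mul_div_cancel_left _ hp.pos]
        push_cast
        rw [one_div_mul_one_div]
      · intro a ha b hb hab
        have ha' := (mem_filter.1 ha).2.2
        have hb' := (mem_filter.1 hb).2.2
        obtain ⟨k, rfl⟩ := ha'
        obtain ⟨l, rfl⟩ := hb'
        simp only [Nat.mul_div_cancel_left _ hp.pos] at hab
        rw [hab]
    rw [hinj]
    refine sum_le_sum_of_subset_of_nonneg ?_ (fun k _ _ => by positivity)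
    intro k hk
    rw [mem_image] at hk
    obtain ⟨m, hm, rfl⟩ := hk
    rw [mem_filter] at hm ⊢
    obtain ⟨hm1, hm2, k, rfl⟩ := hm
    rw [Nat.mul_div_cancel_left _ hp.pos]
    rw [mem_Icc] at hm1 ⊢
    refine ⟨⟨?_, ?_⟩, ?_⟩
    · rcases Nat.eq_zero_or_pos k with h | h
      · subst h; simp at hm1
      · exact h
    · exact (Nat.le_mul_of_pos_left k hp.pos).trans hm1.2
    · intro q hq hqk
      exact hm2 q hq (Dvd.dvd.mul_left hqk p)
  have h3 : gsT S x ≤ gsT (insert p S) x + 1 / (p : ℝ) * gsT S x := by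
    calc gsT S x = _ := hsplit
      _ ≤ _ := by linarith [hsecond]
  have h4 : gsT S x * ((p : ℝ) - 1) ≤ p * gsT (insert p S) x := by
    have hpp : (0 : ℝ) < p := by linarith
    have := mul_le_mul_of_nonneg_left h3 hpp.le
    have e : (p : ℝ) * (gsT (insert p S) x + 1 / (p : ℝ) * gsT S x) =
        p * gsT (insert p S) x + gsT S x := by
      field_simp
    rw [e] at this
    nlinarith
  rw [div_mul_eq_mul_div, le_div_iff₀ hp0]
  exact h4

private theorem gsT_ind (x : ℕ) (S : Finset ℕ) : (∀ q ∈ S, q.Prime) →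
    gsT ∅ x ≤ (∏ p ∈ S, ((p : ℝ) / ((p : ℝ) - 1))) * gsT S x := by
  classical
  induction S using Finset.induction_on with
  | empty => intro _; simp
  | insert p S hpS ih =>
    intro h
    have hS : ∀ q ∈ S, q.Prime := fun q hq => h q (mem_insert_of_mem hq)
    have hp : p.Prime := h p (mem_insert_self _ _)
    have h1 := ih hS
    have h2 := gsT_step S x p hp
    have hpos : 0 ≤ ∏ p ∈ S, ((p : ℝ) / ((p : ℝ) - 1)) := by
      refine prod_nonneg fun q hq => ?_
      have : (1 : ℝ) < q := by exact_mod_cast (hS q hq).one_lt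
      have : (0 : ℝ) < (q : ℝ) - 1 := by linarith
      positivity
    calc gsT ∅ x ≤ _ := h1
      _ ≤ (∏ p ∈ S, ((p : ℝ) / ((p : ℝ) - 1))) *
          ((p : ℝ) / ((p : ℝ) - 1) * gsT (insert p S) x) := mul_le_mul_of_nonneg_left h2 hpos
      _ = _ := by rw [prod_insert hpS]; ring

private theorem gsT_lower {x E : ℕ} (hE : E ≠ 0) :
    Real.log (x + 1) ≤ (1 + Real.logb 2 E) * gsT E.primeFactors x := by
  have h0 : Real.log (x + 1) ≤ gsT ∅ x := by
    have h := log_add_one_le_harmonic x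
    rw [harmonic_eq_sum_Icc] at h
    have e : ((∑ i ∈ Icc 1 x, (↑i : ℚ)⁻¹ : ℚ) : ℝ) = gsT ∅ x := by
      unfold gsT
      push_cast
      simp
    rw [← e]
    exact_mod_cast h
  have hpr : ∀ q ∈ E.primeFactors, q.Prime := fun q hq => Nat.prime_of_mem_primeFactors hq
  have h1 := gsT_ind x E.primeFactors hpr
  have h2 := gsum_prod_le E.primeFactors (fun p hp => (hpr p hp).two_le)
  have h3 := gsum_omega_le hE
  have hT : 0 ≤ gsT E.primeFactors x := by
    unfold gsT
    exact sum_nonneg fun _ _ => by positivity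
  calc Real.log (x + 1) ≤ gsT ∅ x := h0
    _ ≤ _ := h1
    _ ≤ (1 + Real.logb 2 E) * gsT E.primeFactors x :=
        mul_le_mul_of_nonneg_right (by linarith) hT

/-! ### divisors and `2 ^ Ω` -/

private noncomputable def gsF (m : ℕ) : ℝ := 2 ^ (ArithmeticFunction.cardFactors m) / m

private theorem gsF_nonneg (m : ℕ) : 0 ≤ gsF m := by unfold gsF; positivity

private theorem gsF_mul {a b : ℕ} (ha : a ≠ 0) (hb : b ≠ 0) : gsF (a * b) = gsF a * gsF b := by
  unfold gsF
  rw [ArithmeticFunction.cardFactors_mul ha hb]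
  push_cast
  rw [pow_add, mul_div_mul_comm]

private theorem gsF_prime_pow {p k : ℕ} (hp : p.Prime) : gsF (p ^ k) = (2 / (p : ℝ)) ^ k := by
  unfold gsF
  rw [ArithmeticFunction.cardFactors_apply_prime_pow hp]
  push_cast
  rw [div_pow]

private theorem gs_card_divisors (m : ℕ) : m ≠ 0 →
    #m.divisors ≤ 2 ^ (ArithmeticFunction.cardFactors m) := by
  induction m using induction_on_primes with
  | zero => intro h; exact absurd rfl h
  | one => intro _; simp
  | prime_mul p a hp ih =>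
    intro hpa
    have ha : a ≠ 0 := by rintro rfl; simp at hpa
    have ih' := ih ha
    rw [ArithmeticFunction.cardFactors_mul hp.ne_zero ha,
      ArithmeticFunction.cardFactors_apply_prime hp, pow_add, pow_one]
    have hsub : (p * a).divisors ⊆ a.divisors ∪ a.divisors.image (fun d => p * d) := by
      intro d hd
      rw [Nat.mem_divisors] at hd
      rw [mem_union, mem_image]
      by_cases h : p ∣ d
      · right
        obtain ⟨k, rfl⟩ := h
        exact ⟨k, Nat.mem_divisors.2 ⟨Nat.dvd_of_mul_dvd_mul_left hp.pos hd.1, ha⟩, rfl⟩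
      · left
        rw [Nat.mem_divisors]
        refine ⟨?_, ha⟩
        have hc : d.Coprime p := ((Nat.Prime.coprime_iff_not_dvd hp).2 h).symm
        exact hc.dvd_of_dvd_mul_left hd.1
    calc #(p * a).divisors ≤ #(a.divisors ∪ a.divisors.image (fun d => p * d)) :=
          card_le_card hsub
      _ ≤ #a.divisors + #(a.divisors.image (fun d => p * d)) := card_union_le _ _
      _ ≤ #a.divisors + #a.divisors := by
          have := card_image_le (s := a.divisors) (f := fun d => p * d)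
          omega
      _ ≤ 2 * 2 ^ (ArithmeticFunction.cardFactors a) := by omega

private theorem gs_geom (p K : ℕ) (hp : 3 ≤ p) :
    ∑ k ∈ Icc 1 K, (2 / (p : ℝ)) ^ k ≤ 2 / ((p : ℝ) - 2) := by
  have hp3 : (3 : ℝ) ≤ p := by exact_mod_cast hp
  have h2 : (0 : ℝ) < (p : ℝ) - 2 := by linarith
  have hp0 : (0 : ℝ) < p := by linarith
  have key : ∀ K : ℕ, ∑ k ∈ Icc 1 K, (2 / (p : ℝ)) ^ k =
      2 / ((p : ℝ) - 2) * (1 - (2 / (p : ℝ)) ^ K) := by
    intro K
    induction K with
    | zero => simp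
    | succ K ih =>
      rw [sum_Icc_succ_top (by omega), ih, pow_succ]
      field_simp
      ring
  rw [key K]
  have h3 : 0 ≤ (2 / (p : ℝ)) ^ K := by positivity
  have h4 : 0 ≤ 2 / ((p : ℝ) - 2) := by positivity
  nlinarith [mul_nonneg h4 h3]

private theorem gs_fiber (Q : ℕ) (S : Finset ℕ) : (∀ p ∈ S, p.Prime ∧ 3 ≤ p) →
    ∑ m ∈ Icc 1 Q with m.primeFactors = S, gsF m ≤ ∏ p ∈ S, (2 / ((p : ℝ) - 2)) := by
  classical
  induction S using Finset.induction_on with
  | empty =>
    intro _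
    rw [prod_empty]
    have hsub : (Icc 1 Q).filter (fun m => m.primeFactors = ∅) ⊆ {1} := by
      intro m hm
      rw [mem_filter, mem_Icc, Nat.primeFactors_eq_empty] at hm
      rw [mem_singleton]
      omega
    calc ∑ m ∈ Icc 1 Q with m.primeFactors = ∅, gsF m ≤ ∑ m ∈ ({1} : Finset ℕ), gsF m :=
          sum_le_sum_of_subset_of_nonneg hsub (fun m _ _ => gsF_nonneg m)
      _ = 1 := by simp [gsF]
  | insert p S hpS ih =>
    intro h
    have ih' := ih (fun q hq => h q (mem_insert_of_mem hq))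
    obtain ⟨hp, hp3⟩ := h p (mem_insert_self _ _)
    rw [prod_insert hpS]
    -- the map m ↦ (v_p m, m / p ^ v_p m)
    set φ : ℕ → ℕ × ℕ := fun m => (m.factorization p, m / p ^ m.factorization p) with hφ
    have hmem : ∀ m ∈ (Icc 1 Q).filter (fun m => m.primeFactors = insert p S),
        φ m ∈ Icc 1 Q ×ˢ (Icc 1 Q).filter (fun m => m.primeFactors = S) := by
      intro m hm
      rw [mem_filter, mem_Icc] at hm
      obtain ⟨⟨hm1, hmQ⟩, hpf⟩ := hm
      have hm0 : m ≠ 0 := by omega
      rw [mem_product, mem_filter, mem_Icc, mem_Icc]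
      simp only [hφ]
      have hpm : p ∣ m := Nat.dvd_of_mem_primeFactors (by rw [hpf]; exact mem_insert_self _ _)
      have hk1 : 1 ≤ m.factorization p :=
        (hp.dvd_iff_one_le_factorization hm0).1 hpm
      have hpow : p ^ m.factorization p ∣ m := Nat.ordProj_dvd m p
      have hpowle : p ^ m.factorization p ≤ m := Nat.le_of_dvd (by omega) hpow
      refine ⟨⟨hk1, ?_⟩, ⟨?_, ?_⟩, ?_⟩
      · have := Nat.lt_pow_self hp.one_lt (n := m.factorization p)
        omega
      · exact Nat.div_pos hpowle (pow_pos hp.pos _)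
      · exact (Nat.div_le_self _ _).trans hmQ
      · have : (m / p ^ m.factorization p).primeFactors = m.primeFactors.erase p := by
          ext q
          rw [mem_erase, Nat.mem_primeFactors, Nat.mem_primeFactors]
          have hdp : m / p ^ m.factorization p ≠ 0 := (Nat.ordCompl_pos p hm0).ne'
          constructor
          · rintro ⟨hq, hqd, _⟩
            refine ⟨?_, hq, hqd.trans (Nat.ordCompl_dvd m p), hm0⟩
            rintro rfl
            exact Nat.not_dvd_ordCompl hp hm0 hqd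
          · rintro ⟨hqp, hq, hqm, _⟩
            refine ⟨hq, ?_, hdp⟩
            have hmul : p ^ m.factorization p * (m / p ^ m.factorization p) = m :=
              Nat.ordProj_mul_ordCompl_eq_self m p
            rw [← hmul] at hqm
            rcases (Nat.Prime.dvd_mul hq).1 hqm with h' | h'
            · exact absurd ((Nat.prime_dvd_prime_iff_eq hq hp).1 (hq.dvd_of_dvd_pow h')) hqp
            · exact h'
        rw [this, hpf, erase_insert hpS]
    have hval : ∀ m ∈ (Icc 1 Q).filter (fun m => m.primeFactors = insert p S),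
        gsF m = (2 / (p : ℝ)) ^ (φ m).1 * gsF (φ m).2 := by
      intro m hm
      rw [mem_filter, mem_Icc] at hm
      have hm0 : m ≠ 0 := by omega
      simp only [hφ]
      rw [← gsF_prime_pow hp, ← gsF_mul (pow_ne_zero _ hp.ne_zero) (Nat.ordCompl_pos p hm0).ne',
        Nat.ordProj_mul_ordCompl_eq_self]
    have hinj : Set.InjOn φ ((Icc 1 Q).filter (fun m => m.primeFactors = insert p S) : Finset ℕ) := by
      intro a _ b _ hab
      have h1 : a.factorization p = b.factorization p := congrArg Prod.fst hab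
      have h2 : a / p ^ a.factorization p = b / p ^ b.factorization p := congrArg Prod.snd hab
      rw [← Nat.ordProj_mul_ordCompl_eq_self a p, ← Nat.ordProj_mul_ordCompl_eq_self b p, h2, h1]
    calc ∑ m ∈ Icc 1 Q with m.primeFactors = insert p S, gsF m
        = ∑ m ∈ Icc 1 Q with m.primeFactors = insert p S,
            (2 / (p : ℝ)) ^ (φ m).1 * gsF (φ m).2 := sum_congr rfl hval
      _ = ∑ y ∈ ((Icc 1 Q).filter (fun m => m.primeFactors = insert p S)).image φ,
            (2 / (p : ℝ)) ^ y.1 * gsF y.2 :=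
          (sum_image (f := fun y : ℕ × ℕ => (2 / (p : ℝ)) ^ y.1 * gsF y.2) hinj).symm
      _ ≤ ∑ y ∈ Icc 1 Q ×ˢ (Icc 1 Q).filter (fun m => m.primeFactors = S),
            (2 / (p : ℝ)) ^ y.1 * gsF y.2 := by
          refine sum_le_sum_of_subset_of_nonneg ?_ ?_
          · intro y hy
            rw [mem_image] at hy
            obtain ⟨m, hm, rfl⟩ := hy
            exact hmem m hm
          · intro y _ _
            exact mul_nonneg (by positivity) (gsF_nonneg _)
      _ = (∑ k ∈ Icc 1 Q, (2 / (p : ℝ)) ^ k) *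
            ∑ m ∈ Icc 1 Q with m.primeFactors = S, gsF m := by
          rw [sum_product, sum_mul_sum]
      _ ≤ 2 / ((p : ℝ) - 2) * ∏ p ∈ S, (2 / ((p : ℝ) - 2)) := by
          have hp3' : (3 : ℝ) ≤ p := by exact_mod_cast hp3
          have : (0 : ℝ) < (p : ℝ) - 2 := by linarith
          exact mul_le_mul (gs_geom p Q hp3) ih' (sum_nonneg fun m _ => gsF_nonneg m) (by positivity)

/-! ### the square of the sum -/

private theorem gs_square (x Q E : ℕ) (hxQ : x * x ≤ Q) (hE : E ≠ 0) :
    (gsT E.primeFactors x) ^ 2 ≤ ∑ m ∈ Icc 1 Q with m.Coprime E, gsF m := by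
  classical
  have hset : (Icc 1 x).filter (fun m => ∀ p ∈ E.primeFactors, ¬ p ∣ m) =
      (Icc 1 x).filter (fun m => m.Coprime E) := by
    ext m
    rw [mem_filter, mem_filter]
    refine and_congr_right fun hm => ?_
    rw [mem_Icc] at hm
    constructor
    · intro h
      refine Nat.Coprime.symm (Nat.coprime_of_dvd fun p hp hpE hpm => ?_)
      exact h p (Nat.mem_primeFactors.2 ⟨hp, hpE, hE⟩) hpm
    · intro h p hp hpm
      have hpp := Nat.prime_of_mem_primeFactors hp
      have hd : p ∣ Nat.gcd m E := Nat.dvd_gcd hpm (Nat.dvd_of_mem_primeFactors hp)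
      rw [h] at hd
      exact hpp.one_lt.ne' (Nat.dvd_one.1 hd)
  unfold gsT
  rw [hset, sq, sum_mul_sum, ← sum_product']
  have hmaps : ∀ y ∈ (Icc 1 x).filter (fun m => m.Coprime E) ×ˢ
      (Icc 1 x).filter (fun m => m.Coprime E), y.1 * y.2 ∈
      (Icc 1 Q).filter (fun m => m.Coprime E) := by
    intro y hy
    rw [mem_product, mem_filter, mem_filter, mem_Icc, mem_Icc] at hy
    obtain ⟨⟨⟨h1, h2⟩, h3⟩, ⟨h4, h5⟩, h6⟩ := hy
    rw [mem_filter, mem_Icc]
    exact ⟨⟨Nat.mul_pos h1 h4, (Nat.mul_le_mul h2 h5).trans hxQ⟩, Nat.Coprime.mul_left h3 h6⟩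
  rw [← sum_fiberwise_of_maps_to hmaps]
  refine sum_le_sum fun m hm => ?_
  rw [mem_filter, mem_Icc] at hm
  have hm0 : m ≠ 0 := by omega
  have hterm : ∀ y ∈ ((Icc 1 x).filter (fun m => m.Coprime E) ×ˢ
      (Icc 1 x).filter (fun m => m.Coprime E)).filter (fun y => y.1 * y.2 = m),
      (1 : ℝ) / (y.1 : ℝ) * (1 / (y.2 : ℝ)) = 1 / m := by
    intro y hy
    rw [mem_filter] at hy
    rw [one_div_mul_one_div, ← hy.2]
    push_cast
    rfl
  rw [sum_congr rfl hterm, sum_const, nsmul_eq_mul]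
  have hcard : #(((Icc 1 x).filter (fun m => m.Coprime E) ×ˢ
      (Icc 1 x).filter (fun m => m.Coprime E)).filter (fun y => y.1 * y.2 = m)) ≤ #m.divisors := by
    refine card_le_card_of_injOn Prod.fst ?_ ?_
    · intro y hy
      have hy' := (mem_filter.1 (mem_coe.1 hy)).2
      rw [mem_coe, Nat.mem_divisors]
      exact ⟨⟨y.2, hy'.symm⟩, hm0⟩
    · intro y hy z hz hyz
      have hy' := mem_filter.1 (mem_coe.1 hy)
      have hz' := mem_filter.1 (mem_coe.1 hz)
      have hy1 : 0 < y.1 := by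
        have := hy'.1
        rw [mem_product, mem_filter, mem_Icc] at this
        exact this.1.1.1
      refine Prod.ext hyz ?_
      have he : y.1 * y.2 = y.1 * z.2 := by rw [hy'.2, hyz, hz'.2]
      exact Nat.eq_of_mul_eq_mul_left hy1 he
  have h2 : (#(((Icc 1 x).filter (fun m => m.Coprime E) ×ˢ
      (Icc 1 x).filter (fun m => m.Coprime E)).filter (fun y => y.1 * y.2 = m)) : ℝ) ≤
      2 ^ (ArithmeticFunction.cardFactors m) := by
    exact_mod_cast hcard.trans (gs_card_divisors m hm0)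
  unfold gsF
  rw [mul_one_div]
  exact div_le_div_of_nonneg_right h2 (by positivity)

private theorem gs_group (Q E : ℕ) (h2 : 2 ∣ E) :
    ∑ m ∈ Icc 1 Q with m.Coprime E, gsF m ≤
      ∑ q ∈ Icc 1 Q with Squarefree q ∧ q.Coprime E,
        ∏ p ∈ q.primeFactors, (2 / ((p : ℝ) - 2)) := by
  classical
  have hmaps : ∀ m ∈ (Icc 1 Q).filter (fun m => m.Coprime E),
      (∏ p ∈ m.primeFactors, p) ∈ (Icc 1 Q).filter (fun q => Squarefree q ∧ q.Coprime E) := by
    intro m hm
    rw [mem_filter, mem_Icc] at hm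
    have hdvd := Nat.prod_primeFactors_dvd m
    have hm0 : 0 < m := by omega
    rw [mem_filter, mem_Icc]
    refine ⟨⟨Nat.pos_of_dvd_of_pos hdvd hm0, (Nat.le_of_dvd hm0 hdvd).trans hm.1.2⟩, ?_,
      Nat.Coprime.coprime_dvd_left hdvd hm.2⟩
    refine Finset.squarefree_prod_of_pairwise_isCoprime ?_ ?_
    · intro a ha b hb hab
      exact Nat.coprime_iff_isRelPrime.1 ((Nat.coprime_primes (Nat.prime_of_mem_primeFactors ha)
        (Nat.prime_of_mem_primeFactors hb)).2 hab)
    · intro a ha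
      exact (Nat.prime_of_mem_primeFactors ha).squarefree
  rw [← sum_fiberwise_of_maps_to hmaps]
  refine sum_le_sum fun q hq => ?_
  rw [mem_filter, mem_Icc] at hq
  have hq0 : q ≠ 0 := by omega
  have hS : ∀ p ∈ q.primeFactors, p.Prime ∧ 3 ≤ p := by
    intro p hp
    have hpp := Nat.prime_of_mem_primeFactors hp
    refine ⟨hpp, ?_⟩
    rcases hpp.two_le.eq_or_lt with h | h
    · exfalso
      have h2q : 2 ∣ q := by rw [h]; exact Nat.dvd_of_mem_primeFactors hp
      have := Nat.dvd_gcd h2q h2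
      rw [hq.2.2] at this
      omega
    · omega
  refine le_trans ?_ (gs_fiber Q q.primeFactors hS)
  refine sum_le_sum_of_subset_of_nonneg ?_ (fun m _ _ => gsF_nonneg m)
  intro m hm
  rw [mem_filter, mem_filter] at hm
  rw [mem_filter]
  refine ⟨hm.1.1, ?_⟩
  rw [← hm.2]
  exact (Nat.primeFactors_prod fun p hp => Nat.prime_of_mem_primeFactors hp).symm

theorem gsum {Q E : ℕ} (hQ : 1 ≤ Q) (hE : E ≠ 0) (h2 : 2 ∣ E) :
    (1 / (1 + Real.logb 2 E) * (Real.log Q / 2)) ^ 2 ≤
      ∑ q ∈ Icc 1 Q with Squarefree q ∧ q.Coprime E,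
        ∏ p ∈ q.primeFactors, (2 / ((p : ℝ) - 2)) := by
  have hE1 : (1 : ℝ) ≤ E := by exact_mod_cast Nat.one_le_iff_ne_zero.2 hE
  have hlogb : 0 ≤ Real.logb 2 E := Real.logb_nonneg (by norm_num) hE1
  have hlogQ : 0 ≤ Real.log Q := Real.log_nonneg (by exact_mod_cast hQ)
  set x := Nat.sqrt Q with hx
  have hxQ : x * x ≤ Q := Nat.sqrt_le Q
  have hQx : Q < (x + 1) * (x + 1) := Nat.lt_succ_sqrt Q
  have hlog : Real.log Q / 2 ≤ Real.log (x + 1) := by
    have hQR : (Q : ℝ) ≤ ((x : ℝ) + 1) * ((x : ℝ) + 1) := by exact_mod_cast hQx.le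
    have hQ0 : (0 : ℝ) < Q := by exact_mod_cast hQ
    have := Real.log_le_log hQ0 hQR
    rw [Real.log_mul (by positivity) (by positivity)] at this
    linarith
  have hT := gsT_lower (x := x) hE
  have hden : 0 < 1 + Real.logb 2 E := by linarith
  have h1 : 1 / (1 + Real.logb 2 E) * (Real.log Q / 2) ≤ gsT E.primeFactors x := by
    rw [one_div, inv_mul_le_iff₀ hden]
    exact hlog.trans hT
  have h0 : 0 ≤ 1 / (1 + Real.logb 2 E) * (Real.log Q / 2) := by positivity
  calc (1 / (1 + Real.logb 2 E) * (Real.log Q / 2)) ^ 2 ≤ (gsT E.primeFactors x) ^ 2 :=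
        pow_le_pow_left₀ h0 h1 2
    _ ≤ _ := gs_square x Q E hxQ hE
    _ ≤ _ := gs_group Q E h2

end Pool.Agent.ADS
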