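import Pool.Agent.Lib.MP_cfcc59_co.ADS.Defs
import Pool.Agent.Lib.MP_cfcc59_co.ADS.LSArith
import Pool.Agent.Lib.MP_cfcc59_co.ADS.GSum

/-!
# MP_cfcc59_co, project ADS: pairs of primes `a m + 1`, `b m + 1`
-/

set_option autoImplicit false

namespace Pool.Agent.ADS

open Finset

private theorem pairSieve_inv {a p : ℕ} (hp : p.Prime) (h : ¬ p ∣ a) : ∃ x, p ∣ a * x + 1 := by
  have hco : Nat.Coprime a p := ((Nat.Prime.coprime_iff_not_dvd hp).2 h).symm
  obtain ⟨m, hm⟩ := Nat.exists_mul_mod_eq_one_of_coprime hco hp.one_lt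
  refine ⟨m * (p - 1), ?_⟩
  have h1 : a * m ≡ 1 [MOD p] := by
    rw [Nat.ModEq, hm.2, Nat.mod_eq_of_lt hp.one_lt]
  have h2 : a * (m * (p - 1)) + 1 ≡ 1 * (p - 1) + 1 [MOD p] := by
    rw [← mul_assoc]
    exact Nat.ModEq.add_right 1 (Nat.ModEq.mul_right (p - 1) h1)
  have h3 : 1 * (p - 1) + 1 = p := by
    have := hp.one_lt; omega
  rw [h3] at h2
  exact (Nat.modEq_zero_iff_dvd.1 (h2.trans (by simp [Nat.ModEq])))

private theorem pairSieve_bad {a n p x Q : ℕ} (ha : 1 ≤ a) (hp : p.Prime) (hpQ : p ≤ Q)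
    (hx : p ∣ a * x + 1) (hn : Q < n) (hpr : (a * n + 1).Prime) : ¬ n ≡ x [MOD p] := by
  intro h
  have h1 : a * n + 1 ≡ a * x + 1 [MOD p] := Nat.ModEq.add_right 1 (Nat.ModEq.mul_left a h)
  have h2 : p ∣ a * n + 1 := (Nat.ModEq.dvd_iff h1 dvd_rfl).2 hx
  have h3 := (Nat.prime_dvd_prime_iff_eq hp hpr).1 h2
  have h4 : n ≤ a * n := Nat.le_mul_of_pos_left n ha
  omega

private theorem pairSieve_main {a b M : ℕ} (ha : 1 ≤ a) (hb : 1 ≤ b) (hab : a ≠ b)
    (hM : 4 ≤ M) :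
    (#{m ∈ Icc 1 M | ((a * m + 1).Prime ∧ (b * m + 1).Prime) ∧ Nat.sqrt M < m} : ℝ) ≤
      14400 * M * (1 + Real.log (a + b)) ^ 2 / Real.log M ^ 2 := by
  classical
  set Q := Nat.sqrt M with hQdef
  have hQ2 : 2 ≤ Q := by
    rw [hQdef, Nat.le_sqrt]; omega
  have hQQ : Q * Q ≤ M := Nat.sqrt_le M
  have hQM : M < (Q + 1) * (Q + 1) := Nat.lt_succ_sqrt M
  set D : ℕ := ((a : ℤ) - b).natAbs with hD
  have hD0 : D ≠ 0 := by
    rw [hD]; simp only [ne_eq, Int.natAbs_eq_zero]; omega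
  set E : ℕ := 2 * (a * b * D) with hE
  have hE0 : E ≠ 0 := by
    rw [hE]; positivity
  have h2E : 2 ∣ E := ⟨_, rfl⟩
  set A : Finset ℕ := {m ∈ Icc 1 M | ((a * m + 1).Prime ∧ (b * m + 1).Prime) ∧ Q < m} with hA
  let c : ℕ → ℕ := fun p => if h : ∃ x, p ∣ a * x + 1 then h.choose else 0
  let d : ℕ → ℕ := fun p => if h : ∃ x, p ∣ b * x + 1 then h.choose else 0
  have hc : ∀ p : ℕ, p.Prime → p ≤ Q → ¬ p ∣ E → ¬ c p ≡ d p [MOD p] ∧
      ∀ n ∈ A, ¬ n ≡ c p [MOD p] ∧ ¬ n ≡ d p [MOD p] := by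
    intro p hp hpQ hpE
    have hpa : ¬ p ∣ a := fun h => hpE (by rw [hE]; exact Dvd.dvd.mul_left ((h.mul_right b).mul_right D) 2)
    have hpb : ¬ p ∣ b := fun h => hpE (by rw [hE]; exact Dvd.dvd.mul_left ((h.mul_left a).mul_right D) 2)
    have hpD : ¬ p ∣ D := fun h => hpE (by rw [hE]; exact Dvd.dvd.mul_left (h.mul_left (a * b)) 2)
    have hca : p ∣ a * c p + 1 := by
      have h := pairSieve_inv hp hpa
      simp only [c, dif_pos h]; exact h.choose_spec
    have hdb : p ∣ b * d p + 1 := by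
      have h := pairSieve_inv hp hpb
      simp only [d, dif_pos h]; exact h.choose_spec
    refine ⟨fun h => hpD ?_, fun n hn => ?_⟩
    · have h1 : b * c p + 1 ≡ b * d p + 1 [MOD p] :=
        Nat.ModEq.add_right 1 (Nat.ModEq.mul_left b h)
      have h2 : p ∣ b * c p + 1 := (Nat.ModEq.dvd_iff h1 dvd_rfl).2 hdb
      have h3 : (p : ℤ) ∣ (a * c p + 1 : ℤ) := by exact_mod_cast hca
      have h4 : (p : ℤ) ∣ (b * c p + 1 : ℤ) := by exact_mod_cast h2
      have h5 : (p : ℤ) ∣ (a : ℤ) - b := by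
        have h6 := dvd_sub (h4.mul_left (a : ℤ)) (h3.mul_left (b : ℤ))
        have h7 : (a : ℤ) * (b * c p + 1) - b * (a * c p + 1) = a - b := by ring
        rwa [h7] at h6
      rw [hD]
      exact Int.natCast_dvd.1 h5
    · rw [hA, mem_filter] at hn
      exact ⟨pairSieve_bad ha hp hpQ hca hn.2.2 hn.2.1.1,
        pairSieve_bad hb hp hpQ hdb hn.2.2 hn.2.1.2⟩
  have hls := ls_arith h2E A (filter_subset _ _) c d hc
  have hg := gsum (Q := Q) (by omega) hE0 h2E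
  set S := ∑ q ∈ Icc 1 Q with Squarefree q ∧ q.Coprime E,
      ∏ p ∈ q.primeFactors, (2 / ((p : ℝ) - 2)) with hS
  -- real estimates
  have hMr : (4 : ℝ) ≤ M := by exact_mod_cast hM
  have hQr : (2 : ℝ) ≤ Q := by exact_mod_cast hQ2
  have hlogQ : 0 < Real.log Q := Real.log_pos (by linarith)
  have hlogM : 0 < Real.log M := Real.log_pos (by linarith)
  have hMQ : (M : ℝ) ≤ (Q : ℝ) ^ 4 := by
    have h1 : M ≤ Q ^ 4 := by
      have h2 : (Q + 1) * (Q + 1) ≤ (Q * Q) * (Q * Q) := by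
        have h3 : Q + 1 ≤ Q * Q := by nlinarith
        exact Nat.mul_le_mul h3 h3
      calc M ≤ (Q * Q) * (Q * Q) := by omega
        _ = Q ^ 4 := by ring
    exact_mod_cast h1
  have hlMQ : Real.log M ≤ 4 * Real.log Q := by
    have h1 := Real.log_le_log (by linarith) hMQ
    rw [Real.log_pow] at h1
    exact_mod_cast h1
  set s : ℝ := (a : ℝ) + b with hs
  have har : (1 : ℝ) ≤ a := by exact_mod_cast ha
  have hbr : (1 : ℝ) ≤ b := by exact_mod_cast hb
  have hs2 : 2 ≤ s := by rw [hs]; linarith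
  have hls0 : 0 ≤ Real.log s := Real.log_nonneg (by linarith)
  have hDr : (D : ℝ) ≤ s := by
    have h1 : D ≤ a + b := by rw [hD]; omega
    rw [hs]; exact_mod_cast h1
  have hDr0 : (0 : ℝ) < D := by exact_mod_cast Nat.pos_of_ne_zero hD0
  have hEr : (E : ℝ) ≤ 2 * s ^ 3 := by
    rw [hE]; push_cast
    have h1 : (a : ℝ) * b ≤ s * s := mul_le_mul (by rw [hs]; linarith) (by rw [hs]; linarith) (by linarith) (by linarith)
    have h2 : (a : ℝ) * b * D ≤ s * s * s := mul_le_mul h1 hDr hDr0.le (by positivity)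
    nlinarith
  have hE1 : (1 : ℝ) ≤ E := by exact_mod_cast Nat.one_le_iff_ne_zero.2 hE0
  have hl2 : (0.69 : ℝ) < Real.log 2 := by have := Real.log_two_gt_d9; linarith
  have hlogE : Real.log E ≤ Real.log 2 + 3 * Real.log s := by
    have h1 := Real.log_le_log (by linarith) hEr
    rw [Real.log_mul (by norm_num) (by positivity), Real.log_pow] at h1
    exact_mod_cast h1
  have hlb0 : 0 ≤ Real.logb 2 E := Real.logb_nonneg (by norm_num) hE1
  have hlb : 1 + Real.logb 2 E ≤ 5 * (1 + Real.log s) := by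
    have h1 : Real.logb 2 E ≤ (Real.log 2 + 3 * Real.log s) / Real.log 2 := by
      rw [Real.logb]; gcongr
    have h2 : (Real.log 2 + 3 * Real.log s) / Real.log 2 ≤ 1 + 5 * Real.log s := by
      rw [div_le_iff₀ (by linarith)]
      nlinarith
    linarith
  set L := 1 / (1 + Real.logb 2 E) * (Real.log Q / 2) with hL
  have hL0 : 0 < L := by positivity
  have hL1 : Real.log M / (40 * (1 + Real.log s)) ≤ L := by
    rw [hL, one_div, ← div_eq_inv_mul, div_div, div_le_div_iff₀ (by positivity) (by positivity)]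
    nlinarith [mul_le_mul hlMQ hlb (by positivity) (by positivity)]
  have hcard : (#A : ℝ) * L ^ 2 ≤ 9 * M := by
    have h1 : (#A : ℝ) * L ^ 2 ≤ (#A : ℝ) * S := mul_le_mul_of_nonneg_left hg (Nat.cast_nonneg _)
    have h2 : (Q : ℝ) ^ 2 ≤ M := by
      have : Q ^ 2 ≤ M := by rw [sq]; exact hQQ
      exact_mod_cast this
    linarith
  have hX : 0 < Real.log M / (40 * (1 + Real.log s)) := by positivity
  have h3 : (#A : ℝ) * (Real.log M / (40 * (1 + Real.log s))) ^ 2 ≤ 9 * M :=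
    le_trans (mul_le_mul_of_nonneg_left (pow_le_pow_left₀ hX.le hL1 2) (Nat.cast_nonneg _)) hcard
  rw [le_div_iff₀ (by positivity)]
  have h4 : (#A : ℝ) * (Real.log M / (40 * (1 + Real.log s))) ^ 2 =
      (#A : ℝ) * Real.log M ^ 2 / (1600 * (1 + Real.log s) ^ 2) := by
    rw [div_pow, mul_pow]; ring
  rw [h4, div_le_iff₀ (by positivity)] at h3
  linarith

theorem pair_primes : ∃ C : ℝ, 0 < C ∧ ∀ a b M : ℕ, 1 ≤ a → 1 ≤ b → a ≠ b → 2 ≤ M →
    (#{m ∈ Icc 1 M | (a * m + 1).Prime ∧ (b * m + 1).Prime} : ℝ) ≤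
      C * M * (1 + Real.log (a + b)) ^ 2 / Real.log M ^ 2 := by
  classical
  refine ⟨15000, by norm_num, fun a b M ha hb hab hM => ?_⟩
  have har : (1 : ℝ) ≤ a := by exact_mod_cast ha
  have hbr : (1 : ℝ) ≤ b := by exact_mod_cast hb
  have hls0 : 0 ≤ Real.log ((a : ℝ) + b) := Real.log_nonneg (by linarith)
  have hMr : (2 : ℝ) ≤ M := by exact_mod_cast hM
  have hlogM : 0 < Real.log M := Real.log_pos (by linarith)
  have hY : (1 : ℝ) ≤ (1 + Real.log ((a : ℝ) + b)) ^ 2 := one_le_pow₀ (by linarith)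
  rcases Nat.lt_or_ge M 4 with h4 | h4
  · have h1 : (#{m ∈ Icc 1 M | (a * m + 1).Prime ∧ (b * m + 1).Prime} : ℝ) ≤ M := by
      have := card_filter_le (Icc 1 M) (fun m => (a * m + 1).Prime ∧ (b * m + 1).Prime)
      rw [Nat.card_Icc] at this
      exact_mod_cast (by omega : #{m ∈ Icc 1 M | (a * m + 1).Prime ∧ (b * m + 1).Prime} ≤ M)
    rw [le_div_iff₀ (by positivity)]
    have h5 : Real.log M ≤ 2 := by
      have h6 : Real.log M ≤ M - 1 := Real.log_le_sub_one_of_pos (by linarith)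
      have h7 : (M : ℝ) ≤ 3 := by exact_mod_cast (by omega : M ≤ 3)
      linarith
    have h8 : Real.log M ^ 2 ≤ 4 := by nlinarith
    calc _ ≤ (M : ℝ) * 4 := mul_le_mul h1 h8 (by positivity) (by positivity)
      _ ≤ 15000 * M * 1 := by nlinarith
      _ ≤ 15000 * M * (1 + Real.log ((a : ℝ) + b)) ^ 2 := by gcongr
  · have hm := pairSieve_main ha hb hab h4
    have hsub : ({m ∈ Icc 1 M | (a * m + 1).Prime ∧ (b * m + 1).Prime} : Finset ℕ) ⊆
        {m ∈ Icc 1 M | ((a * m + 1).Prime ∧ (b * m + 1).Prime) ∧ Nat.sqrt M < m} ∪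
          Icc 1 (Nat.sqrt M) := by
      intro m hm
      rw [mem_filter, mem_Icc] at hm
      rw [mem_union, mem_filter, mem_Icc, mem_Icc]
      rcases lt_or_ge (Nat.sqrt M) m with h | h
      · exact Or.inl ⟨hm.1, hm.2, h⟩
      · exact Or.inr ⟨hm.1.1, h⟩
    have h1 : (#{m ∈ Icc 1 M | (a * m + 1).Prime ∧ (b * m + 1).Prime} : ℝ) ≤
        (#{m ∈ Icc 1 M | ((a * m + 1).Prime ∧ (b * m + 1).Prime) ∧ Nat.sqrt M < m} : ℝ) +
          (Nat.sqrt M : ℝ) := by
      have h2 := (card_le_card hsub).trans (card_union_le _ _)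
      rw [Nat.card_Icc] at h2
      exact_mod_cast h2
    have h3 : ((Nat.sqrt M : ℕ) : ℝ) ≤ Real.sqrt M := Real.nat_sqrt_le_real_sqrt
    have hsq : 0 < Real.sqrt M := Real.sqrt_pos.2 (by linarith)
    have hss : Real.sqrt M * Real.sqrt M = M := Real.mul_self_sqrt (by linarith)
    have h5 : Real.log M ^ 2 ≤ 16 * Real.sqrt M := by
      have hs4 : 0 < Real.sqrt (Real.sqrt M) := Real.sqrt_pos.2 hsq
      have hs5 : Real.sqrt (Real.sqrt M) * Real.sqrt (Real.sqrt M) = Real.sqrt M :=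
        Real.mul_self_sqrt hsq.le
      have h6 : Real.log M = 4 * Real.log (Real.sqrt (Real.sqrt M)) := by
        rw [Real.log_sqrt hsq.le, Real.log_sqrt (by linarith)]; ring
      have h7 : Real.log (Real.sqrt (Real.sqrt M)) ≤ Real.sqrt (Real.sqrt M) := by
        have := Real.log_le_sub_one_of_pos hs4; linarith
      have h8 : 0 ≤ Real.log (Real.sqrt (Real.sqrt M)) := by linarith
      rw [h6]
      nlinarith [mul_le_mul h7 h7 h8 hs4.le]
    have h9 : Real.sqrt M ≤ 16 * M * (1 + Real.log ((a : ℝ) + b)) ^ 2 / Real.log M ^ 2 := by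
      rw [le_div_iff₀ (by positivity)]
      calc Real.sqrt M * Real.log M ^ 2 ≤ Real.sqrt M * (16 * Real.sqrt M) := by gcongr
        _ = 16 * M * 1 := by rw [← hss]; ring_nf; rw [Real.sq_sqrt (by positivity)]
        _ ≤ _ := by gcongr
    have h10 : 14400 * (M : ℝ) * (1 + Real.log ((a : ℝ) + b)) ^ 2 / Real.log M ^ 2 +
        16 * M * (1 + Real.log ((a : ℝ) + b)) ^ 2 / Real.log M ^ 2 ≤
        15000 * M * (1 + Real.log ((a : ℝ) + b)) ^ 2 / Real.log M ^ 2 := by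
      rw [← add_div]
      gcongr
      nlinarith [mul_nonneg (by linarith : (0 : ℝ) ≤ M) (by linarith : (0 : ℝ) ≤ (1 + Real.log ((a : ℝ) + b)) ^ 2)]
    linarith

end Pool.Agent.ADS
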