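import Pool.Agent.Lib.MP_cfcc59_co.ADS.Defs
import Pool.Agent.Lib.MP_cfcc59_co.ADS.PairSieve

/-!
# MP_cfcc59_co, project ADS: the exceptional family has `O(N / log^2 N)` members
-/

set_option autoImplicit false

namespace Pool.Agent.ADS

open Finset

open Classical in
private theorem famc_set {N s g a b : ℕ} (hg : 1 ≤ g) (hb : 1 ≤ b) (h1 : s = g * b)
    (h2 : s + 2 = g * a) (hab : Nat.Coprime b a) :
    #{n ∈ Icc 2 N | ∃ w r : ℕ, w.Prime ∧ r.Prime ∧ n = w * s + 1 ∧ n + 1 = r * (s + 2)} ≤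
      #{m ∈ Icc 1 (N / (s * a)) | (a * m + 1).Prime ∧ (b * m + 1).Prime} := by
  refine (card_le_card ?_).trans (card_image_le (f := fun m => 1 + s + s * a * m))
  intro n hn
  rw [mem_filter, mem_Icc] at hn
  obtain ⟨⟨_, hnN⟩, w, r, hw, hr, e1, e2⟩ := hn
  obtain ⟨w', rfl⟩ : ∃ w', w = w' + 1 := ⟨w - 1, by have := hw.one_lt; omega⟩
  obtain ⟨r', rfl⟩ : ∃ r', r = r' + 1 := ⟨r - 1, by have := hr.one_lt; omega⟩
  have hw1 : 1 ≤ w' := by have := hw.one_lt; omega
  have h3 : w' * b = r' * a := by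
    have h : g * (w' * b) = g * (r' * a) := by
      have e3 : w' * s = r' * (s + 2) := by nlinarith
      calc g * (w' * b) = w' * (g * b) := by ring
        _ = w' * s := by rw [h1]
        _ = r' * (s + 2) := e3
        _ = r' * (g * a) := by rw [h2]
        _ = g * (r' * a) := by ring
    exact Nat.eq_of_mul_eq_mul_left hg h
  have h4 : b ∣ r' := hab.dvd_of_dvd_mul_right (h3 ▸ dvd_mul_left b w')
  obtain ⟨m, rfl⟩ := h4
  have h5 : w' = a * m := by
    have : b * w' = b * (a * m) := by rw [mul_comm b w', h3]; ring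
    exact Nat.eq_of_mul_eq_mul_left hb this
  subst h5
  have hm : 1 ≤ m := by
    rcases Nat.eq_zero_or_pos m with h | h
    · subst h; simp at hw1
    · exact h
  have hs : 1 ≤ s := by rw [h1]; exact Nat.mul_pos hg hb
  have ha : 1 ≤ a := by
    rcases Nat.eq_zero_or_pos a with h | h
    · subst h; simp at h2
    · exact h
  refine mem_image.2 ⟨m, ?_, ?_⟩
  · rw [mem_filter, mem_Icc]
    refine ⟨⟨hm, ?_⟩, hw, hr⟩
    rw [Nat.le_div_iff_mul_le (Nat.mul_pos hs ha)]
    nlinarith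
  · rw [e1]; ring

open Classical in
private theorem famc_exists {s : ℕ} (hs : 1 ≤ s) :
    ∃ a b L : ℕ, 1 ≤ a ∧ 1 ≤ b ∧ a ≠ b ∧ a + b ≤ 2 * s + 2 ∧ s ^ 2 ≤ 2 * L ∧ L ≤ 3 * s ^ 2 ∧
      ∀ N : ℕ,
        #{n ∈ Icc 2 N | ∃ w r : ℕ, w.Prime ∧ r.Prime ∧ n = w * s + 1 ∧ n + 1 = r * (s + 2)} ≤
          #{m ∈ Icc 1 (N / L) | (a * m + 1).Prime ∧ (b * m + 1).Prime} := by
  rcases Nat.even_or_odd' s with ⟨t, h | h⟩
  · refine ⟨t + 1, t, s * (t + 1), by omega, by omega, by omega, by omega, ?_, ?_, fun N => ?_⟩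
    · subst h; nlinarith
    · subst h
      have : 1 ≤ t := by omega
      nlinarith
    · exact famc_set (g := 2) (by norm_num) (by omega) h (by omega) (by simp)
  · refine ⟨s + 2, s, s * (s + 2), by omega, by omega, by omega, by omega, ?_, ?_, fun N => ?_⟩
    · nlinarith
    · nlinarith
    · refine famc_set (g := 1) (by norm_num) (by omega) (by omega) (by omega) ?_
      rw [add_comm s 2, Nat.coprime_add_self_right, Nat.coprime_two_right]
      rw [h]
      exact ⟨t, rfl⟩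

private theorem famc_log {s : ℕ} (hs : 1 ≤ s) :
    (1 + Real.log ((2 * s + 2 : ℕ) : ℝ)) ^ 2 ≤ 50 * Real.sqrt s := by
  have hs' : (1 : ℝ) ≤ s := by exact_mod_cast hs
  have h1 : Real.log ((2 * s + 2 : ℕ) : ℝ) ≤ 4 * (4 * s : ℝ) ^ (1 / 4 : ℝ) := by
    have h := Real.log_le_rpow_div (x := ((2 * s + 2 : ℕ) : ℝ)) (by positivity)
      (ε := 1 / 4) (by norm_num)
    have h2 : (((2 * s + 2 : ℕ) : ℝ)) ^ (1 / 4 : ℝ) ≤ (4 * s : ℝ) ^ (1 / 4 : ℝ) := by
      refine Real.rpow_le_rpow (by positivity) ?_ (by norm_num)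
      push_cast
      linarith
    calc _ ≤ _ := h
      _ = 4 * (((2 * s + 2 : ℕ) : ℝ)) ^ (1 / 4 : ℝ) := by ring
      _ ≤ _ := by linarith
  have h3 : (1 : ℝ) ≤ (4 * s : ℝ) ^ (1 / 4 : ℝ) := Real.one_le_rpow (by linarith) (by norm_num)
  have h0 : 0 ≤ Real.log ((2 * s + 2 : ℕ) : ℝ) := Real.log_natCast_nonneg _
  have h4 : ((4 * s : ℝ) ^ (1 / 4 : ℝ)) ^ 2 = 2 * Real.sqrt s := by
    rw [← Real.rpow_natCast, ← Real.rpow_mul (by positivity)]
    norm_num
    rw [← Real.sqrt_eq_rpow, Real.sqrt_mul (by norm_num : (0 : ℝ) ≤ 4)]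
    rw [show (4 : ℝ) = 2 ^ 2 by norm_num, Real.sqrt_sq (by norm_num)]
  calc (1 + Real.log ((2 * s + 2 : ℕ) : ℝ)) ^ 2 ≤ (5 * (4 * s : ℝ) ^ (1 / 4 : ℝ)) ^ 2 := by
        refine pow_le_pow_left₀ (by linarith) ?_ 2
        linarith
    _ = 25 * ((4 * s : ℝ) ^ (1 / 4 : ℝ)) ^ 2 := by ring
    _ = 50 * Real.sqrt s := by rw [h4]; ring

open Classical in
/-- bound for one witness -/
private theorem famc_one {C : ℝ} (hC : 0 < C)
    (hp : ∀ a b M : ℕ, 1 ≤ a → 1 ≤ b → a ≠ b → 2 ≤ M →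
      (#{m ∈ Icc 1 M | (a * m + 1).Prime ∧ (b * m + 1).Prime} : ℝ) ≤
        C * M * (1 + Real.log (a + b)) ^ 2 / Real.log M ^ 2)
    {N s : ℕ} (hN : 1296 ≤ N) (hs : 1 ≤ s) :
    (#{n ∈ Icc 2 N | ∃ w r : ℕ, w.Prime ∧ r.Prime ∧ n = w * s + 1 ∧ n + 1 = r * (s + 2)} : ℝ) ≤
      (400 * C + 2048) * (N / Real.log N ^ 2) * (1 / (s * Real.sqrt s)) := by
  obtain ⟨a, b, L, ha, hb, hab, hsum, hL1, hL2, hle⟩ := famc_exists hs
  have hle := hle N
  have hs' : (1 : ℝ) ≤ s := by exact_mod_cast hs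
  have hN' : (1296 : ℝ) ≤ N := by exact_mod_cast hN
  have hL0 : 0 < L := by nlinarith
  have hLr : (s : ℝ) ^ 2 ≤ 2 * L := by exact_mod_cast hL1
  have hL0r : (0 : ℝ) < L := by exact_mod_cast hL0
  have hlN : 0 < Real.log N := Real.log_pos (by linarith)
  have hsq : 0 < Real.sqrt s := Real.sqrt_pos.2 (by linarith)
  have hss : Real.sqrt s * Real.sqrt s = s := Real.mul_self_sqrt (by linarith)
  have hdiv : ((N / L : ℕ) : ℝ) ≤ 2 * N / (s : ℝ) ^ 2 := by
    refine (Nat.cast_div_le).trans ?_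
    rw [div_le_div_iff₀ hL0r (by positivity)]
    nlinarith
  have hkey : (2 * N / (s : ℝ) ^ 2) * Real.sqrt s = 2 * N * (1 / (s * Real.sqrt s)) := by
    have : (s : ℝ) ^ 2 = s * Real.sqrt s * Real.sqrt s := by rw [mul_assoc, hss]; ring
    rw [this]
    field_simp
  by_cases hcase : s ^ 8 ≤ N
  · -- few witnesses: sieve
    set M := N / L with hM
    have hL4 : L ^ 4 ≤ 81 * N := by
      calc L ^ 4 ≤ (3 * s ^ 2) ^ 4 := Nat.pow_le_pow_left hL2 4
        _ = 81 * s ^ 8 := by ring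
        _ ≤ 81 * N := by omega
    have hMN : N ≤ M ^ 2 := by
      by_contra hlt
      push Not at hlt
      have h1 : N < L * (M + 1) := by
        have := Nat.lt_mul_div_succ N hL0
        simpa [hM] using this
      have hM1 : 1 ≤ M := by
        rcases Nat.eq_zero_or_pos M with h | h
        · exfalso
          rw [h] at h1
          have h2 : N ^ 4 < L ^ 4 := Nat.pow_lt_pow_left (by omega) (by norm_num)
          have h3 : N ^ 4 < 81 * N := by omega
          have h4 : 81 * N ≤ N ^ 4 := by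
            have : 81 ≤ N ^ 3 := by
              calc 81 ≤ N := by omega
                _ ≤ N ^ 3 := Nat.le_self_pow (by norm_num) N
            calc 81 * N ≤ N ^ 3 * N := Nat.mul_le_mul_right _ this
              _ = N ^ 4 := by ring
          omega
        · exact h
      have h2 : N < 2 * (L * M) := by nlinarith
      have h3 : N ^ 4 < (2 * (L * M)) ^ 4 := Nat.pow_lt_pow_left h2 (by norm_num)
      have h4 : (2 * (L * M)) ^ 4 = 16 * (L ^ 4 * (M ^ 2) ^ 2) := by ring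
      have h5 : 16 * (L ^ 4 * (M ^ 2) ^ 2) ≤ 16 * (81 * N * N ^ 2) := by
        have : (M ^ 2) ^ 2 ≤ N ^ 2 := Nat.pow_le_pow_left hlt.le 2
        exact Nat.mul_le_mul_left _ (Nat.mul_le_mul hL4 this)
      have h6 : 16 * (81 * N * N ^ 2) = 1296 * N ^ 3 := by ring
      have h7 : 1296 * N ^ 3 ≤ N ^ 4 := by
        calc 1296 * N ^ 3 ≤ N * N ^ 3 := Nat.mul_le_mul_right _ hN
          _ = N ^ 4 := by ring
      omega
    have hM2 : 2 ≤ M := by nlinarith
    have hMr : (N : ℝ) ≤ (M : ℝ) ^ 2 := by exact_mod_cast hMN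
    have hM2r : (2 : ℝ) ≤ M := by exact_mod_cast hM2
    have hlM : Real.log N ≤ 2 * Real.log M := by
      have := Real.log_le_log (by linarith : (0 : ℝ) < N) hMr
      rwa [Real.log_pow] at this
    have hlM0 : 0 < Real.log M := Real.log_pos (by linarith)
    have h1 := hp a b M ha hb hab hM2
    have hlog : (1 + Real.log ((a : ℝ) + b)) ^ 2 ≤ 50 * Real.sqrt s := by
      refine le_trans (pow_le_pow_left₀ ?_ ?_ 2) (famc_log hs)
      · have : 0 ≤ Real.log ((a : ℝ) + b) := by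
          have := Real.log_natCast_nonneg (a + b)
          simpa using this
        linarith
      · have h2 : Real.log ((a : ℝ) + b) ≤ Real.log ((2 * s + 2 : ℕ) : ℝ) := by
          refine Real.log_le_log ?_ ?_
          · have : (1 : ℝ) ≤ a := by exact_mod_cast ha
            positivity
          · exact_mod_cast hsum
        linarith
    have h2 : (#{m ∈ Icc 1 M | (a * m + 1).Prime ∧ (b * m + 1).Prime} : ℝ) ≤
        C * (2 * N / (s : ℝ) ^ 2) * (50 * Real.sqrt s) / (Real.log N / 2) ^ 2 := by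
      refine h1.trans ?_
      refine div_le_div₀ (by positivity) ?_ (by positivity) ?_
      · refine mul_le_mul ?_ hlog (by positivity) (by positivity)
        exact mul_le_mul_of_nonneg_left hdiv hC.le
      · exact pow_le_pow_left₀ (by positivity) (by linarith) 2
    refine (Nat.cast_le.2 hle).trans (h2.trans ?_)
    have h3 : C * (2 * N / (s : ℝ) ^ 2) * (50 * Real.sqrt s) / (Real.log N / 2) ^ 2 =
        400 * C * (N / Real.log N ^ 2) * (1 / (s * Real.sqrt s)) := by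
      calc C * (2 * N / (s : ℝ) ^ 2) * (50 * Real.sqrt s) / (Real.log N / 2) ^ 2
          = C * 50 * ((2 * N / (s : ℝ) ^ 2) * Real.sqrt s) * (4 / Real.log N ^ 2) := by
            field_simp
            ring
        _ = 400 * C * (N / Real.log N ^ 2) * (1 / (s * Real.sqrt s)) := by
            rw [hkey]
            ring
    rw [h3]
    have h4 : 0 ≤ (N / Real.log N ^ 2) * (1 / (s * Real.sqrt s)) := by positivity
    nlinarith
  · -- large witness: trivial bound
    push Not at hcase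
    have h1 : #{m ∈ Icc 1 (N / L) | (a * m + 1).Prime ∧ (b * m + 1).Prime} ≤ N / L := by
      refine (card_filter_le _ _).trans ?_
      simp
    have h2 : (#{n ∈ Icc 2 N | ∃ w r : ℕ, w.Prime ∧ r.Prime ∧ n = w * s + 1 ∧
        n + 1 = r * (s + 2)} : ℝ) ≤ 2 * N / (s : ℝ) ^ 2 :=
      (Nat.cast_le.2 (hle.trans h1)).trans hdiv
    refine h2.trans ?_
    have h3 : Real.log N ^ 2 ≤ 1024 * Real.sqrt s := by
      have h4 : Real.log N ≤ 32 * (s : ℝ) ^ (1 / 4 : ℝ) := by
        have h5 := Real.log_le_rpow_div (x := (N : ℝ)) (by positivity)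
          (ε := 1 / 32) (by norm_num)
        have h6 : (N : ℝ) ^ (1 / 32 : ℝ) ≤ (s : ℝ) ^ (1 / 4 : ℝ) := by
          have h7 : (N : ℝ) ≤ (s : ℝ) ^ (8 : ℕ) := by exact_mod_cast hcase.le
          calc (N : ℝ) ^ (1 / 32 : ℝ) ≤ ((s : ℝ) ^ (8 : ℕ)) ^ (1 / 32 : ℝ) :=
                Real.rpow_le_rpow (by positivity) h7 (by norm_num)
            _ = (s : ℝ) ^ (1 / 4 : ℝ) := by
                rw [← Real.rpow_natCast, ← Real.rpow_mul (by positivity)]
                norm_num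
        calc Real.log N ≤ _ := h5
          _ = 32 * (N : ℝ) ^ (1 / 32 : ℝ) := by ring
          _ ≤ _ := by linarith
      have h8 : ((s : ℝ) ^ (1 / 4 : ℝ)) ^ 2 = Real.sqrt s := by
        rw [← Real.rpow_natCast, ← Real.rpow_mul (by positivity), Real.sqrt_eq_rpow]
        norm_num
      calc Real.log N ^ 2 ≤ (32 * (s : ℝ) ^ (1 / 4 : ℝ)) ^ 2 :=
            pow_le_pow_left₀ hlN.le h4 2
        _ = 1024 * ((s : ℝ) ^ (1 / 4 : ℝ)) ^ 2 := by ring
        _ = 1024 * Real.sqrt s := by rw [h8]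
    have h5 : 2 * N / (s : ℝ) ^ 2 ≤ 2048 * (N / Real.log N ^ 2) * (1 / (s * Real.sqrt s)) := by
      have h6 : 2 * N / (s : ℝ) ^ 2 = 2 * N * (1 / (s * Real.sqrt s)) / Real.sqrt s := by
        rw [← hkey]
        field_simp
      rw [h6, div_le_iff₀ hsq]
      have h7 : 2048 * (N / Real.log N ^ 2) * (1 / (s * Real.sqrt s)) * Real.sqrt s =
          (2 * N * (1 / (s * Real.sqrt s))) * ((1024 * Real.sqrt s) / Real.log N ^ 2) := by
        ring
      rw [h7]
      refine le_mul_of_one_le_right (by positivity) ?_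
      rw [one_le_div (by positivity)]
      exact h3
    refine h5.trans ?_
    have h4 : 0 ≤ (N / Real.log N ^ 2) * (1 / (s * Real.sqrt s)) := by positivity
    nlinarith [mul_nonneg hC.le h4]

private theorem famc_summable : Summable fun s : ℕ => 1 / ((s : ℝ) * Real.sqrt s) := by
  have h : (fun s : ℕ => 1 / ((s : ℝ) * Real.sqrt s)) = fun s : ℕ => 1 / (s : ℝ) ^ (3 / 2 : ℝ) := by
    funext s
    congr 1
    rcases Nat.eq_zero_or_pos s with h | h
    · subst h
      simp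
    · have : (0 : ℝ) < s := by exact_mod_cast h
      rw [Real.sqrt_eq_rpow, show (3 / 2 : ℝ) = 1 + 1 / 2 by norm_num, Real.rpow_add this,
        Real.rpow_one]
  rw [h]
  exact Real.summable_one_div_nat_rpow.2 (by norm_num)

open Classical in
theorem fam_count : ∃ C : ℝ, 0 < C ∧ ∀ N : ℕ, 2 ≤ N →
    (#{n ∈ Icc 2 N | Fam n} : ℝ) ≤ C * N / Real.log N ^ 2 := by
  obtain ⟨C, hC, hp⟩ := pair_primes
  set S : ℝ := ∑' s : ℕ, 1 / ((s : ℝ) * Real.sqrt s) with hS
  have hS0 : 0 ≤ S := tsum_nonneg fun s => by positivity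
  refine ⟨(400 * C + 2048) * S + 64, by positivity, fun N hN => ?_⟩
  have hN' : (2 : ℝ) ≤ N := by exact_mod_cast hN
  have hlN : 0 < Real.log N := Real.log_pos (by linarith)
  rcases lt_or_ge N 1296 with hsmall | hlarge
  · have h1 : (#{n ∈ Icc 2 N | Fam n} : ℝ) ≤ N := by
      refine Nat.cast_le.2 ((card_filter_le _ _).trans ?_)
      simp
    refine h1.trans ?_
    rw [le_div_iff₀ (by positivity)]
    have h2 : Real.log N ≤ 8 := by
      have h3 : (N : ℝ) ≤ Real.exp 8 := by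
        have h4 : (N : ℝ) ≤ 1296 := by exact_mod_cast hsmall.le
        have h5 : (2.7 : ℝ) ^ 8 ≤ Real.exp 8 := by
          have := Real.exp_one_gt_d9
          rw [show (8 : ℝ) = ((8 : ℕ) : ℝ) * 1 by norm_num, Real.exp_nat_mul]
          exact pow_le_pow_left₀ (by norm_num) (by linarith) 8
        refine h4.trans (le_trans ?_ h5)
        norm_num
      have := Real.log_le_log (by linarith) h3
      rwa [Real.log_exp] at this
    have h3 : Real.log N ^ 2 ≤ 64 := by nlinarith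
    have h4 : (0 : ℝ) ≤ (400 * C + 2048) * S := by positivity
    nlinarith
  · have hsub : ({n ∈ Icc 2 N | Fam n} : Finset ℕ) ⊆ (Icc 1 N).biUnion fun s =>
        {n ∈ Icc 2 N | ∃ w r : ℕ, w.Prime ∧ r.Prime ∧ n = w * s + 1 ∧ n + 1 = r * (s + 2)} := by
      intro n hn
      rw [mem_filter, mem_Icc] at hn
      obtain ⟨⟨h1, h2⟩, s, w, r, hs, hsn, hw, hr, e1, e2⟩ := hn
      rw [mem_biUnion]
      refine ⟨s, mem_Icc.2 ⟨hs, ?_⟩, ?_⟩
      · have := hw.one_lt
        nlinarith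
      · rw [mem_filter, mem_Icc]
        exact ⟨⟨h1, h2⟩, w, r, hw, hr, e1, e2⟩
    have h1 : (#{n ∈ Icc 2 N | Fam n} : ℝ) ≤
        ∑ s ∈ Icc 1 N, (#{n ∈ Icc 2 N | ∃ w r : ℕ, w.Prime ∧ r.Prime ∧ n = w * s + 1 ∧
          n + 1 = r * (s + 2)} : ℝ) := by
      have := (card_le_card hsub).trans card_biUnion_le
      exact_mod_cast this
    have h2 : ∑ s ∈ Icc 1 N, (#{n ∈ Icc 2 N | ∃ w r : ℕ, w.Prime ∧ r.Prime ∧ n = w * s + 1 ∧
          n + 1 = r * (s + 2)} : ℝ) ≤
        ∑ s ∈ Icc 1 N, (400 * C + 2048) * (N / Real.log N ^ 2) * (1 / (s * Real.sqrt s)) :=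
      sum_le_sum fun s hs => famc_one hC hp hlarge (mem_Icc.1 hs).1
    have h3 : ∑ s ∈ Icc 1 N, 1 / ((s : ℝ) * Real.sqrt s) ≤ S :=
      famc_summable.sum_le_tsum _ fun s _ => by positivity
    rw [← mul_sum] at h2
    refine h1.trans (h2.trans ?_)
    have h4 : (400 * C + 2048) * (N / Real.log N ^ 2) * ∑ s ∈ Icc 1 N, 1 / ((s : ℝ) * Real.sqrt s)
        ≤ (400 * C + 2048) * (N / Real.log N ^ 2) * S :=
      mul_le_mul_of_nonneg_left h3 (by positivity)
    refine h4.trans ?_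
    have h5 : (400 * C + 2048) * (N / Real.log N ^ 2) * S =
        ((400 * C + 2048) * S) * N / Real.log N ^ 2 := by ring
    rw [h5]
    refine div_le_div_of_nonneg_right ?_ (by positivity)
    nlinarith

end Pool.Agent.ADS
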