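import Mathlib

/-!
# MP_cfcc59_co, project ADS: definitions

Abelian collineation groups of type (d) and affine difference sets; the arithmetic family `Fam`.
-/

set_option autoImplicit false

namespace Pool.Agent.ADS

open Finset

/-- `n` is the order of a finite projective plane with an abelian collineation group of type (d):
it fixes a point `p` and a line `ℓ` not through `p` and is regular on the points which differ from
`p` and are not on `ℓ`. -/
def TypeD (n : ℕ) : Prop :=
  ∃ (P L : Type) (_ : Membership P L) (_ : Configuration.ProjectivePlane P L)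
    (_ : Fintype P) (_ : Fintype L) (G : Type) (_ : CommGroup G)
    (φ : G →* Equiv.Perm P) (ψ : G →* Equiv.Perm L),
    Configuration.ProjectivePlane.order P L = n ∧
    (∀ (g : G) (p : P) (l : L), p ∈ l ↔ φ g p ∈ ψ g l) ∧
    ∃ (p : P) (ℓ : L), p ∉ ℓ ∧ (∀ g : G, φ g p = p ∧ ψ g ℓ = ℓ) ∧
      ∀ x y : P, x ∉ ℓ → x ≠ p → y ∉ ℓ → y ≠ p → ∃! g : G, φ g x = y

/-- `D` is an affine difference set of order `n` in the finite abelian group `G` relative to the
subgroup `N`. -/
structure Aff {G : Type} [CommGroup G] [Fintype G] [DecidableEq G] (n : ℕ) (N : Subgroup G)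
    (D : Finset G) : Prop where
  hn : 2 ≤ n
  cardG : Fintype.card G = n ^ 2 - 1
  cardN : Nat.card N = n - 1
  cardD : #D = n
  one : ∀ a : G, a ∉ N → #{x ∈ D ×ˢ D | x.1 = a * x.2} = 1
  zero : ∀ a : G, a ∈ N → a ≠ 1 → #{x ∈ D ×ˢ D | x.1 = a * x.2} = 0

/-- The exceptional family of the counting argument: `n - 1 = w s`, `n + 1 = r (s + 2)` with primes
`w`, `r` and `s ^ 2 ≤ n`. -/
def Fam (n : ℕ) : Prop :=
  ∃ s w r : ℕ, 1 ≤ s ∧ s ^ 2 ≤ n ∧ w.Prime ∧ r.Prime ∧ n = w * s + 1 ∧ n + 1 = r * (s + 2)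

end Pool.Agent.ADS
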