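import Mathlib
import Pool.Agent.Lib.MP_cfcc59_co.ADS.Defs

/-!
# Project ADS, module Ord

Few `n` have a large prime `w` dividing `n - 1` modulo which the least prime factor of `n` has
small order.
-/

namespace Pool.Agent.ADS

open Finset

/-- the primes `w > W` which divide some `p ^ j - 1`, `1 ≤ j ≤ Z` -/
private def ordB (Z W p : ℕ) : Finset ℕ :=
  ((Icc 1 Z).biUnion fun j => (p ^ j - 1).primeFactors).filter fun w => W < w

private theorem ord_card_primeFactors {m : ℕ} (hm : m ≠ 0) : 2 ^ m.primeFactors.card ≤ m := by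
  have h1 : 2 ^ m.primeFactors.card ≤ ∏ q ∈ m.primeFactors, q :=
    Finset.pow_card_le_prod _ _ _ fun q hq => (Nat.prime_of_mem_primeFactors hq).two_le
  exact h1.trans (Nat.le_of_dvd (Nat.pos_of_ne_zero hm) (Nat.prod_primeFactors_dvd m))

private theorem ord_pow_sub {p j : ℕ} (hp : 2 ≤ p) (hj : 1 ≤ j) : p ^ j - 1 ≠ 0 := by
  have h1 : 2 ≤ p ^ j := hp.trans (Nat.le_self_pow (by omega) p)
  omega

private theorem ord_card_one {N Z p j : ℕ} (hp : 2 ≤ p) (hpN : p ^ 2 ≤ N)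
    (hj : 1 ≤ j) (hjZ : j ≤ Z) :
    ((p ^ j - 1).primeFactors.card : ℝ) ≤ Z * (2 * Real.log N) := by
  have h1 : 2 ^ (p ^ j - 1).primeFactors.card ≤ p ^ j :=
    (ord_card_primeFactors (ord_pow_sub hp hj)).trans (Nat.sub_le _ _)
  have h2 : ((p ^ j - 1).primeFactors.card : ℝ) * Real.log 2 ≤ j * Real.log p := by
    have h3 : Real.log ((2:ℝ) ^ (p ^ j - 1).primeFactors.card) ≤ Real.log ((p:ℝ) ^ j) := by
      apply Real.log_le_log (by positivity)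
      exact_mod_cast h1
    rwa [Real.log_pow, Real.log_pow] at h3
  have hp0 : (0:ℝ) < p := by exact_mod_cast (by omega : 0 < p)
  have h3 : 2 * Real.log p ≤ Real.log N := by
    have h4 : Real.log ((p:ℝ) ^ 2) ≤ Real.log N := by
      apply Real.log_le_log (by positivity)
      exact_mod_cast hpN
    rw [Real.log_pow] at h4
    simpa using h4
  have h5 : 0 ≤ Real.log p := Real.log_nonneg (by exact_mod_cast (by omega : 1 ≤ p))
  have h6 : (j:ℝ) ≤ Z := by exact_mod_cast hjZ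
  have h7 : (1:ℝ) / 2 < Real.log 2 := by
    have := Real.log_two_gt_d9
    linarith
  have h8 : (0:ℝ) ≤ ((p ^ j - 1).primeFactors.card : ℝ) := Nat.cast_nonneg _
  have h9 : (j:ℝ) * Real.log p ≤ Z * Real.log p := by gcongr
  have h10 : (0:ℝ) ≤ Z := Nat.cast_nonneg _
  nlinarith

private theorem ord_card_B {N Z W p : ℕ} (hp : 2 ≤ p) (hpN : p ^ 2 ≤ N) :
    ((ordB Z W p).card : ℝ) ≤ (Z : ℝ) ^ 2 * (2 * Real.log N) := by
  have h1 : (ordB Z W p).card ≤ ∑ j ∈ Icc 1 Z, (p ^ j - 1).primeFactors.card :=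
    (Finset.card_filter_le _ _).trans Finset.card_biUnion_le
  have h2 : ((ordB Z W p).card : ℝ) ≤ ∑ j ∈ Icc 1 Z, ((p ^ j - 1).primeFactors.card : ℝ) := by
    exact_mod_cast h1
  refine h2.trans ?_
  calc ∑ j ∈ Icc 1 Z, ((p ^ j - 1).primeFactors.card : ℝ)
      ≤ ∑ _j ∈ Icc 1 Z, (Z:ℝ) * (2 * Real.log N) := by
        apply Finset.sum_le_sum
        intro j hj
        rw [Finset.mem_Icc] at hj
        exact ord_card_one hp hpN hj.1 hj.2
    _ = (Z : ℝ) ^ 2 * (2 * Real.log N) := by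
        rw [Finset.sum_const, Nat.card_Icc, Nat.add_sub_cancel, nsmul_eq_mul]
        ring

private theorem ord_card_class {N p w : ℕ} (hc : Nat.Coprime p w) :
    ((Icc 2 N).filter fun n => p ∣ n ∧ w ∣ n - 1).card ≤ N / (p * w) + 1 := by
  have h1 : ((Icc 2 N).filter fun n => p ∣ n ∧ w ∣ n - 1).card ≤
      (Finset.range (N / (p * w) + 1)).card := by
    apply Finset.card_le_card_of_injOn (fun n => n / (p * w))
    · intro n hn
      rw [Finset.mem_coe, Finset.mem_filter, Finset.mem_Icc] at hn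
      rw [Finset.mem_coe, Finset.mem_range]
      exact Nat.lt_succ_of_le (Nat.div_le_div_right hn.1.2)
    · intro n hn n' hn' he
      rw [Finset.mem_coe, Finset.mem_filter, Finset.mem_Icc] at hn hn'
      have h2 : n ≡ n' [MOD p] := by
        have h3 : n ≡ 0 [MOD p] := (Nat.modEq_zero_iff_dvd).2 hn.2.1
        have h4 : n' ≡ 0 [MOD p] := (Nat.modEq_zero_iff_dvd).2 hn'.2.1
        exact h3.trans h4.symm
      have h3 : n ≡ n' [MOD w] := by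
        have h4 : 1 ≡ n [MOD w] := (Nat.modEq_iff_dvd' (by omega)).2 hn.2.2
        have h5 : 1 ≡ n' [MOD w] := (Nat.modEq_iff_dvd' (by omega)).2 hn'.2.2
        exact h4.symm.trans h5
      have h4 : n ≡ n' [MOD p * w] := (Nat.modEq_and_modEq_iff_modEq_mul hc).1 ⟨h2, h3⟩
      have h5 : n / (p * w) = n' / (p * w) := he
      have h6 : n % (p * w) = n' % (p * w) := h4
      rw [← Nat.div_add_mod n (p * w), ← Nat.div_add_mod n' (p * w), h5, h6]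
  simpa using h1

private theorem ord_mem_B {Z W p w : ℕ} (hp : 2 ≤ p) (hw : w ∈ ordB Z W p) :
    0 < w ∧ W < w ∧ Nat.Coprime p w := by
  unfold ordB at hw
  rw [Finset.mem_filter, Finset.mem_biUnion] at hw
  obtain ⟨⟨j, hj, hw1⟩, hw2⟩ := hw
  rw [Finset.mem_Icc] at hj
  have hwp := Nat.prime_of_mem_primeFactors hw1
  have hwd := Nat.dvd_of_mem_primeFactors hw1
  refine ⟨hwp.pos, hw2, ?_⟩
  rw [Nat.coprime_comm, hwp.coprime_iff_not_dvd]
  intro h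
  have h1 : w ∣ p ^ j := dvd_pow h (by omega)
  have h2 : 1 ≤ p ^ j := Nat.one_le_pow _ _ (by omega)
  have h3 : w ∣ 1 := by
    have h4 := Nat.dvd_sub h1 hwd
    rwa [Nat.sub_sub_self h2] at h4
  exact hwp.one_lt.ne' (Nat.dvd_one.1 h3)

open Classical in
theorem small_order {N Z W : ℕ} (hN : 2 ≤ N) (hZ : 1 ≤ Z) (hW : 1 ≤ W) :
    (#{n ∈ Icc 2 N | ¬ n.Prime ∧ ∃ w j : ℕ, w.Prime ∧ W < w ∧ w ∣ n - 1 ∧ 1 ≤ j ∧ j ≤ Z ∧
        w ∣ n.minFac ^ j - 1} : ℝ) ≤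
      (N * (1 + Real.log N) / W + Real.sqrt N) * ((Z : ℝ) ^ 2 * (2 * Real.log N)) := by
  have hWr : (0:ℝ) < W := by exact_mod_cast (by omega : 0 < W)
  have hNr : (0:ℝ) ≤ N := Nat.cast_nonneg _
  have hlog : 0 ≤ Real.log N := Real.log_nonneg (by exact_mod_cast (by omega : 1 ≤ N))
  have hsub : {n ∈ Icc 2 N | ¬ n.Prime ∧ ∃ w j : ℕ, w.Prime ∧ W < w ∧ w ∣ n - 1 ∧ 1 ≤ j ∧ j ≤ Z ∧
        w ∣ n.minFac ^ j - 1} ⊆ (Icc 2 (Nat.sqrt N)).biUnion fun p => (ordB Z W p).biUnion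
          fun w => (Icc 2 N).filter fun n => p ∣ n ∧ w ∣ n - 1 := by
    intro n hn
    rw [Finset.mem_filter, Finset.mem_Icc] at hn
    obtain ⟨⟨hn2, hnN⟩, hnp, w, j, hw, hWw, hwn, hj, hjZ, hwj⟩ := hn
    have hmp : n.minFac.Prime := Nat.minFac_prime (by omega)
    have hsq : n.minFac ^ 2 ≤ n := Nat.minFac_sq_le_self (by omega) hnp
    rw [Finset.mem_biUnion]
    refine ⟨n.minFac, Finset.mem_Icc.2 ⟨hmp.two_le, Nat.le_sqrt'.2 (hsq.trans hnN)⟩, ?_⟩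
    rw [Finset.mem_biUnion]
    refine ⟨w, ?_, ?_⟩
    · unfold ordB
      rw [Finset.mem_filter, Finset.mem_biUnion]
      exact ⟨⟨j, Finset.mem_Icc.2 ⟨hj, hjZ⟩,
        Nat.mem_primeFactors.2 ⟨hw, hwj, ord_pow_sub hmp.two_le hj⟩⟩, hWw⟩
    · rw [Finset.mem_filter, Finset.mem_Icc]
      exact ⟨⟨hn2, hnN⟩, Nat.minFac_dvd n, hwn⟩
  have h1 : (#{n ∈ Icc 2 N | ¬ n.Prime ∧ ∃ w j : ℕ, w.Prime ∧ W < w ∧ w ∣ n - 1 ∧ 1 ≤ j ∧ j ≤ Z ∧
        w ∣ n.minFac ^ j - 1} : ℝ) ≤ ∑ p ∈ Icc 2 (Nat.sqrt N), ∑ w ∈ ordB Z W p,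
          (((Icc 2 N).filter fun n => p ∣ n ∧ w ∣ n - 1).card : ℝ) := by
    have h2 := (Finset.card_le_card hsub).trans (Finset.card_biUnion_le.trans
      (Finset.sum_le_sum fun p _ => Finset.card_biUnion_le))
    exact_mod_cast h2
  refine h1.trans ?_
  have h2 : ∀ p ∈ Icc 2 (Nat.sqrt N), ∑ w ∈ ordB Z W p,
      (((Icc 2 N).filter fun n => p ∣ n ∧ w ∣ n - 1).card : ℝ) ≤
        (N / W * (p:ℝ)⁻¹ + 1) * ((Z : ℝ) ^ 2 * (2 * Real.log N)) := by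
    intro p hp
    rw [Finset.mem_Icc] at hp
    have hp0 : (0:ℝ) < p := by exact_mod_cast (by omega : 0 < p)
    have h3 : ∀ w ∈ ordB Z W p, (((Icc 2 N).filter fun n => p ∣ n ∧ w ∣ n - 1).card : ℝ) ≤
        N / W * (p:ℝ)⁻¹ + 1 := by
      intro w hw
      obtain ⟨hw0, hWw, hc⟩ := ord_mem_B hp.1 hw
      have h4 := ord_card_class (N := N) hc
      have h5 : (((Icc 2 N).filter fun n => p ∣ n ∧ w ∣ n - 1).card : ℝ) ≤
          ((N / (p * w) + 1 : ℕ) : ℝ) := by exact_mod_cast h4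
      refine h5.trans ?_
      push_cast
      have h6 : ((N / (p * w) : ℕ) : ℝ) ≤ (N:ℝ) / ((p * w : ℕ) : ℝ) := Nat.cast_div_le
      have h7 : (N:ℝ) / ((p * w : ℕ) : ℝ) ≤ N / W * (p:ℝ)⁻¹ := by
        push_cast
        rw [div_mul_eq_mul_div, ← div_eq_mul_inv, div_div, mul_comm (p:ℝ) (w:ℝ)]
        have hWw' : (W:ℝ) ≤ w := by exact_mod_cast hWw.le
        calc (N:ℝ) / (w * p) ≤ N / (W * p) := by gcongr
          _ = N / (p * W) := by rw [mul_comm (W:ℝ)]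
      linarith
    calc ∑ w ∈ ordB Z W p, (((Icc 2 N).filter fun n => p ∣ n ∧ w ∣ n - 1).card : ℝ)
        ≤ ∑ _w ∈ ordB Z W p, (N / W * (p:ℝ)⁻¹ + 1) := Finset.sum_le_sum h3
      _ = (ordB Z W p).card * (N / W * (p:ℝ)⁻¹ + 1) := by
          rw [Finset.sum_const, nsmul_eq_mul]
      _ ≤ ((Z : ℝ) ^ 2 * (2 * Real.log N)) * (N / W * (p:ℝ)⁻¹ + 1) := by
          gcongr
          exact ord_card_B hp.1 (Nat.le_sqrt'.1 hp.2)
      _ = _ := by ring
  refine (Finset.sum_le_sum h2).trans ?_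
  rw [← Finset.sum_mul]
  have hK : 0 ≤ (Z : ℝ) ^ 2 * (2 * Real.log N) := by positivity
  refine mul_le_mul_of_nonneg_right ?_ hK
  rw [Finset.sum_add_distrib, ← Finset.mul_sum]
  have h3 : ∑ p ∈ Icc 2 (Nat.sqrt N), ((p:ℝ))⁻¹ ≤ 1 + Real.log N := by
    have h4 : ∑ p ∈ Icc 2 (Nat.sqrt N), ((p:ℝ))⁻¹ ≤ ∑ p ∈ Icc 1 N, ((p:ℝ))⁻¹ := by
      apply Finset.sum_le_sum_of_subset_of_nonneg
      · intro p hp
        rw [Finset.mem_Icc] at hp ⊢
        exact ⟨by omega, hp.2.trans (Nat.sqrt_le_self N)⟩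
      · intro p _ _
        positivity
    have h5 : ∑ p ∈ Icc 1 N, ((p:ℝ))⁻¹ = (harmonic N : ℝ) := by
      rw [harmonic_eq_sum_Icc]
      push_cast
      rfl
    rw [h5] at h4
    exact h4.trans (harmonic_le_one_add_log N)
  have h6 : ∑ _p ∈ Icc 2 (Nat.sqrt N), (1:ℝ) ≤ Real.sqrt N := by
    rw [Finset.sum_const, nsmul_eq_mul, mul_one, Nat.card_Icc]
    have h7 : ((Nat.sqrt N + 1 - 2 : ℕ) : ℝ) ≤ (Nat.sqrt N : ℝ) := by
      exact_mod_cast (by omega : Nat.sqrt N + 1 - 2 ≤ Nat.sqrt N)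
    exact h7.trans (Real.nat_sqrt_le_real_sqrt)
  have h7 : (N:ℝ) / W * ∑ p ∈ Icc 2 (Nat.sqrt N), ((p:ℝ))⁻¹ ≤ N * (1 + Real.log N) / W := by
    calc (N:ℝ) / W * ∑ p ∈ Icc 2 (Nat.sqrt N), ((p:ℝ))⁻¹ ≤ N / W * (1 + Real.log N) := by
          gcongr
      _ = _ := by ring
  linarith

end Pool.Agent.ADS
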