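import Pool.Agent.Lib.MP_cfcc59_co.ADS.Defs

set_option autoImplicit false

/-!
# MP_cfcc59_co, project ADS, module Smooth: Rankin bounds for smooth numbers
-/

namespace Pool.Agent.ADS

open Finset

/-- the completely multiplicative function `m ↦ m ^ s` -/
private noncomputable def smooth_f (s : ℝ) : ℕ →* ℝ where
  toFun m := (m : ℝ) ^ s
  map_one' := by simp
  map_mul' a b := by
    push_cast
    exact Real.mul_rpow (Nat.cast_nonneg a) (Nat.cast_nonneg b)

private theorem smooth_log {y : ℕ} (hy : 16 ≤ y) : 4 * Real.log 2 ≤ Real.log y := by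
  have h1 : (4 : ℝ) * Real.log 2 = Real.log ((2 : ℝ) ^ (4 : ℕ)) := by
    rw [Real.log_pow]
    norm_num
  rw [h1]
  apply Real.log_le_log (by norm_num)
  have : ((16 : ℕ) : ℝ) ≤ y := by exact_mod_cast hy
  norm_num at this ⊢
  exact this

private theorem smooth_log_pos {y : ℕ} (hy : 16 ≤ y) : 0 < Real.log y :=
  lt_of_lt_of_le (by have := Real.log_pos (by norm_num : (1 : ℝ) < 2); positivity)
    (smooth_log hy)

private theorem smooth_eta {y : ℕ} (hy : 16 ≤ y) :
    0 < 1 / Real.log y ∧ 1 / Real.log y < 1 / 2 := by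
  have h1 := smooth_log hy
  have h2 := smooth_log_pos hy
  refine ⟨by positivity, ?_⟩
  apply one_div_lt_one_div_of_lt (by norm_num)
  have := Real.log_two_gt_d9
  linarith

/-- the factor of a prime number -/
private theorem smooth_factor {y : ℕ} (hy : 16 ≤ y) {l : ℕ} (hl : 2 ≤ l) (hly : l < y) :
    0 ≤ (l : ℝ) ^ (-1 + 1 / Real.log y) ∧ (l : ℝ) ^ (-1 + 1 / Real.log y) ≤ 65 / 100 ∧
      (1 - (l : ℝ) ^ (-1 + 1 / Real.log y))⁻¹ ≤ Real.exp (8 * (l : ℝ)⁻¹) := by
  have hlog := smooth_log hy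
  have hlog0 := smooth_log_pos hy
  obtain ⟨he0, he1⟩ := smooth_eta hy
  have hl2 : (2 : ℝ) ≤ l := by exact_mod_cast hl
  have hl0 : (0 : ℝ) < l := by linarith
  set x : ℝ := (l : ℝ) ^ (-1 + 1 / Real.log y) with hx
  have hx0 : 0 ≤ x := Real.rpow_nonneg hl0.le _
  have hlog2 : 0 < Real.log 2 := Real.log_pos (by norm_num)
  have hx1 : x ≤ 65 / 100 := by
    have h1 : x ≤ (2 : ℝ) ^ (-1 + 1 / Real.log y) :=
      Real.rpow_le_rpow_of_nonpos (by norm_num) hl2 (by linarith)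
    have h2 : (2 : ℝ) ^ (-1 + 1 / Real.log y) ≤ 1 / 2 * Real.exp (1 / 4) := by
      rw [Real.rpow_add (by norm_num), Real.rpow_neg_one, Real.rpow_def_of_pos (by norm_num)]
      have h3 : Real.log 2 * (1 / Real.log y) ≤ 1 / 4 := by
        rw [mul_one_div, div_le_div_iff₀ hlog0 (by norm_num)]
        linarith
      have h4 := Real.exp_le_exp.2 h3
      linarith
    have h5 : Real.exp (1 / 4) ≤ 13 / 10 := by
      have h6 : Real.exp (1 / 4) ^ (4 : ℕ) = Real.exp 1 := by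
        rw [← Real.exp_nat_mul]
        norm_num
      have h7 := Real.exp_one_lt_d9
      by_contra h8
      push Not at h8
      have h9 : (13 / 10 : ℝ) ^ (4 : ℕ) < Real.exp (1 / 4) ^ (4 : ℕ) :=
        pow_lt_pow_left₀ h8 (by norm_num) (by norm_num)
      rw [h6] at h9
      norm_num at h9
      linarith
    linarith
  refine ⟨hx0, hx1, ?_⟩
  have hpos : (35 : ℝ) / 100 ≤ 1 - x := by linarith
  have hle : x ≤ Real.exp 1 * (l : ℝ)⁻¹ := by
    rw [hx, Real.rpow_add hl0, Real.rpow_neg_one, mul_comm]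
    apply mul_le_mul_of_nonneg_right _ (by positivity)
    rw [Real.rpow_def_of_pos hl0]
    apply Real.exp_le_exp.2
    rw [mul_one_div, div_le_one hlog0]
    exact Real.log_le_log hl0 (by exact_mod_cast hly.le)
  have h1 : (1 - x)⁻¹ = x / (1 - x) + 1 := by
    have : (1 - x) ≠ 0 := by linarith
    field_simp
    ring
  rw [h1]
  refine (Real.add_one_le_exp _).trans (Real.exp_le_exp.2 ?_)
  rw [div_le_iff₀ (by linarith)]
  have h2 : 0 < (l : ℝ)⁻¹ := by positivity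
  have h3 := Real.exp_one_lt_d9
  have h4 : x ≤ 2.7182818286 * (l : ℝ)⁻¹ := by
    refine hle.trans ?_
    apply mul_le_mul_of_nonneg_right h3.le h2.le
  nlinarith [mul_le_mul_of_nonneg_left hpos h2.le]

private theorem smooth_harm {y : ℕ} (hy : 2 ≤ y) :
    ∑ l ∈ Ico 2 y, (l : ℝ)⁻¹ ≤ Real.log y := by
  obtain ⟨n, rfl⟩ : ∃ n, y = n + 2 := ⟨y - 2, by omega⟩
  have h := harmonic_le_one_add_log (n + 1)
  have h1 : ((harmonic (n + 1) : ℚ) : ℝ) = 1 + ∑ l ∈ Ico 2 (n + 2), (l : ℝ)⁻¹ := by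
    unfold harmonic
    push_cast
    rw [Finset.sum_range_succ', add_comm, Finset.sum_Ico_eq_sum_range]
    simp only [Nat.add_sub_cancel]
    congr 1
    · simp
    · apply Finset.sum_congr rfl
      intro i _
      push_cast
      congr 1
      ring
  rw [h1] at h
  have h2 : Real.log ((n + 1 : ℕ) : ℝ) ≤ Real.log ((n + 2 : ℕ) : ℝ) := by
    apply Real.log_le_log
    · positivity
    · push_cast
      linarith
  linarith

theorem smooth_sum {y : ℕ} (hy : 16 ≤ y) (S : Finset ℕ)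
    (hS : ∀ m ∈ S, m ≠ 0 ∧ ∀ q : ℕ, q.Prime → q ∣ m → q < y) :
    ∑ m ∈ S, (m : ℝ) ^ (-1 + 1 / Real.log y) ≤ (y : ℝ) ^ (8 : ℕ) := by
  classical
  set s : ℝ := -1 + 1 / Real.log y with hs
  obtain ⟨he0, he1⟩ := smooth_eta hy
  have hs0 : s < 0 := by rw [hs]; linarith
  have hf : ∀ m : ℕ, smooth_f s m = (m : ℝ) ^ s := fun m => rfl
  have hnn : ∀ m : ℕ, 0 ≤ smooth_f s m := fun m => Real.rpow_nonneg (Nat.cast_nonneg m) _
  have hlt : ∀ {p : ℕ}, p.Prime → ‖smooth_f s p‖ < 1 := by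
    intro p hp
    rw [Real.norm_eq_abs, abs_of_nonneg (hnn p), hf]
    exact Real.rpow_lt_one_of_one_lt_of_neg (by exact_mod_cast hp.one_lt) hs0
  obtain ⟨-, hsum⟩ :=
    EulerProduct.summable_and_hasSum_smoothNumbers_prod_primesBelow_geometric hlt y
  have hsum' : HasSum ((y.smoothNumbers : Set ℕ).indicator (smooth_f s : ℕ → ℝ))
      (∏ p ∈ y.primesBelow, (1 - smooth_f s p)⁻¹) := by
    rw [← hasSum_subtype_iff_indicator]
    exact hsum
  have h1 : ∑ m ∈ S, (m : ℝ) ^ s ≤ ∏ p ∈ y.primesBelow, (1 - smooth_f s p)⁻¹ := by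
    have h2 : ∑ m ∈ S, (m : ℝ) ^ s =
        ∑ m ∈ S, (y.smoothNumbers : Set ℕ).indicator (smooth_f s : ℕ → ℝ) m := by
      apply Finset.sum_congr rfl
      intro m hm
      rw [Set.indicator_of_mem]
      · rfl
      · obtain ⟨h0, hq⟩ := hS m hm
        rw [Nat.mem_smoothNumbers]
        exact ⟨h0, fun p hp => hq p (Nat.prime_of_mem_primeFactorsList hp)
          (Nat.dvd_of_mem_primeFactorsList hp)⟩
    rw [h2]
    apply sum_le_hasSum S _ hsum'
    intro i _
    exact Set.indicator_nonneg (fun j _ => hnn j) i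
  refine h1.trans ?_
  have hpos : ∀ p ∈ y.primesBelow, 0 ≤ (1 - smooth_f s p)⁻¹ := by
    intro p hp
    obtain ⟨hpy, hpp⟩ := Nat.mem_primesBelow.1 hp
    have := smooth_factor hy hpp.two_le hpy
    rw [inv_nonneg, hf]
    linarith [this.2.1]
  calc ∏ p ∈ y.primesBelow, (1 - smooth_f s p)⁻¹
      ≤ ∏ p ∈ y.primesBelow, Real.exp (8 * (p : ℝ)⁻¹) := by
        apply Finset.prod_le_prod hpos
        intro p hp
        obtain ⟨hpy, hpp⟩ := Nat.mem_primesBelow.1 hp
        exact (smooth_factor hy hpp.two_le hpy).2.2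
    _ = Real.exp (∑ p ∈ y.primesBelow, 8 * (p : ℝ)⁻¹) := (Real.exp_sum _ _).symm
    _ ≤ Real.exp (8 * Real.log y) := by
        apply Real.exp_le_exp.2
        rw [← Finset.mul_sum]
        apply mul_le_mul_of_nonneg_left _ (by norm_num)
        refine le_trans ?_ (smooth_harm (by omega : 2 ≤ y))
        apply Finset.sum_le_sum_of_subset_of_nonneg
        · intro p hp
          obtain ⟨hpy, hpp⟩ := Nat.mem_primesBelow.1 hp
          exact Finset.mem_Ico.2 ⟨hpp.two_le, hpy⟩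
        · intro i _ _
          positivity
    _ = (y : ℝ) ^ (8 : ℕ) := by
        have hy0 : (0 : ℝ) < y := by
          have : 0 < y := by omega
          exact_mod_cast this
        have : (8 : ℝ) * Real.log y = ((8 : ℕ) : ℝ) * Real.log y := by norm_num
        rw [this, Real.exp_nat_mul, Real.exp_log hy0]

open Classical in
theorem smooth_count {y N : ℕ} (hy : 16 ≤ y) (hN : 1 ≤ N) :
    (#{m ∈ Icc 1 N | ∀ q : ℕ, q.Prime → q ∣ m → q < y} : ℝ) ≤
      N * (Real.exp (-(Real.log N / Real.log y)) * (y : ℝ) ^ (8 : ℕ)) := by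
  set S := {m ∈ Icc 1 N | ∀ q : ℕ, q.Prime → q ∣ m → q < y} with hSdef
  obtain ⟨he0, he1⟩ := smooth_eta hy
  have hN0 : (0 : ℝ) < N := by exact_mod_cast hN
  have h1 := smooth_sum hy S (by
    intro m hm
    rw [hSdef, mem_filter, mem_Icc] at hm
    exact ⟨by omega, hm.2⟩)
  have h2 : (#S : ℝ) ≤ ∑ m ∈ S, (N : ℝ) ^ (1 - 1 / Real.log y) *
      (m : ℝ) ^ (-1 + 1 / Real.log y) := by
    rw [Finset.card_eq_sum_ones]
    push_cast
    apply Finset.sum_le_sum
    intro m hm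
    rw [hSdef, mem_filter, mem_Icc] at hm
    have hm0 : (0 : ℝ) < m := by
      have : 0 < m := by omega
      exact_mod_cast this
    have hmN : (m : ℝ) ≤ N := by exact_mod_cast hm.1.2
    have h3 : (-1 + 1 / Real.log y) = -(1 - 1 / Real.log y) := by ring
    rw [h3, Real.rpow_neg hm0.le, ← div_eq_mul_inv, ← Real.div_rpow hN0.le hm0.le]
    apply Real.one_le_rpow
    · rw [le_div_iff₀ hm0, one_mul]
      exact hmN
    · linarith
  rw [← Finset.mul_sum] at h2
  have h4 : (N : ℝ) ^ (1 - 1 / Real.log y) = N * Real.exp (-(Real.log N / Real.log y)) := by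
    rw [sub_eq_add_neg, Real.rpow_add hN0, Real.rpow_one, Real.rpow_def_of_pos hN0]
    congr 2
    ring
  calc (#S : ℝ) ≤ _ := h2
    _ ≤ (N : ℝ) ^ (1 - 1 / Real.log y) * (y : ℝ) ^ (8 : ℕ) :=
        mul_le_mul_of_nonneg_left h1 (Real.rpow_nonneg hN0.le _)
    _ = N * (Real.exp (-(Real.log N / Real.log y)) * (y : ℝ) ^ (8 : ℕ)) := by
        rw [h4, mul_assoc]

theorem smooth_tail {y : ℕ} (hy : 16 ≤ y) {Z : ℝ} (hZ : 1 ≤ Z) (S : Finset ℕ)
    (hS : ∀ m ∈ S, Z < m ∧ ∀ q : ℕ, q.Prime → q ∣ m → q < y) :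
    ∑ m ∈ S, 1 / (m : ℝ) ≤ Real.exp (-(Real.log Z / Real.log y)) * (y : ℝ) ^ (8 : ℕ) := by
  obtain ⟨he0, he1⟩ := smooth_eta hy
  have hZ0 : (0 : ℝ) < Z := by linarith
  have h1 := smooth_sum hy S (by
    intro m hm
    obtain ⟨h2, h3⟩ := hS m hm
    refine ⟨?_, h3⟩
    rintro rfl
    norm_num at h2
    linarith)
  have h4 : Real.exp (-(Real.log Z / Real.log y)) = Z ^ (-(1 / Real.log y)) := by
    rw [Real.rpow_def_of_pos hZ0]
    congr 1
    ring
  calc ∑ m ∈ S, 1 / (m : ℝ) ≤ ∑ m ∈ S, Z ^ (-(1 / Real.log y)) *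
        (m : ℝ) ^ (-1 + 1 / Real.log y) := by
        apply Finset.sum_le_sum
        intro m hm
        obtain ⟨h2, -⟩ := hS m hm
        have hm0 : (0 : ℝ) < m := by linarith
        rw [Real.rpow_add hm0, Real.rpow_neg_one, Real.rpow_neg hZ0.le]
        have h5 : 1 ≤ (Z ^ (1 / Real.log y))⁻¹ * (m : ℝ) ^ (1 / Real.log y) := by
          rw [mul_comm, ← div_eq_mul_inv, ← Real.div_rpow hm0.le hZ0.le]
          apply Real.one_le_rpow
          · rw [le_div_iff₀ hZ0, one_mul]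
            exact h2.le
          · exact he0.le
        have h6 : 0 < (m : ℝ)⁻¹ := by positivity
        calc 1 / (m : ℝ) = (m : ℝ)⁻¹ * 1 := by ring
          _ ≤ (m : ℝ)⁻¹ * ((Z ^ (1 / Real.log y))⁻¹ * (m : ℝ) ^ (1 / Real.log y)) :=
              mul_le_mul_of_nonneg_left h5 h6.le
          _ = _ := by ring
    _ = Z ^ (-(1 / Real.log y)) * ∑ m ∈ S, (m : ℝ) ^ (-1 + 1 / Real.log y) := by
        rw [Finset.mul_sum]
    _ ≤ Z ^ (-(1 / Real.log y)) * (y : ℝ) ^ (8 : ℕ) :=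
        mul_le_mul_of_nonneg_left h1 (Real.rpow_nonneg hZ0.le _)
    _ = _ := by rw [h4]

end Pool.Agent.ADS
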