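import Pool.Agent.Lib.MP_cfcc59_co.ADS.Defs
import Pool.Agent.Lib.MP_cfcc59_co.ADS.Smooth

/-! # Module Shift (project ADS)

Few integers `n ≤ N` have a prime `w ∣ n - 1` such that `w - 1` has a large smooth divisor. -/

namespace Pool.Agent.ADS

open Finset

private lemma shift_card_dvd (N w : ℕ) (hN : 2 ≤ N) (hw : 1 ≤ w) :
    (#{n ∈ Icc 2 N | w ∣ n - 1} : ℝ) ≤ (N : ℝ) / w := by
  have h1 : #{n ∈ Icc 2 N | w ∣ n - 1} ≤ #{m ∈ Ioc 0 (N - 1) | w ∣ m} := by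
    refine Finset.card_le_card_of_injOn (fun n => n - 1) ?_ ?_
    · intro n hn
      rw [Finset.mem_coe, mem_filter, mem_Icc] at hn
      rw [Finset.mem_coe, mem_filter, mem_Ioc]
      dsimp only
      obtain ⟨⟨h2, h3⟩, h4⟩ := hn
      exact ⟨⟨by omega, by omega⟩, h4⟩
    · intro a ha b hb hab
      rw [Finset.mem_coe, mem_filter, mem_Icc] at ha hb
      simp only at hab
      omega
  rw [Nat.Ioc_filter_dvd_card_eq_div] at h1
  have h2 : (((N - 1) / w : ℕ) : ℝ) ≤ (N : ℝ) / w := by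
    refine le_trans Nat.cast_div_le ?_
    have h3 : ((N - 1 : ℕ) : ℝ) ≤ (N : ℝ) := by
      exact_mod_cast Nat.sub_le N 1
    exact div_le_div_of_nonneg_right h3 (Nat.cast_nonneg _)
  exact le_trans (by exact_mod_cast h1) h2

private lemma shift_harm (N : ℕ) : ∑ k ∈ Icc 1 N, 1 / (k : ℝ) ≤ 1 + Real.log N := by
  have h := harmonic_le_one_add_log N
  rw [harmonic_eq_sum_Icc] at h
  push_cast at h
  simpa [one_div] using h

open Classical in
theorem smooth_shift {N y : ℕ} (hN : 2 ≤ N) (hy : 16 ≤ y) {Z : ℝ} (hZ : 1 ≤ Z) :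
    (#{n ∈ Icc 2 N | ∃ w g : ℕ, w.Prime ∧ w ∣ n - 1 ∧ g ∣ w - 1 ∧ Z < g ∧
        ∀ q : ℕ, q.Prime → q ∣ g → q < y} : ℝ) ≤
      N * (1 + Real.log N) * (Real.exp (-(Real.log Z / Real.log y)) * (y : ℝ) ^ (8 : ℕ)) := by
  set S : Finset ℕ := {g ∈ Icc 1 N | Z < g ∧ ∀ q : ℕ, q.Prime → q ∣ g → q < y} with hS
  have hsub : {n ∈ Icc 2 N | ∃ w g : ℕ, w.Prime ∧ w ∣ n - 1 ∧ g ∣ w - 1 ∧ Z < g ∧
        ∀ q : ℕ, q.Prime → q ∣ g → q < y} ⊆
      S.biUnion (fun g => (Icc 1 N).biUnion (fun k => {n ∈ Icc 2 N | (1 + g * k) ∣ n - 1})) := by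
    intro n hn
    rw [mem_filter, mem_Icc] at hn
    obtain ⟨⟨h1, h2⟩, w, g, hw, hwn, hgw, hZg, hsm⟩ := hn
    obtain ⟨k, hk⟩ := hgw
    have hw2 := hw.two_le
    have hwle : w ≤ n - 1 := Nat.le_of_dvd (by omega) hwn
    have hw1 : w = 1 + g * k := by omega
    have hgk : 1 ≤ g * k := by omega
    have hg : 1 ≤ g := Nat.one_le_iff_ne_zero.2 (fun h => by rw [h] at hgk; omega)
    have hk1 : 1 ≤ k := Nat.one_le_iff_ne_zero.2 (fun h => by rw [h] at hgk; omega)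
    have hgN : g ≤ N := by
      have : g * 1 ≤ g * k := Nat.mul_le_mul_left g hk1
      omega
    have hkN : k ≤ N := by
      have : 1 * k ≤ g * k := Nat.mul_le_mul_right k hg
      omega
    rw [mem_biUnion]
    refine ⟨g, ?_, ?_⟩
    · rw [hS, mem_filter, mem_Icc]
      exact ⟨⟨hg, hgN⟩, hZg, hsm⟩
    · rw [mem_biUnion]
      refine ⟨k, mem_Icc.2 ⟨hk1, hkN⟩, ?_⟩
      rw [mem_filter, mem_Icc]
      exact ⟨⟨h1, h2⟩, hw1 ▸ hwn⟩
  have hlog : 0 ≤ Real.log N := Real.log_nonneg (by exact_mod_cast (by omega : 1 ≤ N))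
  have hNR : (0 : ℝ) ≤ N := Nat.cast_nonneg _
  calc (#{n ∈ Icc 2 N | ∃ w g : ℕ, w.Prime ∧ w ∣ n - 1 ∧ g ∣ w - 1 ∧ Z < g ∧
        ∀ q : ℕ, q.Prime → q ∣ g → q < y} : ℝ)
      ≤ ((#(S.biUnion (fun g => (Icc 1 N).biUnion
          (fun k => {n ∈ Icc 2 N | (1 + g * k) ∣ n - 1}))) : ℕ) : ℝ) := by
        exact_mod_cast card_le_card hsub
    _ ≤ ∑ g ∈ S, ∑ k ∈ Icc 1 N, (#{n ∈ Icc 2 N | (1 + g * k) ∣ n - 1} : ℝ) := by
        have h1 : #(S.biUnion (fun g => (Icc 1 N).biUnion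
            (fun k => {n ∈ Icc 2 N | (1 + g * k) ∣ n - 1}))) ≤
            ∑ g ∈ S, ∑ k ∈ Icc 1 N, #{n ∈ Icc 2 N | (1 + g * k) ∣ n - 1} :=
          le_trans card_biUnion_le (sum_le_sum (fun g _ => card_biUnion_le))
        exact_mod_cast h1
    _ ≤ ∑ g ∈ S, ∑ k ∈ Icc 1 N, (N : ℝ) * (1 / (g : ℝ)) * (1 / (k : ℝ)) := by
        refine sum_le_sum (fun g hg => sum_le_sum (fun k hk => ?_))
        rw [hS, mem_filter, mem_Icc] at hg
        rw [mem_Icc] at hk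
        refine le_trans (shift_card_dvd N (1 + g * k) hN (by omega)) ?_
        have hg0 : (0 : ℝ) < g := by exact_mod_cast hg.1.1
        have hk0 : (0 : ℝ) < k := by exact_mod_cast hk.1
        have h2 : (N : ℝ) * (1 / (g : ℝ)) * (1 / (k : ℝ)) = (N : ℝ) / (g * k) := by
          field_simp
        rw [h2]
        push_cast
        exact div_le_div_of_nonneg_left hNR (mul_pos hg0 hk0) (by linarith)
    _ = N * (∑ k ∈ Icc 1 N, 1 / (k : ℝ)) * ∑ g ∈ S, 1 / (g : ℝ) := by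
        simp_rw [← mul_sum]
        rw [← sum_mul, ← mul_sum]
        ring
    _ ≤ N * (1 + Real.log N) *
        (Real.exp (-(Real.log Z / Real.log y)) * (y : ℝ) ^ (8 : ℕ)) := by
        refine mul_le_mul (mul_le_mul_of_nonneg_left (shift_harm N) hNR) ?_ ?_ ?_
        · refine smooth_tail hy hZ S (fun m hm => ?_)
          rw [hS, mem_filter] at hm
          exact hm.2
        · exact sum_nonneg (fun g _ => by positivity)
        · exact mul_nonneg hNR (by linarith)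

end Pool.Agent.ADS
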