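import Pool.Agent.Lib.MP_cfcc59_co.ADS.Smooth
import Pool.Agent.Lib.MP_cfcc59_co.ADS.Ord
import Pool.Agent.Lib.MP_cfcc59_co.ADS.Shift
import Pool.Agent.Lib.MP_cfcc59_co.ADS.CaseA
import Pool.Agent.Lib.MP_cfcc59_co.ADS.CaseB
import Pool.Agent.Lib.MP_cfcc59_co.ADS.FamCount

set_option autoImplicit false

/-!
# MP_cfcc59_co, project ADS, module Count: the number of composite orders which pass the test
-/

namespace Pool.Agent.ADS

open Finset

/-- a prime divisor of the totient -/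
theorem count_totient {l m : ℕ} (hl : l.Prime) (hm : m ≠ 0) (h : l ∣ m.totient) :
    l ^ 2 ∣ m ∨ ∃ r : ℕ, r.Prime ∧ r ∣ m ∧ l ∣ r - 1 := by
  rw [Nat.totient_eq_div_primeFactors_mul] at h
  rcases (hl.dvd_mul).1 h with h1 | h1
  · left
    have h2 : (∏ p ∈ m.primeFactors, p) ∣ m := Nat.prod_primeFactors_dvd m
    have h3 : l * (∏ p ∈ m.primeFactors, p) ∣ m := by
      obtain ⟨k, hk⟩ := h1
      refine ⟨k, ?_⟩
      calc m = (m / ∏ p ∈ m.primeFactors, p) * ∏ p ∈ m.primeFactors, p := (Nat.div_mul_cancel h2).symm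
        _ = l * (∏ p ∈ m.primeFactors, p) * k := by rw [hk]; ring
    have h4 : l ∣ m := (dvd_mul_right l _).trans h3
    have h5 : l ∣ ∏ p ∈ m.primeFactors, p :=
      dvd_prod_of_mem _ (Nat.mem_primeFactors.2 ⟨hl, h4, hm⟩)
    rw [pow_two]
    exact (mul_dvd_mul_left l h5).trans h3
  · right
    obtain ⟨r, hr, hlr⟩ := (hl.prime.dvd_finsetProd_iff _).1 h1
    exact ⟨r, Nat.prime_of_mem_primeFactors hr, Nat.dvd_of_mem_primeFactors hr, hlr⟩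

/-- the six cases -/
theorem count_cover {N W Z y2 n : ℕ} (hn : 2 ≤ n) (hnN : n ≤ N)
    (h : ∀ w : ℕ, w.Prime → w ∣ n - 1 → w ∣ n.minFac ^ (n + 1).totient - 1) :
    (∀ q : ℕ, q.Prime → q ∣ n - 1 → q < W + 1) ∨
    (∃ w j : ℕ, w.Prime ∧ W < w ∧ w ∣ n - 1 ∧ 1 ≤ j ∧ j ≤ Z ∧ w ∣ n.minFac ^ j - 1) ∨
    (∃ w g : ℕ, w.Prime ∧ w ∣ n - 1 ∧ g ∣ w - 1 ∧ (Z : ℝ) < g ∧
      ∀ q : ℕ, q.Prime → q ∣ g → q < y2) ∨
    (∃ l : ℕ, y2 ≤ l ∧ l ^ 2 ∣ n + 1) ∨ Fam n ∨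
    (∃ l : ℕ, l.Prime ∧ y2 ≤ l ∧ l ≤ N ∧
      ((∃ w r : ℕ, w.Prime ∧ r.Prime ∧ l ∣ w - 1 ∧ l ∣ r - 1 ∧ w ∣ n - 1 ∧
        r ∣ n + 1 ∧ (w * r : ℝ) ≤ N * Real.sqrt l) ∨
      (¬ Fam n ∧ ∃ w r : ℕ, w.Prime ∧ r.Prime ∧ l ∣ w - 1 ∧ l ∣ r - 1 ∧ w ∣ n - 1 ∧
        r ∣ n + 1 ∧ (N * Real.sqrt l : ℝ) < w * r))) := by
  by_cases h1 : ∀ q : ℕ, q.Prime → q ∣ n - 1 → q < W + 1
  · exact Or.inl h1
  right
  push Not at h1
  obtain ⟨w, hw, hwn, hWw⟩ := h1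
  have hw2 := h w hw hwn
  have := Fact.mk hw
  set p := n.minFac with hp
  have hp1 : 1 ≤ p := Nat.minFac_pos n
  have htot : 0 < (n + 1).totient := Nat.totient_pos.2 (by omega)
  have hpow : ((p : ZMod w)) ^ (n + 1).totient = 1 := by
    have h2 := (Nat.modEq_iff_dvd' (Nat.one_le_pow _ _ hp1)).2 hw2
    have h3 := (ZMod.natCast_eq_natCast_iff _ _ _).2 h2
    push_cast at h3
    exact h3.symm
  have hp0 : (p : ZMod w) ≠ 0 := by
    intro h0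
    rw [h0, zero_pow htot.ne'] at hpow
    exact zero_ne_one hpow
  set g := orderOf (p : ZMod w) with hg
  have hg1 : g ∣ (n + 1).totient := orderOf_dvd_of_pow_eq_one hpow
  have hg2 : g ∣ w - 1 := orderOf_dvd_of_pow_eq_one (ZMod.pow_card_sub_one_eq_one hp0)
  have hg0 : 0 < g := Nat.pos_of_dvd_of_pos hg1 htot
  have hgp : w ∣ p ^ g - 1 := by
    have h2 : ((p : ZMod w)) ^ g = 1 := pow_orderOf_eq_one _
    have h3 : ((1 : ℕ) : ZMod w) = ((p ^ g : ℕ) : ZMod w) := by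
      push_cast
      exact h2.symm
    have h4 := (ZMod.natCast_eq_natCast_iff _ _ _).1 h3
    exact (Nat.modEq_iff_dvd' (Nat.one_le_pow _ _ hp1)).1 h4
  by_cases h2 : g ≤ Z
  · left
    exact ⟨w, g, hw, hWw, hwn, hg0, h2, hgp⟩
  right
  push Not at h2
  by_cases h3 : ∀ q : ℕ, q.Prime → q ∣ g → q < y2
  · left
    exact ⟨w, g, hw, hwn, hg2, by exact_mod_cast h2, h3⟩
  right
  push Not at h3
  obtain ⟨l, hl, hlg, hyl⟩ := h3
  rcases count_totient hl (by omega) (hlg.trans hg1) with h4 | ⟨r, hr, hrn, hlr⟩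
  · left
    exact ⟨l, hyl, h4⟩
  right
  by_cases h5 : Fam n
  · exact Or.inl h5
  right
  have hlN : l ≤ N := by
    have h6 : l ≤ w - 1 := Nat.le_of_dvd (by have := hw.one_lt; omega) (hlg.trans hg2)
    have h7 : w ≤ n - 1 := Nat.le_of_dvd (by omega) hwn
    omega
  refine ⟨l, hl, hyl, hlN, ?_⟩
  rcases le_or_gt ((w * r : ℝ)) (N * Real.sqrt l) with h6 | h6
  · left
    exact ⟨w, r, hw, hr, hlg.trans hg2, hlr, hwn, hrn, h6⟩
  · right
    exact ⟨h5, w, r, hw, hr, hlg.trans hg2, hlr, hwn, hrn, h6⟩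

/-- telescoping bound -/
theorem count_tele (f g : ℕ → ℝ) (y N : ℕ) (_ : 1 ≤ y) (hg : ∀ l, 0 ≤ g l)
    (h : ∀ l, y ≤ l → f l ≤ g (l - 1) - g l) : ∑ l ∈ Icc y N, f l ≤ g (y - 1) := by
  rcases lt_or_ge N y with hN | hN
  · rw [Icc_eq_empty (by omega), sum_empty]
    exact hg _
  · have key : ∑ l ∈ Icc y N, f l ≤ g (y - 1) - g N := by
      induction N, hN using Nat.le_induction with
      | base =>
        rw [Icc_self, sum_singleton]
        exact h y le_rfl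
      | succ n hn ih =>
        rw [sum_Icc_succ_top (by omega)]
        have h1 := h (n + 1) (by omega)
        rw [Nat.add_sub_cancel] at h1
        linarith
    linarith [hg N]

theorem count_sum_sq (y N : ℕ) (hy : 2 ≤ y) :
    ∑ l ∈ Icc y N, 1 / (l : ℝ) ^ 2 ≤ 2 / (y : ℝ) := by
  have h1 := count_tele (fun l => 1 / (l : ℝ) ^ 2) (fun l => 1 / (l : ℝ)) y N (by omega)
    (fun l => by positivity) (fun l hl => by
      have h2 : (2 : ℝ) ≤ l := by exact_mod_cast hy.trans hl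
      rw [Nat.cast_sub (by omega), Nat.cast_one, div_sub_div _ _ (by linarith) (by linarith),
        div_le_div_iff₀ (by positivity) (by nlinarith)]
      nlinarith)
  refine h1.trans ?_
  have h2 : (2 : ℝ) ≤ y := by exact_mod_cast hy
  show 1 / ((y - 1 : ℕ) : ℝ) ≤ 2 / y
  rw [Nat.cast_sub (by omega), Nat.cast_one, div_le_div_iff₀ (by linarith) (by linarith)]
  linarith

theorem count_sum_three (y N : ℕ) (hy : 2 ≤ y) :
    ∑ l ∈ Icc y N, 1 / ((l : ℝ) * Real.sqrt l) ≤ 4 / Real.sqrt y := by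
  have h1 := count_tele (fun l => 1 / ((l : ℝ) * Real.sqrt l)) (fun l => 2 / Real.sqrt l) y N
    (by omega) (fun l => by positivity) (fun l hl => by
      have h2 : (2 : ℝ) ≤ l := by exact_mod_cast hy.trans hl
      show 1 / ((l : ℝ) * Real.sqrt l) ≤ 2 / Real.sqrt ((l - 1 : ℕ) : ℝ) - 2 / Real.sqrt l
      rw [Nat.cast_sub (by omega), Nat.cast_one]
      set a := Real.sqrt (l : ℝ) with ha
      set b := Real.sqrt ((l : ℝ) - 1) with hb
      have ha2 : a ^ 2 = l := Real.sq_sqrt (by linarith)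
      have hb2 : b ^ 2 = l - 1 := Real.sq_sqrt (by linarith)
      have hb0 : 0 < b := Real.sqrt_pos.2 (by linarith)
      have hba : b ≤ a := Real.sqrt_le_sqrt (by linarith)
      have ha0 : 0 < a := hb0.trans_le hba
      have h3 : (a - b) * (a + b) = 1 := by nlinarith
      have h4 : 2 / b - 2 / a = 2 / (a * b * (a + b)) := by
        rw [div_sub_div _ _ hb0.ne' ha0.ne', div_eq_div_iff (by positivity) (by positivity)]
        linear_combination (2 * (a * b)) * h3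
      rw [h4, ← ha2, div_le_div_iff₀ (by positivity) (by positivity)]
      have h5 : a * b ≤ a ^ 2 := by nlinarith
      have h6 : a + b ≤ 2 * a := by linarith
      calc 1 * (a * b * (a + b)) ≤ 1 * (a ^ 2 * (2 * a)) := by gcongr
        _ = 2 * (a ^ 2 * a) := by ring)
  refine h1.trans ?_
  have h2 : (2 : ℝ) ≤ y := by exact_mod_cast hy
  show 2 / Real.sqrt ((y - 1 : ℕ) : ℝ) ≤ 4 / Real.sqrt y
  rw [Nat.cast_sub (by omega), Nat.cast_one,
    div_le_div_iff₀ (Real.sqrt_pos.2 (by linarith)) (Real.sqrt_pos.2 (by linarith))]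
  have h3 : Real.sqrt y ≤ 2 * Real.sqrt (y - 1) := by
    rw [← Real.sqrt_sq (show (0 : ℝ) ≤ 2 by norm_num), ← Real.sqrt_mul (by norm_num)]
    apply Real.sqrt_le_sqrt
    linarith
  linarith

open Classical in
theorem count_squares {N y : ℕ} (hN : 1 ≤ N) (hy : 2 ≤ y) :
    (#{n ∈ Icc 2 N | ∃ l : ℕ, y ≤ l ∧ l ^ 2 ∣ n + 1} : ℝ) ≤ 4 * N / y := by
  have hsub : ({n ∈ Icc 2 N | ∃ l : ℕ, y ≤ l ∧ l ^ 2 ∣ n + 1} : Finset ℕ) ⊆
      (Icc y (N + 1)).biUnion fun l => {n ∈ Icc 2 N | l ^ 2 ∣ n + 1} := by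
    intro n hn
    rw [mem_filter, mem_Icc] at hn
    obtain ⟨⟨h2, hN'⟩, l, hl, hln⟩ := hn
    rw [mem_biUnion]
    refine ⟨l, mem_Icc.2 ⟨hl, ?_⟩, mem_filter.2 ⟨mem_Icc.2 ⟨h2, hN'⟩, hln⟩⟩
    have h1 := Nat.le_of_dvd (by omega) hln
    nlinarith
  have hone : ∀ l ∈ Icc y (N + 1), (#{n ∈ Icc 2 N | l ^ 2 ∣ n + 1} : ℝ) ≤
      (N + 1) * (1 / (l : ℝ) ^ 2) := by
    intro l hl
    rw [mem_Icc] at hl
    have hl0 : (0 : ℝ) < l := by exact_mod_cast (show 0 < l by omega)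
    have h1 : #{n ∈ Icc 2 N | l ^ 2 ∣ n + 1} ≤ #{m ∈ Ioc 0 (N + 1) | l ^ 2 ∣ m} := by
      apply card_le_card_of_injOn (fun n => n + 1)
      · intro n hn
        rw [mem_coe, mem_filter, mem_Icc] at hn
        obtain ⟨⟨h2, h3⟩, h4⟩ := hn
        rw [mem_coe, mem_filter, mem_Ioc]
        exact ⟨⟨Nat.succ_pos n, Nat.succ_le_succ h3⟩, h4⟩
      · intro a _ b _ hab
        exact Nat.add_right_cancel hab
    rw [Nat.Ioc_filter_dvd_card_eq_div] at h1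
    calc (#{n ∈ Icc 2 N | l ^ 2 ∣ n + 1} : ℝ) ≤ (((N + 1) / l ^ 2 : ℕ) : ℝ) := by exact_mod_cast h1
      _ ≤ ((N + 1 : ℕ) : ℝ) / ((l ^ 2 : ℕ) : ℝ) := Nat.cast_div_le
      _ = (N + 1) * (1 / (l : ℝ) ^ 2) := by push_cast; ring
  have hNr : (1 : ℝ) ≤ N := by exact_mod_cast hN
  have hyr : (2 : ℝ) ≤ y := by exact_mod_cast hy
  calc (#{n ∈ Icc 2 N | ∃ l : ℕ, y ≤ l ∧ l ^ 2 ∣ n + 1} : ℝ)
      ≤ (#((Icc y (N + 1)).biUnion fun l => {n ∈ Icc 2 N | l ^ 2 ∣ n + 1}) : ℝ) := by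
        exact_mod_cast card_le_card hsub
    _ ≤ ∑ l ∈ Icc y (N + 1), (#{n ∈ Icc 2 N | l ^ 2 ∣ n + 1} : ℝ) := by
        exact_mod_cast card_biUnion_le
    _ ≤ ∑ l ∈ Icc y (N + 1), ((N : ℝ) + 1) * (1 / (l : ℝ) ^ 2) := sum_le_sum hone
    _ = (N + 1) * ∑ l ∈ Icc y (N + 1), 1 / (l : ℝ) ^ 2 := by rw [mul_sum]
    _ ≤ (N + 1) * (2 / y) := by
        apply mul_le_mul_of_nonneg_left (count_sum_sq y (N + 1) hy) (by positivity)
    _ ≤ 4 * N / y := by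
        rw [mul_div_assoc', div_le_div_iff_of_pos_right (by linarith)]
        linarith

open Classical in
theorem count_shift {N y : ℕ} :
    #{n ∈ Icc 2 N | ∀ q : ℕ, q.Prime → q ∣ n - 1 → q < y} ≤
      #{m ∈ Icc 1 N | ∀ q : ℕ, q.Prime → q ∣ m → q < y} := by
  apply card_le_card_of_injOn (fun n => n - 1)
  · intro n hn
    rw [mem_coe, mem_filter, mem_Icc] at hn
    obtain ⟨⟨h2, h3⟩, h4⟩ := hn
    rw [mem_coe, mem_filter, mem_Icc]
    exact ⟨⟨Nat.le_sub_one_of_lt h2, (Nat.sub_le n 1).trans h3⟩, h4⟩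
  · intro a ha b hb hab
    rw [mem_coe, mem_filter, mem_Icc] at ha hb
    have h : a - 1 = b - 1 := hab
    omega

theorem count_num : ∃ u0 : ℝ, 100 ≤ u0 ∧ ∀ u : ℝ, u0 ≤ u →
    200 * Real.log u * (16 * Real.log u + 1) + 10 ≤ u / 12 := by
  have h1 := (Real.isLittleO_pow_log_id_atTop (n := 2)).bound (c := 1 / 40920) (by norm_num)
  obtain ⟨u1, hu1⟩ := Filter.eventually_atTop.1 h1
  refine ⟨max 100 u1, le_max_left _ _, fun u hu => ?_⟩
  have h100 : 100 ≤ u := (le_max_left _ _).trans hu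
  have h2 := hu1 u ((le_max_right _ _).trans hu)
  have h3 : 1 ≤ Real.log u := by
    rw [Real.le_log_iff_exp_le (by linarith)]
    have := Real.exp_one_lt_d9
    linarith
  rw [Real.norm_eq_abs, Real.norm_eq_abs, abs_of_nonneg (by positivity)] at h2
  simp only [id] at h2
  rw [abs_of_nonneg (by linarith)] at h2
  nlinarith

/-- all the estimates for the parameters -/
theorem count_params {u : ℝ} (hu : 100 ≤ u)
    (h : 200 * Real.log u * (16 * Real.log u + 1) + 10 ≤ u / 12) :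
    16 ≤ ⌊Real.exp (u / 4)⌋₊ + 1 ∧
    Real.exp (-(u ^ 2 / Real.log ((⌊Real.exp (u / 4)⌋₊ + 1 : ℕ) : ℝ))) *
      ((⌊Real.exp (u / 4)⌋₊ + 1 : ℕ) : ℝ) ^ 8 ≤ 1 / u ^ 4 ∧
    1 ≤ ⌊Real.exp (u / 12)⌋₊ ∧ 1 ≤ ⌊Real.exp (u / 4)⌋₊ ∧
    ((1 + u ^ 2) / (⌊Real.exp (u / 4)⌋₊ : ℝ) + Real.exp (-(u ^ 2 / 2))) *
      ((⌊Real.exp (u / 12)⌋₊ : ℝ) ^ 2 * (2 * u ^ 2)) ≤ 1 / u ^ 4 ∧
    16 ≤ ⌊u ^ 16⌋₊ + 1 ∧
    (1 + u ^ 2) * (Real.exp (-(Real.log (⌊Real.exp (u / 12)⌋₊ : ℝ) /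
      Real.log ((⌊u ^ 16⌋₊ + 1 : ℕ) : ℝ))) * ((⌊u ^ 16⌋₊ + 1 : ℕ) : ℝ) ^ 8) ≤ 1 / u ^ 4 ∧
    4 / ((⌊u ^ 16⌋₊ + 1 : ℕ) : ℝ) ≤ 1 / u ^ 4 ∧
    11 * (1 + u ^ 2) ^ 2 * (4 / Real.sqrt ((⌊u ^ 16⌋₊ + 1 : ℕ) : ℝ)) ≤ 176 / u ^ 4 := by
  have hu0 : (0 : ℝ) < u := by linarith
  set L := Real.log u with hL
  have hL1 : 4 ≤ L := by
    rw [hL, Real.le_log_iff_exp_le hu0]
    have h1 := Real.exp_one_lt_d9
    have h2 : Real.exp 4 = Real.exp 1 ^ 4 := by rw [← Real.exp_nat_mul]; norm_num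
    rw [h2]
    calc Real.exp 1 ^ 4 ≤ 2.7182818286 ^ 4 := by gcongr
      _ ≤ 100 := by norm_num
      _ ≤ u := hu
  have hu4 : ∀ k : ℕ, u ^ k = Real.exp (k * L) := fun k => by
    rw [hL, Real.exp_nat_mul, Real.exp_log hu0]
  have hinv : 1 / u ^ 4 = Real.exp (-(4 * L)) := by
    rw [hu4 4, one_div, ← Real.exp_neg]
    norm_num
  have hLu : 3000 * L ≤ u / 12 := by nlinarith
  have hone : ∀ x : ℝ, 1 ≤ x → Real.exp x ≤ Real.exp (x + 1) - 1 := fun x hx => by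
    have h1 : Real.exp (x + 1) = Real.exp x * Real.exp 1 := Real.exp_add x 1
    have h2 : 2 ≤ Real.exp 1 := by have := Real.exp_one_gt_d9; linarith
    have h3 : 1 ≤ Real.exp x := Real.one_le_exp (by linarith)
    nlinarith
  have hone' : ∀ x : ℝ, 1 ≤ x → Real.exp (x - 1) ≤ Real.exp x - 1 := fun x hx => by
    have h1 : Real.exp x = Real.exp (x - 1) * Real.exp 1 := by rw [← Real.exp_add]; ring_nf
    have h2 : 2 ≤ Real.exp 1 := by have := Real.exp_one_gt_d9; linarith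
    have h3 : 1 ≤ Real.exp (x - 1) := Real.one_le_exp (by linarith)
    nlinarith
  -- W
  set W := ⌊Real.exp (u / 4)⌋₊ with hW
  have hW1 : (W : ℝ) ≤ Real.exp (u / 4) := Nat.floor_le (Real.exp_pos _).le
  have hW2 : Real.exp (u / 4) < W + 1 := Nat.lt_floor_add_one _
  have hW3 : Real.exp (u / 4 - 1) ≤ W := by have := hone' (u / 4) (by linarith); linarith
  have hW4 : (W : ℝ) + 1 ≤ Real.exp (u / 4 + 1) := by have := hone (u / 4) (by linarith); linarith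
  have hW5 : (16 : ℝ) ≤ W := by
    have h1 : u / 4 - 1 + 1 ≤ Real.exp (u / 4 - 1) := Real.add_one_le_exp _
    linarith
  have hW6 : 16 ≤ W := by exact_mod_cast hW5
  -- Z
  set Z := ⌊Real.exp (u / 12)⌋₊ with hZ
  have hZ1 : (Z : ℝ) ≤ Real.exp (u / 12) := Nat.floor_le (Real.exp_pos _).le
  have hZ2 : Real.exp (u / 12) < Z + 1 := Nat.lt_floor_add_one _
  have hZ3 : Real.exp (u / 12 - 1) ≤ Z := by have := hone' (u / 12) (by linarith); linarith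
  have hZ5 : (1 : ℝ) ≤ Z := le_trans (Real.one_le_exp (by linarith)) hZ3
  have hZ6 : 1 ≤ Z := by exact_mod_cast hZ5
  -- y
  set Y := ⌊u ^ 16⌋₊ + 1 with hY
  have hY1 : u ^ 16 < (Y : ℝ) := by
    rw [hY]; push_cast
    exact Nat.lt_floor_add_one _
  have hY2 : (Y : ℝ) ≤ u ^ 16 + 1 := by
    rw [hY]; push_cast
    linarith [Nat.floor_le (show 0 ≤ u ^ 16 by positivity)]
  have hY3 : (Y : ℝ) ≤ Real.exp (16 * L + 1) := by
    have h1 := hone (16 * L) (by linarith)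
    rw [hu4 16] at hY2
    push_cast at hY2
    linarith
  have hY4 : Real.exp (16 * L) < Y := by rw [hu4 16] at hY1; exact_mod_cast hY1
  have hY5 : (0 : ℝ) < Y := (Real.exp_pos _).trans hY4
  have hY6 : 16 ≤ Y := by
    have h1 : (16 : ℝ) * L + 1 ≤ Real.exp (16 * L) := Real.add_one_le_exp _
    have h2 : (16 : ℝ) ≤ Y := by linarith
    exact_mod_cast h2
  refine ⟨by omega, ?_, hZ6, by omega, ?_, hY6, ?_, ?_, ?_⟩
  · push_cast
    have h1 : Real.log ((W : ℝ) + 1) ≤ u / 4 + 1 := by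
      rw [Real.log_le_iff_le_exp (by positivity)]
      exact hW4
    have h0 : 0 < Real.log ((W : ℝ) + 1) := Real.log_pos (by linarith)
    have h2 : 3.5 * u ≤ u ^ 2 / Real.log ((W : ℝ) + 1) := by
      rw [le_div_iff₀ h0]
      nlinarith
    calc Real.exp (-(u ^ 2 / Real.log ((W : ℝ) + 1))) * ((W : ℝ) + 1) ^ 8
        ≤ Real.exp (-(3.5 * u)) * Real.exp (u / 4 + 1) ^ 8 := by gcongr
      _ = Real.exp (-(3.5 * u) + 8 * (u / 4 + 1)) := by
          rw [← Real.exp_nat_mul, ← Real.exp_add]; norm_num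
      _ ≤ Real.exp (-(4 * L)) := by
          apply Real.exp_le_exp.2
          linarith
      _ = 1 / u ^ 4 := hinv.symm
  · have h1 : 1 + u ^ 2 ≤ Real.exp (2 * L + 1) := by
      have := hone (2 * L) (by linarith)
      rw [hu4 2]; push_cast
      linarith
    have h2 : (1 + u ^ 2) / (W : ℝ) ≤ Real.exp (2 * L + 1 - (u / 4 - 1)) := by
      rw [Real.exp_sub]
      gcongr
    have h3 : Real.exp (-(u ^ 2 / 2)) ≤ Real.exp (2 * L + 1 - (u / 4 - 1)) := by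
      apply Real.exp_le_exp.2
      nlinarith
    have h4 : (2 : ℝ) ≤ Real.exp 1 := by have := Real.exp_one_gt_d9; linarith
    have h5 : 2 * u ^ 2 ≤ Real.exp (1 + 2 * L) := by
      rw [Real.exp_add, hu4 2]; push_cast
      gcongr
    calc ((1 + u ^ 2) / (W : ℝ) + Real.exp (-(u ^ 2 / 2))) * ((Z : ℝ) ^ 2 * (2 * u ^ 2))
        ≤ (Real.exp 1 * Real.exp (2 * L + 1 - (u / 4 - 1))) *
          (Real.exp (u / 12) ^ 2 * Real.exp (1 + 2 * L)) := by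
          apply mul_le_mul _ _ (by positivity) (by positivity)
          · have h6 := Real.exp_pos (2 * L + 1 - (u / 4 - 1))
            nlinarith
          · gcongr
      _ = Real.exp (1 + (2 * L + 1 - (u / 4 - 1)) + (2 * (u / 12) + (1 + 2 * L))) := by
          rw [← Real.exp_nat_mul, ← Real.exp_add, ← Real.exp_add, ← Real.exp_add]; norm_num
      _ ≤ Real.exp (-(4 * L)) := by
          apply Real.exp_le_exp.2
          linarith
      _ = 1 / u ^ 4 := hinv.symm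
  · have h1 : 1 + u ^ 2 ≤ Real.exp (2 * L + 1) := by
      have := hone (2 * L) (by linarith)
      rw [hu4 2]; push_cast
      linarith
    have h2 : u / 12 - 1 ≤ Real.log (Z : ℝ) := by
      rw [Real.le_log_iff_exp_le (by linarith)]
      exact hZ3
    have h3 : Real.log (Y : ℝ) ≤ 16 * L + 1 := by
      rw [Real.log_le_iff_le_exp hY5]
      exact hY3
    have h0 : 0 < Real.log (Y : ℝ) := by
      apply Real.log_pos
      have : (16 : ℝ) ≤ Y := by exact_mod_cast hY6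
      linarith
    have h4 : 200 * L ≤ Real.log (Z : ℝ) / Real.log (Y : ℝ) := by
      rw [le_div_iff₀ h0]
      have h5 : 200 * L * Real.log (Y : ℝ) ≤ 200 * L * (16 * L + 1) := by gcongr
      linarith
    calc (1 + u ^ 2) * (Real.exp (-(Real.log (Z : ℝ) / Real.log (Y : ℝ))) * (Y : ℝ) ^ 8)
        ≤ Real.exp (2 * L + 1) * (Real.exp (-(200 * L)) * Real.exp (16 * L + 1) ^ 8) := by gcongr
      _ = Real.exp (2 * L + 1 + (-(200 * L) + 8 * (16 * L + 1))) := by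
          rw [← Real.exp_nat_mul, ← Real.exp_add, ← Real.exp_add]; norm_num
      _ ≤ Real.exp (-(4 * L)) := by
          apply Real.exp_le_exp.2
          linarith
      _ = 1 / u ^ 4 := hinv.symm
  · rw [div_le_div_iff₀ hY5 (by positivity), one_mul]
    have h1 : 4 * u ^ 4 ≤ u ^ 16 := by
      have h2 : (4 : ℝ) ≤ u ^ 12 := by
        calc (4 : ℝ) ≤ 100 ^ 12 := by norm_num
          _ ≤ u ^ 12 := by gcongr
      calc 4 * u ^ 4 ≤ u ^ 12 * u ^ 4 := by gcongr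
        _ = u ^ 16 := by ring
    linarith
  · have h1 : u ^ 8 ≤ Real.sqrt (Y : ℝ) := by
      apply Real.le_sqrt_of_sq_le
      calc (u ^ 8) ^ 2 = u ^ 16 := by ring
        _ ≤ (Y : ℝ) := hY1.le
    have h2 : (1 + u ^ 2) ≤ 2 * u ^ 2 := by nlinarith
    calc 11 * (1 + u ^ 2) ^ 2 * (4 / Real.sqrt (Y : ℝ))
        ≤ 11 * (2 * u ^ 2) ^ 2 * (4 / u ^ 8) := by gcongr
      _ = 176 / u ^ 4 := by
          field_simp
          ring

open Classical in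
theorem count_main {N : ℕ} (hN : 2 ≤ N) {C5 u : ℝ} (hu : u ^ 2 = Real.log N) (h100 : 100 ≤ u)
    (h : 200 * Real.log u * (16 * Real.log u + 1) + 10 ≤ u / 12)
    (hC : (#{n ∈ Icc 2 N | Fam n} : ℝ) ≤ C5 * N / Real.log N ^ 2) :
    (#{n ∈ Icc 2 N | ¬ n.Prime ∧ ∀ w : ℕ, w.Prime → w ∣ n - 1 →
        w ∣ n.minFac ^ (n + 1).totient - 1} : ℝ) ≤ (180 + C5) * N / Real.log N ^ 2 := by
  obtain ⟨h1, h2, h3, h4, h5, h6, h7, h8, h9⟩ := count_params h100 h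
  set W := ⌊Real.exp (u / 4)⌋₊ with hW
  set Z := ⌊Real.exp (u / 12)⌋₊ with hZ
  set Y := ⌊u ^ 16⌋₊ + 1 with hY
  have hNr : (2 : ℝ) ≤ N := by exact_mod_cast hN
  have hlog2 : Real.log N ^ 2 = u ^ 4 := by rw [← hu]; ring
  have hu4 : 0 < u ^ 4 := by positivity
  -- the sets
  set B : Finset ℕ := {n ∈ Icc 2 N | ¬ n.Prime ∧ ∀ w : ℕ, w.Prime → w ∣ n - 1 →
        w ∣ n.minFac ^ (n + 1).totient - 1} with hB
  set A1 : Finset ℕ := {n ∈ Icc 2 N | ∀ q : ℕ, q.Prime → q ∣ n - 1 → q < W + 1} with hA1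
  set A2 : Finset ℕ := {n ∈ Icc 2 N | ¬ n.Prime ∧ ∃ w j : ℕ, w.Prime ∧ W < w ∧ w ∣ n - 1 ∧
    1 ≤ j ∧ j ≤ Z ∧ w ∣ n.minFac ^ j - 1} with hA2
  set A3 : Finset ℕ := {n ∈ Icc 2 N | ∃ w g : ℕ, w.Prime ∧ w ∣ n - 1 ∧ g ∣ w - 1 ∧ (Z : ℝ) < g ∧
        ∀ q : ℕ, q.Prime → q ∣ g → q < Y} with hA3
  set A4 : Finset ℕ := {n ∈ Icc 2 N | ∃ l : ℕ, Y ≤ l ∧ l ^ 2 ∣ n + 1} with hA4
  set A5 : Finset ℕ := {n ∈ Icc 2 N | Fam n} with hA5
  let Sa : ℕ → Finset ℕ := fun l =>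
    {n ∈ Icc 2 N | ∃ w r : ℕ, w.Prime ∧ r.Prime ∧ l ∣ w - 1 ∧ l ∣ r - 1 ∧ w ∣ n - 1 ∧
        r ∣ n + 1 ∧ (w * r : ℝ) ≤ N * Real.sqrt l}
  let Sb : ℕ → Finset ℕ := fun l =>
    {n ∈ Icc 2 N | ¬ Fam n ∧ ∃ w r : ℕ, w.Prime ∧ r.Prime ∧ l ∣ w - 1 ∧ l ∣ r - 1 ∧ w ∣ n - 1 ∧
        r ∣ n + 1 ∧ (N * Real.sqrt l : ℝ) < w * r}
  let A6 : ℕ → Finset ℕ := fun l => Sa l ∪ Sb l
  set J : Finset ℕ := {l ∈ Icc Y N | l.Prime} with hJ
  have hsub : B ⊆ A1 ∪ (A2 ∪ (A3 ∪ (A4 ∪ (A5 ∪ J.biUnion A6)))) := by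
    intro n hn
    rw [hB, mem_filter] at hn
    obtain ⟨hnI, hnp, hh⟩ := hn
    have hn2 := (mem_Icc.1 hnI).1
    have hnN := (mem_Icc.1 hnI).2
    rcases count_cover (W := W) (Z := Z) (y2 := Y) hn2 hnN hh with c | c | c | c | c | c
    · exact mem_union_left _ (mem_filter.2 ⟨hnI, c⟩)
    · exact mem_union_right _ (mem_union_left _ (mem_filter.2 ⟨hnI, hnp, c⟩))
    · exact mem_union_right _ (mem_union_right _ (mem_union_left _ (mem_filter.2 ⟨hnI, c⟩)))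
    · exact mem_union_right _ (mem_union_right _ (mem_union_right _
        (mem_union_left _ (mem_filter.2 ⟨hnI, c⟩))))
    · exact mem_union_right _ (mem_union_right _ (mem_union_right _
        (mem_union_right _ (mem_union_left _ (mem_filter.2 ⟨hnI, c⟩)))))
    · obtain ⟨l, hl, hYl, hlN, hc⟩ := c
      refine mem_union_right _ (mem_union_right _ (mem_union_right _
        (mem_union_right _ (mem_union_right _ (mem_biUnion.2 ⟨l, ?_, ?_⟩)))))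
      · exact mem_filter.2 ⟨mem_Icc.2 ⟨hYl, hlN⟩, hl⟩
      · rcases hc with c | c
        · exact mem_union_left _ (mem_filter.2 ⟨hnI, c⟩)
        · exact mem_union_right _ (mem_filter.2 ⟨hnI, c⟩)
  have b1 : (#A1 : ℝ) ≤ N * (1 / u ^ 4) := by
    have e1 : (#A1 : ℝ) ≤ (#{m ∈ Icc 1 N | ∀ q : ℕ, q.Prime → q ∣ m → q < W + 1} : ℝ) := by
      exact_mod_cast count_shift (N := N) (y := W + 1)
    have e2 := smooth_count (y := W + 1) (N := N) h1 (by omega)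
    refine e1.trans (e2.trans ?_)
    rw [← hu]
    exact mul_le_mul_of_nonneg_left h2 (by positivity)
  have b2 : (#A2 : ℝ) ≤ N * (1 / u ^ 4) := by
    refine (small_order hN h3 h4).trans ?_
    have e1 : Real.sqrt N = N * Real.exp (-(u ^ 2 / 2)) := by
      have e2 : (N : ℝ) = Real.exp (u ^ 2) := by rw [hu, Real.exp_log (by linarith)]
      rw [Real.exp_neg, ← div_eq_mul_inv, eq_div_iff (Real.exp_pos _).ne']
      have e3 : Real.sqrt N = Real.exp (u ^ 2 / 2) := by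
        rw [e2, Real.sqrt_eq_iff_mul_self_eq (Real.exp_pos _).le (Real.exp_pos _).le,
          ← Real.exp_add]
        ring_nf
      rw [e3, ← Real.exp_add]
      conv_rhs => rw [e2]
      ring_nf
    rw [e1, ← hu]
    calc (N * (1 + u ^ 2) / (W : ℝ) + N * Real.exp (-(u ^ 2 / 2))) * ((Z : ℝ) ^ 2 * (2 * u ^ 2))
        = N * (((1 + u ^ 2) / (W : ℝ) + Real.exp (-(u ^ 2 / 2))) *
          ((Z : ℝ) ^ 2 * (2 * u ^ 2))) := by ring
      _ ≤ N * (1 / u ^ 4) := mul_le_mul_of_nonneg_left h5 (by positivity)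
  have b3 : (#A3 : ℝ) ≤ N * (1 / u ^ 4) := by
    refine (smooth_shift hN h6 (Z := (Z : ℝ)) (by exact_mod_cast h3)).trans ?_
    rw [← hu, mul_assoc]
    exact mul_le_mul_of_nonneg_left h7 (by positivity)
  have b4 : (#A4 : ℝ) ≤ N * (1 / u ^ 4) := by
    refine (count_squares (by omega) (by omega)).trans ?_
    calc 4 * (N : ℝ) / (Y : ℝ) = N * (4 / (Y : ℝ)) := by ring
      _ ≤ N * (1 / u ^ 4) := mul_le_mul_of_nonneg_left h8 (by positivity)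
  have b5 : (#A5 : ℝ) ≤ C5 * N / u ^ 4 := by rw [← hlog2]; exact hC
  have b6 : (#(J.biUnion A6) : ℝ) ≤ N * (176 / u ^ 4) := by
    have hone : ∀ l ∈ J, (#(A6 l) : ℝ) ≤
        11 * N * (1 + u ^ 2) ^ 2 * (1 / ((l : ℝ) * Real.sqrt l)) := by
      intro l hl
      rw [hJ, mem_filter, mem_Icc] at hl
      have hl3 : 3 ≤ l := by omega
      have ea : (#(Sa l) : ℝ) ≤ 2 * N * (1 + Real.log N) ^ 2 / (l * Real.sqrt l) :=
        case_a hN hl.2 hl3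
      have eb : (#(Sb l) : ℝ) ≤ 9 * N * (1 + Real.log N) ^ 2 / (l * Real.sqrt l) :=
        case_b hN hl.2 hl3
      have ec : (#(Sa l ∪ Sb l) : ℝ) ≤ #(Sa l) + #(Sb l) := by
        exact_mod_cast (card_union_le _ _)
      rw [← hu] at ea eb
      calc (#(A6 l) : ℝ) = (#(Sa l ∪ Sb l) : ℝ) := rfl
        _ ≤ 2 * N * (1 + u ^ 2) ^ 2 / (l * Real.sqrt l) +
            9 * N * (1 + u ^ 2) ^ 2 / (l * Real.sqrt l) := ec.trans (add_le_add ea eb)
        _ = 11 * N * (1 + u ^ 2) ^ 2 * (1 / ((l : ℝ) * Real.sqrt l)) := by ring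
    calc (#(J.biUnion A6) : ℝ) ≤ ∑ l ∈ J, (#(A6 l) : ℝ) := by exact_mod_cast card_biUnion_le
      _ ≤ ∑ l ∈ J, 11 * N * (1 + u ^ 2) ^ 2 * (1 / ((l : ℝ) * Real.sqrt l)) := sum_le_sum hone
      _ ≤ ∑ l ∈ Icc Y N, 11 * N * (1 + u ^ 2) ^ 2 * (1 / ((l : ℝ) * Real.sqrt l)) := by
          apply sum_le_sum_of_subset_of_nonneg (filter_subset _ _)
          intro l _ _
          positivity
      _ = 11 * N * (1 + u ^ 2) ^ 2 * ∑ l ∈ Icc Y N, 1 / ((l : ℝ) * Real.sqrt l) := by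
          rw [mul_sum]
      _ ≤ 11 * N * (1 + u ^ 2) ^ 2 * (4 / Real.sqrt Y) :=
          mul_le_mul_of_nonneg_left (count_sum_three Y N (by omega)) (by positivity)
      _ = N * (11 * (1 + u ^ 2) ^ 2 * (4 / Real.sqrt Y)) := by ring
      _ ≤ N * (176 / u ^ 4) := mul_le_mul_of_nonneg_left h9 (by positivity)
  have btot : (#B : ℝ) ≤ #A1 + (#A2 + (#A3 + (#A4 + (#A5 + #(J.biUnion A6))))) := by
    have e := card_le_card hsub
    have e1 := card_union_le A1 (A2 ∪ (A3 ∪ (A4 ∪ (A5 ∪ J.biUnion A6))))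
    have e2 := card_union_le A2 (A3 ∪ (A4 ∪ (A5 ∪ J.biUnion A6)))
    have e3 := card_union_le A3 (A4 ∪ (A5 ∪ J.biUnion A6))
    have e4 := card_union_le A4 (A5 ∪ J.biUnion A6)
    have e5 := card_union_le A5 (J.biUnion A6)
    have e6 : #B ≤ #A1 + (#A2 + (#A3 + (#A4 + (#A5 + #(J.biUnion A6))))) := by omega
    exact_mod_cast e6
  rw [hlog2]
  calc (#B : ℝ) ≤ N * (1 / u ^ 4) + (N * (1 / u ^ 4) + (N * (1 / u ^ 4) + (N * (1 / u ^ 4) +
        (C5 * N / u ^ 4 + N * (176 / u ^ 4))))) := by linarith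
    _ = (180 + C5) * N / u ^ 4 := by ring

open Classical in
theorem count_bad : ∃ C : ℝ, 0 < C ∧ ∀ N : ℕ, 2 ≤ N →
    (#{n ∈ Icc 2 N | ¬ n.Prime ∧ ∀ w : ℕ, w.Prime → w ∣ n - 1 →
        w ∣ n.minFac ^ (n + 1).totient - 1} : ℝ) ≤ C * N / Real.log N ^ 2 := by
  obtain ⟨C5, hC5, hfam⟩ := fam_count
  obtain ⟨u0, hu0, hnum⟩ := count_num
  refine ⟨180 + C5 + u0 ^ 4, by positivity, fun N hN => ?_⟩
  have hNr : (2 : ℝ) ≤ N := by exact_mod_cast hN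
  have hlog : 0 < Real.log N := Real.log_pos (by linarith)
  set u := Real.sqrt (Real.log N) with hu
  have hu2 : u ^ 2 = Real.log N := Real.sq_sqrt hlog.le
  have hupos : 0 < u := Real.sqrt_pos.2 hlog
  rcases le_or_gt u0 u with h | h
  · refine (count_main hN hu2 (hu0.trans h) (hnum u h) (hfam N hN)).trans ?_
    apply div_le_div_of_nonneg_right _ (by positivity)
    have h0 : 0 ≤ u0 ^ 4 * (N : ℝ) := by positivity
    nlinarith
  · have h1 : (#{n ∈ Icc 2 N | ¬ n.Prime ∧ ∀ w : ℕ, w.Prime → w ∣ n - 1 →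
        w ∣ n.minFac ^ (n + 1).totient - 1} : ℝ) ≤ N := by
      have h2 : #{n ∈ Icc 2 N | ¬ n.Prime ∧ ∀ w : ℕ, w.Prime → w ∣ n - 1 →
        w ∣ n.minFac ^ (n + 1).totient - 1} ≤ #(Icc 2 N) := card_filter_le _ _
      rw [Nat.card_Icc] at h2
      have h3 : #{n ∈ Icc 2 N | ¬ n.Prime ∧ ∀ w : ℕ, w.Prime → w ∣ n - 1 →
        w ∣ n.minFac ^ (n + 1).totient - 1} ≤ N := by omega
      exact_mod_cast h3
    refine h1.trans ?_
    rw [le_div_iff₀ (by positivity), ← hu2]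
    have h4 : u ^ 4 ≤ u0 ^ 4 := by gcongr
    have h5 : (u ^ 2) ^ 2 = u ^ 4 := by ring
    rw [h5]
    nlinarith [hC5]

end Pool.Agent.ADS
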