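import Pool.Agent.Lib.MP_cfcc59_co.ADS.Defs

/-!
# MP_cfcc59_co, project ADS: module Exist

Every prime is the order of a projective plane with a cyclic collineation group of type (d).
-/

set_option autoImplicit false

namespace Pool.Agent.ADS

open Finset

open scoped LinearAlgebra.Projectivization Matrix

namespace Exist

section Block

variable {K : Type} [Field K]

/-- the block matrix with the blocks `1` and `A` -/
private def blockHom : Matrix (Fin 2) (Fin 2) K →* Matrix (Fin 3) (Fin 3) K where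
  toFun A := !![1, 0, 0; 0, A 0 0, A 0 1; 0, A 1 0, A 1 1]
  map_one' := by
    ext i j
    fin_cases i <;> fin_cases j <;> simp
  map_mul' A B := by
    ext i j
    fin_cases i <;> fin_cases j <;> simp [Matrix.mul_apply, Fin.sum_univ_succ]

private theorem blockHom_mulVec (A : Matrix (Fin 2) (Fin 2) K) (a : K) (v : Fin 2 → K) :
    blockHom A *ᵥ ![a, v 0, v 1] = ![a, (A *ᵥ v) 0, (A *ᵥ v) 1] := by
  ext i
  fin_cases i <;> simp [blockHom, Matrix.mulVec, dotProduct, Fin.sum_univ_succ]

private theorem blockHom_transpose_mulVec (A : Matrix (Fin 2) (Fin 2) K) :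
    (blockHom A)ᵀ *ᵥ ![1, 0, 0] = ![1, 0, 0] := by
  ext i
  fin_cases i <;> simp [blockHom, Matrix.mulVec, dotProduct, Fin.sum_univ_succ]

end Block

section Main

variable {K F : Type} [Field K] [Field F] [Algebra K F] (b : Module.Basis (Fin 2) K F)

/-- the vector with the coordinates `a` and `x` -/
private noncomputable def vec (a : K) (x : F) : Fin 3 → K := ![a, b.repr x 0, b.repr x 1]

private theorem vec_inj {a a' : K} {x x' : F} (h : vec b a x = vec b a' x') : a = a' ∧ x = x' := by
  have h0 := congrFun h 0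
  have h1 := congrFun h 1
  have h2 := congrFun h 2
  simp only [vec, Matrix.cons_val_zero, Matrix.cons_val_one, Matrix.cons_val] at h0 h1 h2
  refine ⟨h0, b.repr.injective (Finsupp.ext fun i => ?_)⟩
  fin_cases i
  · exact h1
  · exact h2

private theorem exists_vec (v : Fin 3 → K) : ∃ (a : K) (x : F), v = vec b a x := by
  refine ⟨v 0, b.equivFun.symm ![v 1, v 2], ?_⟩
  ext i
  fin_cases i
  · rfl
  · simp [vec]
  · simp [vec]

private theorem smul_vec (c a : K) (x : F) : c • vec b a x = vec b (c * a) (c • x) := by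
  ext i
  fin_cases i <;> simp [vec]

private theorem vec_one_zero : vec b (1 : K) (0 : F) = ![1, 0, 0] := by
  simp [vec]

/-- the representation of the multiplicative group on the space `K × F` -/
private noncomputable def rho : Fˣ →* (Matrix (Fin 3) (Fin 3) K)ˣ :=
  Units.map (blockHom.comp (Algebra.leftMulMatrix b).toMonoidHom)

private theorem rho_mulVec (g : Fˣ) (a : K) (x : F) :
    ((rho b g : (Matrix (Fin 3) (Fin 3) K)ˣ) : Matrix (Fin 3) (Fin 3) K) *ᵥ vec b a x =
      vec b a (g * x) := by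
  have h := Algebra.leftMulMatrix_mulVec_repr b (g : F) x
  show blockHom (Algebra.leftMulMatrix b (g : F)) *ᵥ ![a, b.repr x 0, b.repr x 1] = _
  rw [blockHom_mulVec, h]
  rfl

/-- the dual representation -/
private noncomputable def rhoD : Fˣ →* (Matrix (Fin 3) (Fin 3) K)ˣ where
  toFun g := ⟨(rho b g⁻¹ : Matrix (Fin 3) (Fin 3) K)ᵀ, (rho b g : Matrix (Fin 3) (Fin 3) K)ᵀ, by
    rw [← Matrix.transpose_mul, ← Units.val_mul, ← map_mul, mul_inv_cancel, map_one]; simp, by
    rw [← Matrix.transpose_mul, ← Units.val_mul, ← map_mul, inv_mul_cancel, map_one]; simp⟩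
  map_one' := by
    ext1
    simp
  map_mul' g h := by
    ext1
    show (rho b (g * h)⁻¹ : Matrix (Fin 3) (Fin 3) K)ᵀ =
      (rho b g⁻¹ : Matrix (Fin 3) (Fin 3) K)ᵀ * (rho b h⁻¹ : Matrix (Fin 3) (Fin 3) K)ᵀ
    rw [← Matrix.transpose_mul, ← Units.val_mul, ← map_mul, mul_inv_rev]

private theorem smul_mk' (M : (Matrix (Fin 3) (Fin 3) K)ˣ) (v : Fin 3 → K) (hv : v ≠ 0) :
    ∃ h, (MulAction.toPermHom (Matrix (Fin 3) (Fin 3) K)ˣ (ℙ K (Fin 3 → K)) M)
      (Projectivization.mk K v hv) =
        Projectivization.mk K ((M : Matrix (Fin 3) (Fin 3) K) *ᵥ v) h := ⟨_, rfl⟩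

private theorem dot_rho (g : Fˣ) (v w : Fin 3 → K) :
    ((rho b g : (Matrix (Fin 3) (Fin 3) K)ˣ) : Matrix (Fin 3) (Fin 3) K) *ᵥ v ⬝ᵥ
      ((rhoD b g : (Matrix (Fin 3) (Fin 3) K)ˣ) : Matrix (Fin 3) (Fin 3) K) *ᵥ w = v ⬝ᵥ w := by
  show (rho b g : Matrix (Fin 3) (Fin 3) K) *ᵥ v ⬝ᵥ (rho b g⁻¹ : Matrix (Fin 3) (Fin 3) K)ᵀ *ᵥ w =
    v ⬝ᵥ w
  rw [Matrix.mulVec_transpose, dotProduct_comm, ← Matrix.dotProduct_mulVec, Matrix.mulVec_mulVec,
    ← Units.val_mul, ← map_mul, inv_mul_cancel, map_one, Units.val_one, Matrix.one_mulVec,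
    dotProduct_comm]

private theorem vec_ne_zero {a : K} {x : F} (ha : a ≠ 0) : vec b a x ≠ 0 := by
  intro h
  exact ha (by simpa [vec] using congrFun h 0)

private theorem mk_eq_vec {a a' : K} {x x' : F} (h : vec b a x ≠ 0) (h' : vec b a' x' ≠ 0) :
    Projectivization.mk K (vec b a x) h = Projectivization.mk K (vec b a' x') h' ↔
      ∃ c : K, c * a' = a ∧ c • x' = x := by
  rw [Projectivization.mk_eq_mk_iff']
  refine exists_congr fun c => ?_
  rw [smul_vec]
  exact ⟨fun h => vec_inj b h, fun h => by rw [h.1, h.2]⟩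

end Main

end Exist

open Exist in
theorem typeD_of_prime {q : ℕ} (hq : q.Prime) : TypeD q := by
  classical
  have : Fact q.Prime := ⟨hq⟩
  have hfr : Module.finrank (ZMod q) (GaloisField q 2) = 2 := GaloisField.finrank q (by norm_num)
  let b : Module.Basis (Fin 2) (ZMod q) (GaloisField q 2) := Module.finBasisOfFinrankEq _ _ hfr
  let _ : Fintype (ℙ (ZMod q) (Fin 3 → ZMod q)) := Fintype.ofFinite _
  refine ⟨ℙ (ZMod q) (Fin 3 → ZMod q), ℙ (ZMod q) (Fin 3 → ZMod q), inferInstance, inferInstance,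
    inferInstance, inferInstance, (GaloisField q 2)ˣ, inferInstance,
    (MulAction.toPermHom (Matrix (Fin 3) (Fin 3) (ZMod q))ˣ _).comp (rho b),
    (MulAction.toPermHom (Matrix (Fin 3) (Fin 3) (ZMod q))ˣ _).comp (rhoD b), ?_, ?_, ?_⟩
  · have h1 := Configuration.ProjectivePlane.card_points (ℙ (ZMod q) (Fin 3 → ZMod q))
      (ℙ (ZMod q) (Fin 3 → ZMod q))
    have h2 := Projectivization.card_of_finrank (ZMod q) (Fin 3 → ZMod q) (n := 3) (by simp)
    rw [Nat.card_eq_fintype_card, h1, Finset.sum_range_succ, Finset.sum_range_succ,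
      Finset.sum_range_one, Nat.card_zmod] at h2
    generalize Configuration.ProjectivePlane.order (ℙ (ZMod q) (Fin 3 → ZMod q))
      (ℙ (ZMod q) (Fin 3 → ZMod q)) = n at h2
    nlinarith [h2, sq_nonneg (n - q : ℤ)]
  · intro g p l
    induction p with | h v hv =>
    induction l with | h w hw =>
    obtain ⟨h1, e1⟩ := smul_mk' (rho b g) v hv
    obtain ⟨h2, e2⟩ := smul_mk' (rhoD b g) w hw
    rw [MonoidHom.comp_apply, MonoidHom.comp_apply, e1, e2]
    show v ⬝ᵥ w = 0 ↔ _ *ᵥ v ⬝ᵥ _ *ᵥ w = 0
    rw [dot_rho]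
  · have h100 : (![1, 0, 0] : Fin 3 → ZMod q) ≠ 0 := fun h => by simpa using congrFun h 0
    refine ⟨Projectivization.mk _ ![1, 0, 0] h100, Projectivization.mk _ ![1, 0, 0] h100, ?_, ?_, ?_⟩
    · show ¬ (![1, 0, 0] : Fin 3 → ZMod q) ⬝ᵥ ![1, 0, 0] = 0
      simp [dotProduct, Fin.sum_univ_succ]
    · intro g
      obtain ⟨h1, e1⟩ := smul_mk' (rho b g) ![1, 0, 0] h100
      obtain ⟨h2, e2⟩ := smul_mk' (rhoD b g) ![1, 0, 0] h100
      rw [MonoidHom.comp_apply, MonoidHom.comp_apply, e1, e2]
      constructor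
      · congr 1
        rw [← vec_one_zero b, rho_mulVec, mul_zero]
      · congr 1
        exact blockHom_transpose_mulVec _
    · intro x y
      induction x with | h v hv =>
      induction y with | h w hw =>
      intro hx hx' hy hy'
      obtain ⟨a, x, rfl⟩ := exists_vec b v
      obtain ⟨a', x', rfl⟩ := exists_vec b w
      have key : ∀ (a : ZMod q) (x : GaloisField q 2) (h : vec b a x ≠ 0),
          Projectivization.mk (ZMod q) (vec b a x) h ∉
            Projectivization.mk (ZMod q) (![1, 0, 0]) h100 →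
          Projectivization.mk (ZMod q) (vec b a x) h ≠
            Projectivization.mk (ZMod q) (![1, 0, 0]) h100 →
          a ≠ 0 ∧ x ≠ 0 := by
        intro a x h h1 h2
        have ha : a ≠ 0 := by
          rintro rfl
          apply h1
          show vec b 0 x ⬝ᵥ ![1, 0, 0] = 0
          simp [vec, dotProduct, Fin.sum_univ_succ]
        refine ⟨ha, ?_⟩
        rintro rfl
        apply h2
        rw [Projectivization.mk_eq_mk_iff']
        refine ⟨a, ?_⟩
        rw [← vec_one_zero b, smul_vec, mul_one, smul_zero]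
      obtain ⟨ha, hx0⟩ := key a x hv hx hx'
      obtain ⟨ha', hx0'⟩ := key a' x' hw hy hy'
      have hiff : ∀ g : (GaloisField q 2)ˣ,
          ((MulAction.toPermHom (Matrix (Fin 3) (Fin 3) (ZMod q))ˣ
            (ℙ (ZMod q) (Fin 3 → ZMod q))).comp (rho b)) g
            (Projectivization.mk _ (vec b a x) hv) = Projectivization.mk _ (vec b a' x') hw ↔
          (g : GaloisField q 2) = (a / a') • x' / x := by
        intro g
        obtain ⟨h1, e1⟩ := smul_mk' (rho b g) (vec b a x) hv
        rw [MonoidHom.comp_apply, e1]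
        have h2 : vec b a (g * x) ≠ 0 := vec_ne_zero b ha
        have e3 : Projectivization.mk (ZMod q)
            ((rho b g : Matrix (Fin 3) (Fin 3) (ZMod q)) *ᵥ vec b a x) h1 =
            Projectivization.mk (ZMod q) (vec b a (g * x)) h2 := by
          congr 1
          exact rho_mulVec b g a x
        rw [e3, mk_eq_vec]
        constructor
        · rintro ⟨c, hc, hc'⟩
          have : c = a / a' := by rw [eq_div_iff ha', hc]
          rw [← this, hc', mul_div_assoc, div_self hx0, mul_one]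
        · intro hg
          refine ⟨a / a', div_mul_cancel₀ _ ha', ?_⟩
          rw [hg, div_mul_cancel₀ _ hx0]
      have hne : (a / a') • x' / x ≠ 0 :=
        div_ne_zero (smul_ne_zero (div_ne_zero ha ha') hx0') hx0
      refine ⟨Units.mk0 _ hne, ?_, ?_⟩
      · show _ = _
        rw [hiff]
        rfl
      · intro g hg
        have := (hiff g).mp hg
        exact Units.ext this

end Pool.Agent.ADS
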