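import Pool.Agent.Lib.MP_cfcc59_co.ADS.Defs

/-!
# ADS module Geo: a plane with an abelian group of type (d) gives an affine difference set
-/

set_option autoImplicit false

namespace Pool.Agent.ADS

open Finset

section geo

open Configuration Configuration.Nondegenerate Configuration.HasPoints Configuration.HasLines

variable {P L : Type} [Membership P L] [Configuration.ProjectivePlane P L] [Fintype P] [Fintype L]
  {G : Type} [CommGroup G]

open Classical in
private lemma geo_card_pts (l : L) :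
    #(univ.filter fun x : P => x ∈ l) = ProjectivePlane.order P L + 1 := by
  rw [← ProjectivePlane.pointCount_eq P l, pointCount, Nat.card_eq_fintype_card, Fintype.card_subtype]

open Classical in
private lemma geo_card_lines (p : P) :
    #(univ.filter fun l : L => p ∈ l) = ProjectivePlane.order P L + 1 := by
  rw [← ProjectivePlane.lineCount_eq L p, lineCount, Nat.card_eq_fintype_card, Fintype.card_subtype]

open Classical in
private lemma geo_card_ord (p0 : P) (l0 : L) (h : p0 ∉ l0) :
    #(univ.filter fun x : P => x ∉ l0 ∧ x ≠ p0) = ProjectivePlane.order P L ^ 2 - 1 := by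
  set n := ProjectivePlane.order P L with hn
  have h1 : #(univ : Finset P) = n ^ 2 + n + 1 := by
    rw [card_univ, ProjectivePlane.card_points P L]
  have h2 : (univ : Finset P) = (univ.filter fun x : P => x ∉ l0 ∧ x ≠ p0) ∪
      insert p0 (univ.filter fun x : P => x ∈ l0) := by
    ext x
    simp only [mem_univ, mem_union, mem_filter, mem_insert, true_and, true_iff]
    tauto
  have h3 : Disjoint (univ.filter fun x : P => x ∉ l0 ∧ x ≠ p0)
      (insert p0 (univ.filter fun x : P => x ∈ l0)) := by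
    rw [Finset.disjoint_left]
    intro x hx hx'
    simp only [mem_filter, mem_univ, mem_insert, true_and] at hx hx'
    tauto
  have h4 : #(insert p0 (univ.filter fun x : P => x ∈ l0)) = n + 1 + 1 := by
    rw [card_insert_of_notMem (by simpa using h), geo_card_pts]
  rw [h2, card_union_of_disjoint h3, h4] at h1
  omega

open Classical in
private lemma geo_exists_line (p0 : P) (l0 : L) : ∃ l1 : L, p0 ∉ l1 ∧ l1 ≠ l0 := by
  by_contra hcon
  push Not at hcon
  have h1 : (univ : Finset L) ⊆ insert l0 (univ.filter fun l : L => p0 ∈ l) := by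
    intro l _
    simp only [mem_insert, mem_filter, mem_univ, true_and]
    by_cases h : p0 ∈ l
    · exact Or.inr h
    · exact Or.inl (hcon l h)
  have h2 := (card_le_card h1).trans (card_insert_le _ _)
  rw [card_univ, ProjectivePlane.card_lines P L, geo_card_lines] at h2
  have := ProjectivePlane.one_lt_order P L
  nlinarith

private lemma geo_dvd [Fintype G] [DecidableEq G] (H : Subgroup G) (D : Finset G)
    (hD : ∀ h ∈ H, ∀ g ∈ D, g * h ∈ D) : Nat.card H ∣ #D := by
  classical
  rw [Finset.card_eq_sum_card_image (fun g : G => (QuotientGroup.mk g : G ⧸ H)) D]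
  refine Finset.dvd_sum ?_
  intro b hb
  rw [mem_image] at hb
  obtain ⟨g, hg, rfl⟩ := hb
  have : #(D.filter fun a => (QuotientGroup.mk a : G ⧸ H) = QuotientGroup.mk g) = Nat.card H := by
    rw [Nat.card_eq_fintype_card, ← card_univ]
    symm
    refine Finset.card_bij (fun (h : H) _ => g * (h : G)) ?_ ?_ ?_
    · intro h _
      rw [mem_filter]
      refine ⟨hD h h.2 g hg, ?_⟩
      rw [eq_comm, QuotientGroup.eq]
      simp
    · intro h _ h' _ heq
      exact Subtype.ext (mul_left_cancel heq)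
    · intro a ha
      rw [mem_filter] at ha
      have h1 := ha.2
      rw [eq_comm, QuotientGroup.eq] at h1
      exact ⟨⟨g⁻¹ * a, h1⟩, mem_univ _, by simp⟩
  rw [this]

private theorem geo_main (φ : G →* Equiv.Perm P) (ψ : G →* Equiv.Perm L)
    (hinc : ∀ (g : G) (p : P) (l : L), p ∈ l ↔ φ g p ∈ ψ g l) {p0 : P} {l0 : L} (hp0 : p0 ∉ l0)
    (hfix : ∀ g : G, φ g p0 = p0 ∧ ψ g l0 = l0)
    (hreg : ∀ x y : P, x ∉ l0 → x ≠ p0 → y ∉ l0 → y ≠ p0 → ∃! g : G, φ g x = y) :
    ∃ (_ : Fintype G) (_ : DecidableEq G) (N : Subgroup G)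
      (D : Finset G), Aff (ProjectivePlane.order P L) N D := by
  classical
  set n := ProjectivePlane.order P L with hn
  have hn2 : 2 ≤ n := ProjectivePlane.one_lt_order P L
  have hsq : 2 * 2 ≤ n ^ 2 := by nlinarith
  -- the ordinary point
  have hpos : 0 < #(univ.filter fun x : P => x ∉ l0 ∧ x ≠ p0) := by
    rw [geo_card_ord p0 l0 hp0, ← hn]; omega
  obtain ⟨x0, hx0⟩ := card_pos.1 hpos
  simp only [mem_filter, mem_univ, true_and] at hx0
  have hord : ∀ (g : G) (x : P), x ∉ l0 → x ≠ p0 → φ g x ∉ l0 ∧ φ g x ≠ p0 := by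
    intro g x h1 h2
    refine ⟨?_, ?_⟩
    · intro h
      apply h1
      rw [hinc g x l0, (hfix g).2]
      exact h
    · intro h
      apply h2
      apply (φ g).injective
      rw [h, (hfix g).1]
  have hinj : Function.Injective (fun g : G => φ g x0) := by
    intro g h hgh
    obtain ⟨h1, h2⟩ := hord g x0 hx0.1 hx0.2
    exact (hreg x0 (φ g x0) hx0.1 hx0.2 h1 h2).unique rfl hgh.symm
  let iG : Fintype G := Fintype.ofInjective _ hinj
  have hcardG : Fintype.card G = n ^ 2 - 1 := by
    rw [← geo_card_ord p0 l0 hp0, ← card_univ]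
    refine Finset.card_bij (fun g _ => φ g x0) ?_ ?_ ?_
    · intro g _
      simp only [mem_filter, mem_univ, true_and]
      exact hord g x0 hx0.1 hx0.2
    · intro g _ h _ hgh
      exact hinj hgh
    · intro y hy
      simp only [mem_filter, mem_univ, true_and] at hy
      obtain ⟨g, hg, -⟩ := hreg x0 y hx0.1 hx0.2 hy.1 hy.2
      exact ⟨g, mem_univ _, hg⟩
  obtain ⟨l1, hl1, hl1'⟩ := geo_exists_line p0 l0
  set c : P := mkPoint hl1' with hc
  have hc1 : c ∈ l1 := (mkPoint_ax hl1').1
  have hc0 : c ∈ l0 := (mkPoint_ax hl1').2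
  have hcu : ∀ x : P, x ∈ l1 → x ∈ l0 → x = c := fun x h1 h2 =>
    (eq_or_eq h1 hc1 h2 hc0).resolve_right hl1'
  set D : Finset G := univ.filter fun g : G => φ g x0 ∈ l1 with hD
  have hmemD : ∀ g, g ∈ D ↔ φ g x0 ∈ l1 := by intro g; simp [hD]
  have hcardD : #D = n := by
    have h1 : #((univ.filter fun x : P => x ∈ l1).erase c) = n := by
      rw [card_erase_of_mem (by simpa using hc1), geo_card_pts]; rfl
    rw [← h1]
    refine Finset.card_bij (fun g _ => φ g x0) ?_ ?_ ?_
    · intro g hg
      rw [hmemD] at hg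
      simp only [mem_erase, mem_filter, mem_univ, true_and]
      refine ⟨?_, hg⟩
      intro h
      exact (hord g x0 hx0.1 hx0.2).1 (h ▸ hc0)
    · intro g _ h _ hgh
      exact hinj hgh
    · intro x hx
      simp only [mem_erase, mem_filter, mem_univ, true_and] at hx
      have hx1 : x ∉ l0 := fun h => hx.1 (hcu x hx.2 h)
      have hx2 : x ≠ p0 := fun h => hl1 (h ▸ hx.2)
      obtain ⟨g, hg, -⟩ := hreg x0 x hx0.1 hx0.2 hx1 hx2
      exact ⟨g, (hmemD g).2 (by rw [hg]; exact hx.2), hg⟩
  -- the stabiliser of `l1` is trivial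
  have hstab : ∀ a : G, a ≠ 1 → ψ a l1 ≠ l1 := by
    let H : Subgroup G :=
      { carrier := {a | ψ a l1 = l1}
        one_mem' := by simp
        mul_mem' := by
          intro a b ha hb
          change ψ (a * b) l1 = l1
          rw [map_mul, Equiv.Perm.mul_apply, show ψ b l1 = l1 from hb, show ψ a l1 = l1 from ha]
        inv_mem' := by
          intro a ha
          change ψ a⁻¹ l1 = l1
          rw [map_inv, Equiv.Perm.inv_eq_iff_eq]
          exact (show ψ a l1 = l1 from ha).symm }
    have hH : ∀ a, a ∈ H ↔ ψ a l1 = l1 := fun a => Iff.rfl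
    have h1 : Nat.card H ∣ n := by
      rw [← hcardD]
      apply geo_dvd
      intro h hh g hg
      rw [hmemD] at hg ⊢
      rw [mul_comm, map_mul, Equiv.Perm.mul_apply, ← (hH h).1 hh, ← hinc]
      exact hg
    have h2 : Nat.card H ∣ n ^ 2 - 1 := by
      rw [← hcardG, ← Nat.card_eq_fintype_card]
      exact Subgroup.card_subgroup_dvd_card H
    have h3 : Nat.card H = 1 := by
      have h4 : Nat.card H ∣ n ^ 2 := h1.trans (Dvd.intro_left n (by ring))
      have h5 : Nat.card H ∣ n ^ 2 - (n ^ 2 - 1) := Nat.dvd_sub h4 h2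
      have h6 : n ^ 2 - (n ^ 2 - 1) = 1 := by omega
      rw [h6] at h5
      exact Nat.dvd_one.1 h5
    intro a ha h
    apply ha
    have h4 : a ∈ H := h
    rw [Subgroup.card_eq_one.1 h3] at h4
    exact Subgroup.mem_bot.1 h4
  let N : Subgroup G :=
    { carrier := {a | φ a c = c}
      one_mem' := by simp
      mul_mem' := by
        intro a b ha hb
        change φ (a * b) c = c
        rw [map_mul, Equiv.Perm.mul_apply, show φ b c = c from hb, show φ a c = c from ha]
      inv_mem' := by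
        intro a ha
        change φ a⁻¹ c = c
        rw [map_inv, Equiv.Perm.inv_eq_iff_eq]
        exact (show φ a c = c from ha).symm }
  have hN : ∀ a, a ∈ N ↔ φ a c = c := fun a => Iff.rfl
  -- the point of a solution
  have hsol : ∀ a x1 x2 : G, x1 ∈ D → x2 ∈ D → x1 = a * x2 → φ x1 x0 ∈ l1 ∧ φ x1 x0 ∈ ψ a l1 := by
    intro a x1 x2 h1 h2 h3
    refine ⟨(hmemD _).1 h1, ?_⟩
    rw [h3, map_mul, Equiv.Perm.mul_apply, ← hinc]
    exact (hmemD _).1 h2
  have hone : ∀ a : G, a ∉ N → #{x ∈ D ×ˢ D | x.1 = a * x.2} = 1 := by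
    intro a ha
    have ha1 : a ≠ 1 := fun h => ha (h ▸ N.one_mem)
    have hne : l1 ≠ ψ a l1 := (hstab a ha1).symm
    set z : P := mkPoint hne with hz
    have hz1 : z ∈ l1 := (mkPoint_ax hne).1
    have hz2 : z ∈ ψ a l1 := (mkPoint_ax hne).2
    have hzu : ∀ x : P, x ∈ l1 → x ∈ ψ a l1 → x = z := fun x h1 h2 =>
      (eq_or_eq h1 hz1 h2 hz2).resolve_right hne
    have hz0 : z ∉ l0 := by
      intro h
      have h1 : z = c := hcu z hz1 h
      rw [h1] at hz2
      apply ha
      rw [hN]
      have h2 : (φ a)⁻¹ c ∈ l1 := by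
        rw [hinc a, ← Equiv.Perm.mul_apply, mul_inv_cancel, Equiv.Perm.one_apply]; exact hz2
      have h3 : (φ a)⁻¹ c ∈ l0 := by
        rw [hinc a, ← Equiv.Perm.mul_apply, mul_inv_cancel, Equiv.Perm.one_apply, (hfix a).2]; exact hc0
      have h4 := hcu _ h2 h3
      rw [Equiv.Perm.inv_eq_iff_eq] at h4
      exact h4.symm
    have hzp : z ≠ p0 := fun h => hl1 (h ▸ hz1)
    obtain ⟨g, hg, hgu⟩ := hreg x0 z hx0.1 hx0.2 hz0 hzp
    rw [card_eq_one]
    refine ⟨(g, a⁻¹ * g), ?_⟩
    ext ⟨x1, x2⟩
    simp only [mem_filter, mem_product, mem_singleton, Prod.mk.injEq]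
    constructor
    · rintro ⟨⟨h1, h2⟩, h3⟩
      obtain ⟨h4, h5⟩ := hsol a x1 x2 h1 h2 h3
      have h6 : x1 = g := hgu x1 (hzu _ h4 h5)
      refine ⟨h6, ?_⟩
      rw [← h6, h3]; simp
    · rintro ⟨rfl, rfl⟩
      have hg' : φ x1 x0 = z := hg
      refine ⟨⟨?_, ?_⟩, by simp⟩
      · rw [hmemD, hg']; exact hz1
      · rw [hmemD, hinc a, ← Equiv.Perm.mul_apply, ← map_mul, mul_inv_cancel_left, hg']
        exact hz2
  have hzero : ∀ a : G, a ∈ N → a ≠ 1 → #{x ∈ D ×ˢ D | x.1 = a * x.2} = 0 := by
    intro a ha ha1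
    rw [card_eq_zero, filter_eq_empty_iff]
    rintro ⟨x1, x2⟩ hx h3
    rw [mem_product] at hx
    obtain ⟨h4, h5⟩ := hsol a x1 x2 hx.1 hx.2 h3
    have h6 : c ∈ ψ a l1 := by
      rw [← (hN a).1 ha, ← hinc]; exact hc1
    rcases eq_or_eq h4 hc1 h5 h6 with h | h
    · exact (hord x1 x0 hx0.1 hx0.2).1 (h ▸ hc0)
    · exact hstab a ha1 h.symm
  have hcardN : Nat.card N = n - 1 := by
    have h1 : #(D ×ˢ D) = ∑ a ∈ (univ : Finset G), #{x ∈ D ×ˢ D | x.1 = a * x.2} := by
      rw [Finset.card_eq_sum_card_fiberwise (f := fun x : G × G => x.1 / x.2)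
        (t := (univ : Finset G)) (fun x _ => by simp)]
      refine Finset.sum_congr rfl fun a _ => ?_
      congr 1
      ext x
      simp only [mem_filter, div_eq_iff_eq_mul]
    have h2 : ∀ a ∈ (univ : Finset G), #{x ∈ D ×ˢ D | x.1 = a * x.2} =
        (if a = 1 then n else 0) + (if a ∉ N then 1 else 0) := by
      intro a _
      by_cases ha : a = 1
      · subst ha
        have h3 : #{x ∈ D ×ˢ D | x.1 = 1 * x.2} = #D := by
          symm
          refine Finset.card_bij (fun g _ => (g, g)) ?_ ?_ ?_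
          · intro g hg; simp [hg]
          · intro g _ h _ hgh; exact (Prod.mk.inj hgh).1
          · rintro ⟨x1, x2⟩ hx
            simp only [mem_filter, mem_product, one_mul] at hx
            exact ⟨x1, hx.1.1, by rw [hx.2]⟩
        rw [h3, hcardD]; simp [N.one_mem]
      · by_cases haN : a ∈ N
        · rw [hzero a haN ha]; simp [ha, haN]
        · rw [hone a haN]; simp [ha, haN]
    rw [Finset.sum_congr rfl h2, Finset.sum_add_distrib, Finset.sum_ite_eq' univ (1 : G),
      if_pos (mem_univ _), card_product, hcardD, Finset.sum_boole] at h1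
    have h4 : #(univ.filter fun a : G => a ∈ N) = Nat.card N := by
      rw [Nat.card_eq_fintype_card, Fintype.card_subtype]
    have h5 : #(univ.filter fun a : G => a ∈ N) + #(univ.filter fun a : G => a ∉ N) = n ^ 2 - 1 := by
      rw [card_filter_add_card_filter_not, card_univ, hcardG]
    rw [h4] at h5
    simp only [Nat.cast_id] at h1
    have h6 : n * n = n ^ 2 := by ring
    rw [h6] at h1
    omega
  exact ⟨iG, inferInstance, N, D, hn2, hcardG, hcardN, hcardD, by convert! hone, by convert! hzero⟩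

end geo

theorem exists_aff {n : ℕ} (h : TypeD n) :
    ∃ (G : Type) (_ : CommGroup G) (_ : Fintype G) (_ : DecidableEq G) (N : Subgroup G)
      (D : Finset G), Aff n N D := by
  obtain ⟨P, L, iM, iP, fP, fL, G, iG, φ, ψ, rfl, hinc, p0, l0, hp0, hfix, hreg⟩ := h
  obtain ⟨fG, dG, N, D, hA⟩ := geo_main φ ψ hinc hp0 hfix hreg
  exact ⟨G, iG, fG, dG, N, D, hA⟩

end Pool.Agent.ADS
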