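import Pool.Agent.Lib.MP_cfcc59_co.ADS.Defs

/-!
# MP_cfcc59_co, project ADS, module Mult: the multiplier theorem for affine difference sets
-/

set_option autoImplicit false
set_option linter.unusedSectionVars false

namespace Pool.Agent.ADS

open Finset MonoidAlgebra

namespace Mult

noncomputable section

variable {G : Type} [CommGroup G] [Fintype G] [DecidableEq G]

/-- the element of the group ring which belongs to a group element -/
def T (g : G) : MonoidAlgebra ℤ G := single g 1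

/-- the element of the group ring which belongs to a set -/
def S (X : Finset G) : MonoidAlgebra ℤ G := ∑ x ∈ X, T x

theorem coeff_T (g a : G) : (T g).coeff a = if g = a then 1 else 0 := by
  rw [T, coeff_single, Finsupp.single_apply]

theorem coeff_S (X : Finset G) (a : G) : (S X).coeff a = if a ∈ X then 1 else 0 := by
  have h : (S X).coeff a = ∑ x ∈ X, (T x).coeff a := by
    simp [S]
  rw [h]
  simp only [coeff_T]
  rw [Finset.sum_ite_eq' X a (fun _ => (1 : ℤ))]

theorem T_mul (g h : G) : T g * T h = T (g * h) := by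
  simp [T]

theorem T_one : T (1 : G) = 1 := rfl

theorem T_pow (g : G) (k : ℕ) : T g ^ k = T (g ^ k) := by
  induction k with
  | zero => simp [T_one]
  | succ k ih => rw [pow_succ, ih, T_mul, pow_succ]

theorem T_mul_S (g : G) (X : Finset G) : T g * S X = S (X.image fun x => g * x) := by
  rw [S, S, mul_sum, sum_image (fun a _ b _ h => mul_left_cancel h)]
  exact sum_congr rfl fun x _ => T_mul g x

theorem coeff_T_mul (g : G) (f : MonoidAlgebra ℤ G) (a : G) :
    (T g * f).coeff a = f.coeff (g⁻¹ * a) := by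
  rw [T, coeff_single_mul_eq_mul_coeff (g⁻¹ * a), one_mul]
  intro m _
  constructor
  · rintro rfl
    simp
  · rintro rfl
    simp

theorem coeff_S_mul_S (X Y : Finset G) (a : G) :
    (S X * S Y).coeff a = (#{p ∈ X ×ˢ Y | p.1 * p.2 = a} : ℤ) := by
  have h : S X * S Y = ∑ p ∈ X ×ˢ Y, T (p.1 * p.2) := by
    rw [S, S, sum_mul_sum, sum_product]
    exact sum_congr rfl fun x _ => sum_congr rfl fun y _ => T_mul x y
  have h2 : (S X * S Y).coeff a = ∑ p ∈ X ×ˢ Y, (T (p.1 * p.2)).coeff a := by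
    rw [h]
    simp
  rw [h2]
  simp only [coeff_T]
  rw [card_filter]
  push_cast
  rfl

theorem S_inj {X Y : Finset G} (h : S X = S Y) : X = Y := by
  ext a
  have h1 : (S X).coeff a = (S Y).coeff a := by rw [h]
  rw [coeff_S, coeff_S] at h1
  by_cases hx : a ∈ X <;> by_cases hy : a ∈ Y <;> simp_all

/-- the endomorphism of the group ring -/
def P (f : G →* G) : MonoidAlgebra ℤ G →+* MonoidAlgebra ℤ G := mapDomainRingHom ℤ f

theorem P_T (f : G →* G) (g : G) : P f (T g) = T (f g) := by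
  simp [P, T]

theorem P_S (f : G →* G) {X : Finset G} (hf : Set.InjOn f X) : P f (S X) = S (X.image f) := by
  rw [S, map_sum, S, sum_image hf]
  exact sum_congr rfl fun x _ => P_T f x

theorem P_nat (f : G →* G) (k : ℕ) : P f (k : MonoidAlgebra ℤ G) = k := map_natCast _ _

theorem T_mul_univ (g : G) : T g * S univ = S univ := by
  rw [T_mul_S]
  congr 1
  refine eq_univ_of_forall fun a => mem_image.2 ⟨g⁻¹ * a, mem_univ _, by simp⟩

theorem S_mul_univ (X : Finset G) : S X * S univ = (#X : MonoidAlgebra ℤ G) * S univ := by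
  conv_lhs => rw [S]
  rw [sum_mul]
  simp only [T_mul_univ]
  rw [sum_const, nsmul_eq_mul]

theorem S_mul_of_inv (X Y : Finset G) (h : ∀ x ∈ X, T x * S Y = S Y) :
    S X * S Y = (#X : MonoidAlgebra ℤ G) * S Y := by
  conv_lhs => rw [S]
  rw [sum_mul, sum_congr rfl h, sum_const, nsmul_eq_mul]

theorem coeff_nat (k : ℕ) (a : G) :
    (k : MonoidAlgebra ℤ G).coeff a = if a = 1 then (k : ℤ) else 0 := by
  rw [coeff_natCast, Finsupp.single_apply]
  simp only [eq_comm]

theorem coeff_nat_mul (k : ℕ) (f : MonoidAlgebra ℤ G) (a : G) :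
    ((k : MonoidAlgebra ℤ G) * f).coeff a = k * f.coeff a := by
  rw [← nsmul_eq_mul, coeff_smul, Finsupp.smul_apply, nsmul_eq_mul]

theorem nat_mul_cancel {k : ℕ} (hk : k ≠ 0) {f g : MonoidAlgebra ℤ G}
    (h : (k : MonoidAlgebra ℤ G) * f = k * g) : f = g := by
  refine MonoidAlgebra.ext (Finsupp.ext fun a => ?_)
  have h1 : ((k : MonoidAlgebra ℤ G) * f).coeff a = ((k : MonoidAlgebra ℤ G) * g).coeff a := by
    rw [h]
  rw [coeff_nat_mul, coeff_nat_mul] at h1
  exact mul_left_cancel₀ (by exact_mod_cast hk) h1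

open Classical in
/-- the subgroup as a set -/
def NF (N : Subgroup G) : Finset G := univ.filter (· ∈ N)

theorem mem_NF {N : Subgroup G} {a : G} : a ∈ NF N ↔ a ∈ N := by
  simp [NF]

theorem card_NF (N : Subgroup G) : #(NF N) = Nat.card N := by
  classical
  rw [Nat.card_eq_fintype_card, Fintype.card_subtype]
  exact congrArg card (by ext; simp [mem_NF])

theorem T_mul_NF {N : Subgroup G} {m : G} (hm : m ∈ N) : T m * S (NF N) = S (NF N) := by
  rw [T_mul_S]
  congr 1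
  ext a
  rw [mem_image, mem_NF]
  constructor
  · rintro ⟨x, hx, rfl⟩
    exact N.mul_mem hm (mem_NF.1 hx)
  · intro ha
    exact ⟨m⁻¹ * a, mem_NF.2 (N.mul_mem (N.inv_mem hm) ha), by simp⟩

theorem P_univ {f : G →* G} (hf : Function.Injective f) : P f (S univ) = S univ := by
  rw [P_S f hf.injOn]
  congr 1
  exact image_univ_of_surjective (Finite.injective_iff_surjective.1 hf)

theorem P_NF {f : G →* G} (hf : Function.Injective f) {N : Subgroup G}
    (hN : ∀ a ∈ N, f a ∈ N) : P f (S (NF N)) = S (NF N) := by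
  rw [P_S f hf.injOn]
  congr 1
  refine eq_of_subset_of_card_le ?_ ?_
  · intro a ha
    rw [mem_image] at ha
    obtain ⟨x, hx, rfl⟩ := ha
    exact mem_NF.2 (hN x (mem_NF.1 hx))
  · rw [card_image_of_injective _ hf]

variable {n : ℕ} {N : Subgroup G} {D : Finset G}

theorem DDs (hA : Aff n N D) :
    S D * S (D.image fun x => x⁻¹) = (n : MonoidAlgebra ℤ G) + S univ - S (NF N) := by
  refine MonoidAlgebra.ext (Finsupp.ext fun a => ?_)
  rw [coeff_S_mul_S]
  have h1 : #{p ∈ D ×ˢ D.image (fun x => x⁻¹) | p.1 * p.2 = a} =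
      #{x ∈ D ×ˢ D | x.1 = a * x.2} := by
    refine card_bij (fun p _ => (p.1, p.2⁻¹)) ?_ ?_ ?_
    · rintro ⟨x, y⟩ h
      simp only [mem_filter, mem_product, mem_image] at h ⊢
      obtain ⟨⟨hx, z, hz, rfl⟩, h2⟩ := h
      refine ⟨⟨hx, by simpa using hz⟩, ?_⟩
      rw [← h2]
      simp
    · rintro ⟨x, y⟩ _ ⟨x', y'⟩ _ h
      simpa using h
    · rintro ⟨x, y⟩ h
      simp only [mem_filter, mem_product] at h
      refine ⟨(x, y⁻¹), ?_, by simp⟩
      simp only [mem_filter, mem_product, mem_image]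
      refine ⟨⟨h.1.1, y, h.1.2, rfl⟩, ?_⟩
      rw [h.2]
      simp
  rw [h1]
  have h2 : ((n : MonoidAlgebra ℤ G) + S univ - S (NF N)).coeff a =
      (if a = 1 then (n : ℤ) else 0) + 1 - (if a ∈ NF N then 1 else 0) := by
    rw [coeff_sub, coeff_add, Finsupp.sub_apply, Finsupp.add_apply, coeff_nat, coeff_S, coeff_S]
    simp
  rw [h2]
  by_cases ha : a = 1
  · subst ha
    have h3 : #{x ∈ D ×ˢ D | x.1 = 1 * x.2} = #D := by
      symm
      refine card_bij (fun x _ => (x, x)) ?_ ?_ ?_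
      · intro x hx
        simp [hx]
      · intro x _ y _ h
        simpa using h
      · rintro ⟨x, y⟩ h
        simp only [mem_filter, mem_product, one_mul] at h
        exact ⟨y, h.1.2, by rw [h.2]⟩
    have h4 : (1 : G) ∈ NF N := mem_NF.2 N.one_mem
    rw [h3, hA.cardD]
    simp [h4]
  · by_cases hN : a ∈ N
    · rw [hA.zero a hN ha]
      simp [ha, mem_NF.2 hN]
    · rw [hA.one a hN]
      have h4 : a ∉ NF N := fun h => hN (mem_NF.1 h)
      simp [ha, h4]

theorem eq_of_mk_eq (hA : Aff n N D) {x y : G} (hx : x ∈ D) (hy : y ∈ D)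
    (h : (x : G ⧸ N) = (y : G ⧸ N)) : x = y := by
  by_contra hne
  have h1 : x * y⁻¹ ∈ N := by
    have h2 := QuotientGroup.eq.1 h.symm
    rwa [mul_comm] at h2
  have h3 : x * y⁻¹ ≠ 1 := fun h4 => hne (mul_inv_eq_one.1 h4)
  have h4 := hA.zero _ h1 h3
  rw [card_eq_zero] at h4
  have h5 : (x, y) ∈ ({z ∈ D ×ˢ D | z.1 = x * y⁻¹ * z.2} : Finset (G × G)) := by
    simp [hx, hy]
  rw [h4] at h5
  exact absurd h5 (notMem_empty _)

theorem card_quot (hA : Aff n N D) : Nat.card (G ⧸ N) = n + 1 := by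
  have h1 := Subgroup.card_eq_card_quotient_mul_card_subgroup N
  rw [Nat.card_eq_fintype_card, hA.cardG, hA.cardN] at h1
  have h2 := hA.hn
  have h3 : n ^ 2 - 1 = (n + 1) * (n - 1) := by
    obtain ⟨m, rfl⟩ : ∃ m, n = m + 1 := ⟨n - 1, by omega⟩
    simp only [Nat.add_sub_cancel]
    rw [Nat.sub_eq_iff_eq_add (by nlinarith)]
    ring
  rw [h3] at h1
  exact (Nat.eq_of_mul_eq_mul_right (by omega) h1).symm

theorem exists_missed (hA : Aff n N D) : ∃ g0 : G, (∀ d ∈ D, (d : G ⧸ N) ≠ (g0 : G ⧸ N)) ∧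
    ∀ a : G, (a : G ⧸ N) ≠ (g0 : G ⧸ N) → ∃ d ∈ D, (d : G ⧸ N) = (a : G ⧸ N) := by
  classical
  have : Fintype (G ⧸ N) := Fintype.ofFinite _
  have h1 : #(D.image fun d : G => (QuotientGroup.mk d : G ⧸ N)) = n := by
    rw [card_image_of_injOn, hA.cardD]
    intro x hx y hy h
    exact eq_of_mk_eq hA hx hy h
  have h2 : #(D.image fun d : G => (QuotientGroup.mk d : G ⧸ N))ᶜ = 1 := by
    rw [card_compl, h1, ← Nat.card_eq_fintype_card, card_quot hA]
    omega
  obtain ⟨q0, hq0⟩ := card_eq_one.1 h2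
  obtain ⟨g0, rfl⟩ := QuotientGroup.mk_surjective q0
  refine ⟨g0, fun d hd h => ?_, fun a ha => ?_⟩
  · have h3 : (g0 : G ⧸ N) ∈ (D.image fun d : G => (QuotientGroup.mk d : G ⧸ N))ᶜ := by
      rw [hq0]
      simp
    rw [mem_compl] at h3
    exact h3 (mem_image.2 ⟨d, hd, h⟩)
  · have h3 : (a : G ⧸ N) ∉ (D.image fun d : G => (QuotientGroup.mk d : G ⧸ N))ᶜ := by
      rw [hq0, mem_singleton]
      exact ha
    rw [mem_compl, not_not, mem_image] at h3
    exact h3

theorem DN (hA : Aff n N D) : ∃ g0 : G, S D * S (NF N) = S univ - T g0 * S (NF N) := by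
  obtain ⟨g0, h1, h2⟩ := exists_missed hA
  refine ⟨g0, MonoidAlgebra.ext (Finsupp.ext fun a => ?_)⟩
  rw [coeff_S_mul_S, coeff_sub, Finsupp.sub_apply, coeff_T_mul, coeff_S, coeff_S,
    if_pos (mem_univ a)]
  by_cases ha : (g0 : G ⧸ N) = (a : G ⧸ N)
  · have h3 : g0⁻¹ * a ∈ NF N := mem_NF.2 (QuotientGroup.eq.1 ha)
    rw [if_pos h3, sub_self, Nat.cast_eq_zero, card_eq_zero, filter_eq_empty_iff]
    rintro ⟨d, m⟩ hp h4
    rw [mem_product] at hp
    refine h1 d hp.1 ?_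
    rw [ha]
    refine QuotientGroup.eq.2 ?_
    have h5 : d⁻¹ * a = m := by
      rw [← h4]
      simp
    rw [h5]
    exact mem_NF.1 hp.2
  · have h3 : g0⁻¹ * a ∉ NF N := fun h => ha (QuotientGroup.eq.2 (mem_NF.1 h))
    rw [if_neg h3, sub_zero, Nat.cast_eq_one, card_eq_one]
    obtain ⟨d, hd, hda⟩ := h2 a (fun h => ha h.symm)
    refine ⟨(d, d⁻¹ * a), ?_⟩
    ext ⟨x, m⟩
    rw [mem_filter, mem_product, mem_singleton]
    constructor
    · rintro ⟨⟨hx, hm⟩, h4⟩
      have h5 : x⁻¹ * a = m := by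
        rw [← h4]
        simp
      have h6 : (x : G ⧸ N) = (a : G ⧸ N) := QuotientGroup.eq.2 (by
        rw [h5]
        exact mem_NF.1 hm)
      have h7 : x = d := eq_of_mk_eq hA hx hd (h6.trans hda.symm)
      rw [← h5, h7]
    · intro h
      rw [Prod.mk.injEq] at h
      obtain ⟨rfl, rfl⟩ := h
      exact ⟨⟨hd, mem_NF.2 (QuotientGroup.eq.1 hda)⟩, by simp⟩

theorem pow_inj (hA : Aff n N D) {p : ℕ} (hp : p.Prime) (hpn : p ∣ n) (j : ℕ) :
    Function.Injective (powMonoidHom (p ^ j) : G →* G) := by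
  have h1 : (Nat.card G).Coprime (p ^ j) := by
    refine Nat.Coprime.pow_right _ ?_
    rw [Nat.card_eq_fintype_card, hA.cardG, Nat.coprime_comm, hp.coprime_iff_not_dvd]
    intro h
    have h2 : p ∣ n ^ 2 := dvd_pow hpn two_ne_zero
    have h3 : 1 ≤ n ^ 2 := Nat.one_le_pow _ _ (by have := hA.hn; omega)
    have h4 : p ∣ n ^ 2 - (n ^ 2 - 1) := Nat.dvd_sub h2 h
    have h5 : n ^ 2 - (n ^ 2 - 1) = 1 := by omega
    rw [h5] at h4
    exact hp.one_lt.ne' (Nat.dvd_one.1 h4)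
  exact h1.pow_left_bijective.1

theorem exists_A (hA : Aff n N D) {p : ℕ} (hp : p.Prime) (hpn : p ∣ n) {j : ℕ} (hj : 1 ≤ j)
    {g0 : G} (hg : S D * S (NF N) = S univ - T g0 * S (NF N)) :
    ∃ A : MonoidAlgebra ℤ G, (∀ a, 0 ≤ A.coeff a) ∧
      P (powMonoidHom (p ^ j)) (S D) * S (D.image fun x => x⁻¹) =
        S univ - T (g0 ^ (p ^ j - 1)) * S (NF N) + (p : MonoidAlgebra ℤ G) * A := by
  have := Fact.mk hp
  have : CharP (MonoidAlgebra (ZMod p) G) p :=
    charP_of_injective_algebraMap (algebraMap (ZMod p) (MonoidAlgebra (ZMod p) G)).injective p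
  obtain ⟨m, hm⟩ : ∃ m, p ^ j = m + 2 := by
    refine ⟨p ^ j - 2, ?_⟩
    have h1 : p ^ 1 ≤ p ^ j := Nat.pow_le_pow_right hp.pos hj
    rw [pow_one] at h1
    have h2 := hp.two_le
    omega
  set ρ : MonoidAlgebra ℤ G →+* MonoidAlgebra (ZMod p) G :=
    mapRingHom G (Int.castRingHom (ZMod p)) with hρ
  set F := P (powMonoidHom (p ^ j)) (S D) * S (D.image fun x => x⁻¹) with hF
  have hn0 : ρ (n : MonoidAlgebra ℤ G) = 0 := by
    rw [map_natCast]
    exact (CharP.cast_eq_zero_iff _ p n).2 hpn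
  have h1 : ρ (P (powMonoidHom (p ^ j)) (S D)) = ρ (S D) ^ (p ^ j) := by
    rw [S, map_sum, map_sum, map_sum, sum_pow_char_pow]
    refine sum_congr rfl fun x _ => ?_
    rw [P_T, powMonoidHom_apply, ← T_pow, map_pow]
  have h2 : ρ (S D) * ρ (S (D.image fun x => x⁻¹)) = ρ (S univ) - ρ (S (NF N)) := by
    rw [← map_mul, DDs hA, map_sub, map_add, hn0, zero_add]
  have h3 : ρ (S D) * ρ (S univ) = 0 := by
    rw [← map_mul, S_mul_univ, hA.cardD, map_mul, hn0, zero_mul]
  have h4 : ρ (S D) * ρ (S (NF N)) = ρ (S univ) - ρ (T g0) * ρ (S (NF N)) := by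
    rw [← map_mul, hg, map_sub, map_mul]
  have h5 : ρ (T g0) * ρ (S univ) = ρ (S univ) := by
    rw [← map_mul, T_mul_univ]
  have h6 : ∀ k : ℕ, ρ (S D) ^ (k + 1) * ρ (S (NF N)) =
      (-1) ^ k * (ρ (S univ) - ρ (T g0) ^ (k + 1) * ρ (S (NF N))) := by
    intro k
    induction k with
    | zero => simpa using h4
    | succ k ih =>
      have h7 : ρ (T g0) ^ (k + 1) * ρ (S univ) = ρ (S univ) := by
        clear ih
        induction k with
        | zero => simpa using h5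
        | succ k ih => rw [pow_succ, mul_assoc, h5, ih]
      calc ρ (S D) ^ (k + 1 + 1) * ρ (S (NF N))
          = ρ (S D) * (ρ (S D) ^ (k + 1) * ρ (S (NF N))) := by ring
        _ = ρ (S D) * ((-1) ^ k * (ρ (S univ) - ρ (T g0) ^ (k + 1) * ρ (S (NF N)))) := by rw [ih]
        _ = (-1) ^ k * (ρ (S D) * ρ (S univ)
              - ρ (T g0) ^ (k + 1) * (ρ (S D) * ρ (S (NF N)))) := by ring
        _ = (-1) ^ k * (0 - (ρ (T g0) ^ (k + 1) * ρ (S univ)
              - ρ (T g0) ^ (k + 1 + 1) * ρ (S (NF N)))) := by rw [h3, h4]; ring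
        _ = _ := by rw [h7]; ring
  have h8 : (-1 : MonoidAlgebra (ZMod p) G) ^ (m + 1) = 1 := by
    have h9 : (-1 : MonoidAlgebra (ZMod p) G) ^ p ^ j = -1 := neg_one_pow_char_pow ..
    rw [hm, pow_succ] at h9
    linear_combination -h9
  have h10 : ρ F = ρ (S univ - T (g0 ^ (p ^ j - 1)) * S (NF N)) := by
    have h11 : p ^ j - 1 = m + 1 := by omega
    have h12 : ρ (T (g0 ^ (m + 1))) = ρ (T g0) ^ (m + 1) := by rw [← T_pow, map_pow]
    rw [h11, map_sub, map_mul ρ (T (g0 ^ (m + 1))), h12, hF, map_mul, h1, hm]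
    calc ρ (S D) ^ (m + 2) * ρ (S (D.image fun x => x⁻¹))
        = ρ (S D) ^ (m + 1) * (ρ (S D) * ρ (S (D.image fun x => x⁻¹))) := by ring
      _ = ρ (S D) ^ m * (ρ (S D) * ρ (S univ)) - ρ (S D) ^ (m + 1) * ρ (S (NF N)) := by
          rw [h2]; ring
      _ = (-1) ^ (m + 1) * (ρ (S univ) - ρ (T g0) ^ (m + 1) * ρ (S (NF N))) := by
          rw [h3, h6]; ring
      _ = _ := by rw [h8, one_mul]
  have h12 : ∀ a, (p : ℤ) ∣ F.coeff a - (S univ - T (g0 ^ (p ^ j - 1)) * S (NF N)).coeff a := by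
    intro a
    have h13 : (ρ F).coeff a = (ρ (S univ - T (g0 ^ (p ^ j - 1)) * S (NF N))).coeff a := by
      rw [h10]
    rw [hρ, coeff_mapRingHom, coeff_mapRingHom] at h13
    simp only [Int.coe_castRingHom] at h13
    rw [← ZMod.intCast_zmod_eq_zero_iff_dvd, Int.cast_sub, h13, sub_self]
  refine ⟨ofCoeff (Finsupp.equivFunOnFinite.symm fun a =>
    (F.coeff a - (S univ - T (g0 ^ (p ^ j - 1)) * S (NF N)).coeff a) / p), fun a => ?_, ?_⟩
  · rw [coeff_ofCoeff, Finsupp.equivFunOnFinite_symm_apply_apply]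
    obtain ⟨c, hc⟩ := h12 a
    rw [hc, Int.mul_ediv_cancel_left _ (by exact_mod_cast hp.ne_zero)]
    have h14 : 0 ≤ F.coeff a := by
      rw [hF, P_S _ (pow_inj hA hp hpn j).injOn, coeff_S_mul_S]
      positivity
    have h15 : (S univ - T (g0 ^ (p ^ j - 1)) * S (NF N)).coeff a ≤ 1 := by
      rw [coeff_sub, Finsupp.sub_apply, coeff_T_mul, coeff_S, coeff_S, if_pos (mem_univ a)]
      split_ifs <;> simp
    have h16 : (-1 : ℤ) ≤ p * c := by
      rw [← hc]
      linarith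
    have h17 : (2 : ℤ) ≤ p := by exact_mod_cast hp.two_le
    by_contra hneg
    rw [not_le] at hneg
    nlinarith
  · refine MonoidAlgebra.ext (Finsupp.ext fun a => ?_)
    rw [coeff_add, Finsupp.add_apply, coeff_nat_mul, coeff_ofCoeff,
      Finsupp.equivFunOnFinite_symm_apply_apply, Int.mul_ediv_cancel' (h12 a)]
    ring

/-- the inversion -/
abbrev iv : G →* G := invMonoidHom

theorem iv_inj : Function.Injective (iv : G →* G) := inv_injective

theorem coeff_P_iv (f : MonoidAlgebra ℤ G) (b : G) : (P iv f).coeff b = f.coeff b⁻¹ := by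
  induction f using MonoidAlgebra.induction_linear with
  | zero => simp
  | add f g hf hg => rw [map_add, coeff_add, Finsupp.add_apply, hf, hg, coeff_add,
      Finsupp.add_apply]
  | single a r =>
    have h1 : P iv (single a r) = single a⁻¹ r := by
      simp [P, iv]
    rw [h1, coeff_single, coeff_single, Finsupp.single_apply, Finsupp.single_apply]
    have h2 : (a⁻¹ = b) ↔ (a = b⁻¹) := inv_eq_iff_eq_inv
    simp only [h2]

theorem supp_single {A : MonoidAlgebra ℤ G} (hA0 : ∀ a, 0 ≤ A.coeff a) {p n : ℕ} (hp : p ≠ 0)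
    (hn : n ≠ 0)
    (h : (p : MonoidAlgebra ℤ G) ^ 2 * (A * P iv A) = (n : MonoidAlgebra ℤ G) ^ 2) :
    ∃ g : G, (p : MonoidAlgebra ℤ G) * A = n * T g := by
  have hcoef : ∀ a : G, a ≠ 1 → (A * P iv A).coeff a = 0 := by
    intro a ha
    have h1 : ((p ^ 2 : ℕ) : MonoidAlgebra ℤ G) * (A * P iv A) = ((n ^ 2 : ℕ) : MonoidAlgebra ℤ G) := by
      push_cast
      exact h
    have h2 : (((p ^ 2 : ℕ) : MonoidAlgebra ℤ G) * (A * P iv A)).coeff a =
        ((n ^ 2 : ℕ) : MonoidAlgebra ℤ G).coeff a := by rw [h1]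
    rw [coeff_nat_mul, coeff_nat, if_neg ha] at h2
    have h3 : ((p ^ 2 : ℕ) : ℤ) ≠ 0 := by exact_mod_cast pow_ne_zero 2 hp
    exact (mul_eq_zero.1 h2).resolve_left h3
  have hprod : ∀ x y : G, x ≠ y → A.coeff x * A.coeff y = 0 := by
    intro x y hxy
    have h1 := hcoef (x * y⁻¹) (fun h2 => hxy (mul_inv_eq_one.1 h2))
    rw [coeff_mul_antidiag A (P iv A) (x * y⁻¹) (univ.filter fun r : G × G => r.1 * r.2 = x * y⁻¹)
      (by simp)] at h1
    have h2 : ∀ r ∈ (univ.filter fun r : G × G => r.1 * r.2 = x * y⁻¹),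
        0 ≤ A.coeff r.1 * (P iv A).coeff r.2 := by
      intro r _
      rw [coeff_P_iv]
      exact mul_nonneg (hA0 _) (hA0 _)
    have h3 := (sum_eq_zero_iff_of_nonneg h2).1 h1 (x, y⁻¹) (by simp)
    rw [coeff_P_iv, inv_inv] at h3
    exact h3
  obtain ⟨g, hg⟩ : ∃ g, A.coeff g ≠ 0 := by
    by_contra hne
    have h1 : A = 0 := MonoidAlgebra.ext (Finsupp.ext fun a => by
      by_contra h2
      exact hne ⟨a, h2⟩)
    rw [h1, zero_mul, mul_zero] at h
    have h2 : ((n ^ 2 : ℕ) : MonoidAlgebra ℤ G).coeff 1 = 0 := by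
      push_cast
      rw [← h]
      rfl
    rw [coeff_nat, if_pos rfl] at h2
    have h3 : n ^ 2 = 0 := by exact_mod_cast h2
    exact pow_ne_zero 2 hn h3
  obtain ⟨k, hk⟩ := Int.eq_ofNat_of_zero_le (hA0 g)
  have hAk : A = (k : MonoidAlgebra ℤ G) * T g := by
    refine MonoidAlgebra.ext (Finsupp.ext fun a => ?_)
    rw [coeff_nat_mul, coeff_T]
    by_cases ha : g = a
    · rw [if_pos ha, mul_one, ← ha, hk]
    · rw [if_neg ha, mul_zero]
      exact (mul_eq_zero.1 (hprod g a ha)).resolve_left hg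
  have h1 : (((p * k) ^ 2 : ℕ) : MonoidAlgebra ℤ G) = ((n ^ 2 : ℕ) : MonoidAlgebra ℤ G) := by
    push_cast
    rw [← h]
    nth_rewrite 2 [hAk]
    nth_rewrite 1 [hAk]
    rw [map_mul, P_T, P_nat]
    have h2 : T g * T (iv g) = 1 := by
      rw [T_mul]
      simp [T_one]
    linear_combination (-(p : MonoidAlgebra ℤ G) ^ 2 * k ^ 2) * h2
  have h2 : (((p * k) ^ 2 : ℕ) : MonoidAlgebra ℤ G).coeff 1 =
      ((n ^ 2 : ℕ) : MonoidAlgebra ℤ G).coeff 1 := by rw [h1]
  rw [coeff_nat, coeff_nat, if_pos rfl, if_pos rfl] at h2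
  have h3 : (p * k) ^ 2 = n ^ 2 := by exact_mod_cast h2
  have h4 : p * k = n := Nat.pow_left_injective (n := 2) (by norm_num) h3
  refine ⟨g, ?_⟩
  rw [hAk, ← h4]
  push_cast
  ring

end

end Mult

open Mult in
theorem multiplier {G : Type} [CommGroup G] [Fintype G] [DecidableEq G] {n : ℕ} {N : Subgroup G}
    {D : Finset G} (hA : Aff n N D) {p : ℕ} (hp : p.Prime) (hpn : p ∣ n) {j : ℕ} (hj : 1 ≤ j) :
    ∃ g : G, D.image (fun d => d ^ (p ^ j)) = D.image (fun d => g * d) := by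
  obtain ⟨g0, hg⟩ := DN hA
  obtain ⟨A, hA0, hF⟩ := exists_A hA hp hpn hj hg
  have hinj := pow_inj hA hp hpn j
  have hn2 := hA.hn
  have hq1 : 1 ≤ p ^ j := Nat.one_le_pow _ _ hp.pos
  set φ := P (powMonoidHom (p ^ j) : G →* G) with hφ
  set σ := P (iv : G →* G) with hσ
  set U : MonoidAlgebra ℤ G := S univ with hU
  set V : MonoidAlgebra ℤ G := S (NF N) with hV
  set X : MonoidAlgebra ℤ G := S D with hX
  set X' : MonoidAlgebra ℤ G := S (D.image fun x => x⁻¹) with hX'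
  set h : MonoidAlgebra ℤ G := T (g0 ^ (p ^ j - 1)) with hh
  set h' : MonoidAlgebra ℤ G := T (g0 ^ (p ^ j - 1))⁻¹ with hh'
  have hcardU : ((#(univ : Finset G) : ℕ) : MonoidAlgebra ℤ G) = (n : MonoidAlgebra ℤ G) ^ 2 - 1 := by
    rw [card_univ, hA.cardG, Nat.cast_sub (Nat.one_le_pow _ _ (by omega))]
    push_cast
    rfl
  have hcardV : ((#(NF N) : ℕ) : MonoidAlgebra ℤ G) = (n : MonoidAlgebra ℤ G) - 1 := by
    rw [card_NF, hA.cardN, Nat.cast_sub (by omega)]
    push_cast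
    rfl
  -- relations
  have r1 : X * X' = n + U - V := DDs hA
  have hUU : U * U = ((n : MonoidAlgebra ℤ G) ^ 2 - 1) * U := by rw [hU, S_mul_univ, hcardU]
  have hVU : V * U = ((n : MonoidAlgebra ℤ G) - 1) * U := by rw [hV, hU, S_mul_univ, hcardV]
  have hVV : V * V = ((n : MonoidAlgebra ℤ G) - 1) * V := by
    rw [hV, S_mul_of_inv _ _ (fun x hx => T_mul_NF (mem_NF.1 hx)), hcardV]
  have hXU : X * U = n * U := by rw [hX, hU, S_mul_univ, hA.cardD]
  have hσX : σ X = X' := by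
    rw [hσ, hX, P_S _ iv_inj.injOn]
    rfl
  have hσU : σ U = U := P_univ iv_inj
  have hσV : σ V = V := P_NF iv_inj (fun a ha => N.inv_mem ha)
  have hφU : φ U = U := P_univ hinj
  have hφV : φ V = V := P_NF hinj (fun a ha => N.pow_mem ha _)
  have hσσ : ∀ f, σ (σ f) = f := by
    intro f
    refine MonoidAlgebra.ext (Finsupp.ext fun a => ?_)
    rw [hσ, coeff_P_iv, coeff_P_iv, inv_inv]
  have hσφ : σ (φ X) = φ (σ X) := by
    rw [hX, S, map_sum, map_sum, map_sum, map_sum]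
    refine sum_congr rfl fun x _ => ?_
    rw [hσ, hφ, P_T, P_T, P_T, P_T]
    simp [iv]
  have hX'U : X' * U = n * U := by
    rw [← hσX, ← hσU, ← map_mul, hXU, map_mul, hσ, P_nat]
  have hφXU : φ X * U = n * U := by
    rw [← hφU, ← map_mul, hXU, map_mul, hφ, P_nat]
  have hX'V : X' * V = U - T g0⁻¹ * V := by
    rw [← hσX, ← hσV, ← map_mul, hg, map_sub, map_mul, hσU, hσV, hσ, P_T]
    rfl
  have hφXV : φ X * V = U - T (g0 ^ (p ^ j)) * V := by
    rw [← hφV, ← map_mul, hg, map_sub, map_mul, hφU, hφV, hφ, P_T]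
    rfl
  have hhU : h * U = U := T_mul_univ _
  have hh'U : h' * U = U := T_mul_univ _
  have htU : T g0⁻¹ * U = U := T_mul_univ _
  have hhh : h * h' = 1 := by
    rw [hh, hh', T_mul, mul_inv_cancel, T_one]
  have ht1 : T g0⁻¹ * T (g0 ^ (p ^ j)) = h := by
    rw [hh, T_mul]
    congr 1
    obtain ⟨m, hm⟩ : ∃ m, p ^ j = m + 1 := ⟨p ^ j - 1, by omega⟩
    rw [hm, pow_succ']
    simp
  have ht2 : h * T g0 = T (g0 ^ (p ^ j)) := by
    rw [hh, T_mul, ← pow_succ]
    congr 2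
    omega
  have hσh : σ h = h' := by
    rw [hσ, hh, P_T]
    rfl
  -- the element `A`
  have a1 : (p : MonoidAlgebra ℤ G) * A * U = n * U := by
    have e1 : φ X * X' * U = (n : MonoidAlgebra ℤ G) * (n * U) := by
      rw [mul_assoc, hX'U, mul_left_comm, hφXU]
    rw [hF] at e1
    linear_combination e1 - hUU + (n - 1) * hhU + h * hVU
  have a2 : (p : MonoidAlgebra ℤ G) * A * V = n * (h * V) := by
    have e1 : φ X * X' * V = n * U - (U - h * V) := by
      rw [mul_assoc, hX'V]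
      linear_combination hφXU - T g0⁻¹ * hφXV - htU + ht1 * V
    rw [hF] at e1
    linear_combination e1 - hVU + h * hVV
  have a3 : (p : MonoidAlgebra ℤ G) * σ A * U = n * U := by
    have e1 := congrArg σ a1
    rw [map_mul, map_mul, map_mul, hσU, hσ, P_nat, P_nat] at e1
    exact e1
  have a4 : (p : MonoidAlgebra ℤ G) * σ A * V = n * (h' * V) := by
    have e1 := congrArg σ a2
    rw [map_mul, map_mul, map_mul, map_mul, hσV, hσh, hσ, P_nat, P_nat] at e1
    exact e1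
  have a5 : σ (φ X * X') = U - h' * V + p * σ A := by
    rw [hF, map_add, map_sub, map_mul, map_mul, hσU, hσV, hσh, hσ, P_nat]
  have a6 : φ X * X' * σ (φ X * X') = (n + U - V) ^ 2 := by
    rw [map_mul, hσφ, hσX, ← hσX, hσσ, hσX]
    have e1 : φ X * φ X' = n + U - V := by
      rw [← map_mul, r1, map_sub, map_add, hφU, hφV, hφ, P_nat]
    linear_combination (X * X') * e1 + (n + U - V) * r1
  have a7 : (p : MonoidAlgebra ℤ G) ^ 2 * (A * σ A) = (n : MonoidAlgebra ℤ G) ^ 2 := by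
    rw [a5, hF] at a6
    linear_combination a6 - a1 - a3 + h' * a2 + h * a4 + (-2 + h + h') * hVU +
      ((n : MonoidAlgebra ℤ G) - 1) * hhU + ((n : MonoidAlgebra ℤ G) - 1) * hh'U +
      (2 * (n : MonoidAlgebra ℤ G) * V - V ^ 2) * hhh
  obtain ⟨g, hgA⟩ := supp_single hA0 hp.ne_zero (by omega) a7
  refine ⟨g, ?_⟩
  rw [hgA] at hF
  have e2 : (n : MonoidAlgebra ℤ G) * φ X = n * (T g * X) := by
    linear_combination X * hF - φ X * r1 - hφXU + hφXV + hXU - h * hg - hhU + V * ht2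
  have e3 := nat_mul_cancel (by omega) e2
  rw [hφ, hX, P_S _ hinj.injOn, T_mul_S] at e3
  exact S_inj e3

end Pool.Agent.ADS
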