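import Pool.Agent.Lib.MP_cfcc59_co.ADS.Defs
import Pool.Agent.Lib.MP_cfcc59_co.ADS.Mult

/-!
# MP_cfcc59_co, project ADS: the test T3
-/

set_option autoImplicit false

namespace Pool.Agent.ADS

open Finset

private theorem test_index {G : Type} [CommGroup G] [Fintype G] [DecidableEq G] {n : ℕ}
    {N : Subgroup G} {D : Finset G} (hA : Aff n N D) : N.index = n + 1 := by
  have h2 := hA.hn
  have h1 := N.card_mul_index
  rw [hA.cardN, Nat.card_eq_fintype_card, hA.cardG] at h1
  have h3 : n ^ 2 - 1 = (n - 1) * (n + 1) := by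
    obtain ⟨m, rfl⟩ : ∃ m, n = m + 1 := ⟨n - 1, by omega⟩
    simp only [Nat.add_sub_cancel]
    rw [Nat.sub_eq_iff_eq_add (by nlinarith)]
    ring
  rw [h3] at h1
  exact Nat.eq_of_mul_eq_mul_left (by omega) h1

theorem test {G : Type} [CommGroup G] [Fintype G] [DecidableEq G] {n : ℕ} {N : Subgroup G}
    {D : Finset G} (hA : Aff n N D) {p j w : ℕ} (hp : p.Prime) (hpn : p ∣ n)
    (hj : n + 1 ∣ p ^ j - 1) (hw : w.Prime) (hwn : w ∣ n ^ 2 - 1) : w ∣ p ^ j - 1 := by
  rcases Nat.eq_zero_or_pos j with rfl | hj1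
  · simp
  obtain ⟨g, hg⟩ := multiplier hA hp hpn hj1
  have hidx := test_index hA
  have hn2 := hA.hn
  have hq1 : 1 ≤ p ^ j := Nat.one_le_pow _ _ hp.pos
  obtain ⟨r, hr⟩ : ∃ r, p ^ j = r + 1 := ⟨p ^ j - 1, by omega⟩
  rw [hr] at hg hj ⊢
  simp only [Nat.add_sub_cancel] at hj ⊢
  have hpowN : ∀ x : G, x ^ (n + 1) ∈ N := fun x => by
    rw [← hidx]
    exact N.pow_index_mem x
  have hpow : ∀ x : G, x ^ r ∈ N := by
    intro x
    obtain ⟨k, hk⟩ := hj
    rw [hk, pow_mul]
    exact N.pow_mem (hpowN x) k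
  -- `g` is in `N`
  have hginj : Set.InjOn (fun d => g * d) (D : Set G) := fun a _ b _ h => mul_left_cancel h
  have hqinj : Set.InjOn (fun d => d ^ (r + 1)) (D : Set G) := by
    rw [← Finset.card_image_iff, hg, Finset.card_image_iff]
    exact hginj
  have hprod : (∏ d ∈ D, d) ^ (r + 1) = g ^ n * ∏ d ∈ D, d := by
    have h1 : ∏ x ∈ D.image (fun d => d ^ (r + 1)), x = ∏ x ∈ D.image (fun d => g * d), x := by
      rw [hg]
    rw [Finset.prod_image (fun a ha b hb h => hqinj ha hb h),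
      Finset.prod_image (fun a ha b hb h => hginj ha hb h), Finset.prod_mul_distrib,
      Finset.prod_const, hA.cardD, Finset.prod_pow] at h1
    exact h1
  have hgn : g ^ n ∈ N := by
    rw [pow_succ] at hprod
    have h1 := mul_right_cancel hprod
    rw [← h1]
    exact hpow _
  have hgN : g ∈ N := by
    have h1 := hpowN g
    rw [pow_succ] at h1
    exact (N.mul_mem_cancel_left hgn).1 h1
  -- `d ^ r = g` on `D`
  have hdg : ∀ d ∈ D, d ^ r = g := by
    intro d hd
    have h1 : d ^ (r + 1) ∈ D.image (fun d => g * d) := by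
      rw [← hg]
      exact Finset.mem_image_of_mem _ hd
    obtain ⟨d', hd', h2⟩ := Finset.mem_image.1 h1
    by_contra hne
    have h3 : g⁻¹ * d ^ r ∈ N := N.mul_mem (N.inv_mem hgN) (hpow d)
    have h4 : g⁻¹ * d ^ r ≠ 1 := fun h5 => hne (by rw [inv_mul_eq_one] at h5; exact h5.symm)
    have h5 := hA.zero _ h3 h4
    rw [Finset.card_eq_zero, Finset.filter_eq_empty_iff] at h5
    refine h5 (Finset.mem_product.2 ⟨hd', hd⟩ : (d', d) ∈ D ×ˢ D) ?_
    simp only
    have h6 : g * d' = d ^ r * d := by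
      rw [← pow_succ]
      exact h2
    rw [mul_assoc, ← h6, inv_mul_cancel_left]
  have hout : ∀ a : G, a ∉ N → a ^ r = 1 := by
    intro a ha
    have h1 := hA.one a ha
    obtain ⟨⟨x, y⟩, hxy⟩ := Finset.card_pos.1 (by rw [h1]; norm_num :
      0 < #{x ∈ D ×ˢ D | x.1 = a * x.2})
    rw [Finset.mem_filter, Finset.mem_product] at hxy
    obtain ⟨⟨hx, hy⟩, h2⟩ := hxy
    simp only at hx hy h2
    have h3 := congrArg (fun z => z ^ r) h2
    simp only [mul_pow] at h3
    rw [hdg x hx, hdg y hy] at h3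
    exact (mul_eq_right.1 h3.symm)
  have hall : ∀ a : G, a ^ r = 1 := by
    intro a
    by_cases ha : a ∈ N
    · obtain ⟨b, hb⟩ : ∃ b : G, b ∉ N := by
        by_contra hcon
        have h1 : N = ⊤ := by
          rw [Subgroup.eq_top_iff']
          intro x
          by_contra hx
          exact hcon ⟨x, hx⟩
        rw [h1, Subgroup.index_top] at hidx
        omega
      have hab : a * b ∉ N := fun h => hb ((N.mul_mem_cancel_left ha).1 h)
      have h1 := hout _ hab
      rw [mul_pow, hout b hb, mul_one] at h1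
      exact h1
    · exact hout a ha
  have hfact : Fact w.Prime := ⟨hw⟩
  obtain ⟨x, hx⟩ := exists_prime_orderOf_dvd_card w (by rw [hA.cardG]; exact hwn : w ∣ Fintype.card G)
  rw [← hx]
  exact orderOf_dvd_of_pow_eq_one (hall x)

end Pool.Agent.ADS
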